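import Mathlib
import Pool.Agent.Lib.P0c8ca5G.LfM

/-!
# Ca: the pairs formula if every block of the normal subgroup has one simple module

`N` is normal in `Y`, `f` a `Y`-invariant idempotent of `kN` such that every block `e` of `N` below
`f` has exactly one irreducible representation, and any two elements `x`, `y` of `Y` that fix `e` and
commute modulo `N` are in `z ^ a N`, `z ^ b N` for some `z` in `Y` fixing `e`. Then
`|N| |Y| l(Y, f)` is the number of the triples `(x, y, e)` with `x`, `y` in `Y` commuting modulo `N`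
and `e` a block of `N` below `f` fixed by `x` and `y`.

Proof: `lfM`; all symbols `omX` of fixed classes are `1` since `om z z = 1`.
-/

set_option autoImplicit false

namespace Pool.Agent.Lib.P0c8ca5.Kq

open MonoidAlgebra Ps Bq Zz Gg

variable {p : ℕ} {k : Type*} [Field k] {A : Type*} [Group A]

namespace CaAux

variable {N : Subgroup A} {n : ℕ} {ρ : Rp k N n} {x y z : A}

theorem itw_one : Itw N ρ 1 (LinearEquiv.refl k _) := by
  intro g g' h v
  have h1 : g' = g := Subtype.ext (by rw [h]; group)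
  rw [h1]
  rfl

theorem itw_pow (hz : z ∈ Subgroup.normalizer (N : Set A)) (hZ : ∃ X, Itw N ρ z X) (a : ℕ) :
    ∃ X, Itw N ρ (z ^ a) X := by
  induction a with
  | zero => exact ⟨_, by rw [pow_zero]; exact itw_one⟩
  | succ a ih =>
    obtain ⟨X, hX⟩ := ih
    obtain ⟨Z, hZ⟩ := hZ
    refine ⟨Z.trans X, ?_⟩
    rw [pow_succ]
    exact Itw.mul (Subgroup.pow_mem _ hz a) hz hX hZ

theorem om_self [IsAlgClosed k] (hρ : Irr' ρ) (hz : z ∈ Subgroup.normalizer (N : Set A))
    (hZ : ∃ X, Itw N ρ z X) : om N ρ z z = 1 := by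
  obtain ⟨X, hX⟩ := hZ
  refine om_eq hρ hz hz ⟨X, X, 1, hX, hX, ?_, fun v => ?_⟩
  · rw [Subgroup.coe_one]
    group
  · rw [map_one, one_smul]
    rfl

theorem comm_pow (a b : ℕ) : z ^ b * z ^ a * (z ^ b)⁻¹ * (z ^ a)⁻¹ = 1 := by
  rw [← pow_add, add_comm, pow_add]
  group

theorem om_ne [IsAlgClosed k] (hρ : Irr' ρ) (hz : z ∈ Subgroup.normalizer (N : Set A))
    (hZ : ∃ X, Itw N ρ z X) (a b : ℕ) : om N ρ (z ^ a) (z ^ b) ≠ 0 := by
  rw [om_ne_zero_iff hρ (Subgroup.pow_mem _ hz a) (Subgroup.pow_mem _ hz b)]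
  refine ⟨itw_pow hz hZ a, itw_pow hz hZ b, ?_⟩
  rw [comm_pow]
  exact N.one_mem

theorem om_pow [IsAlgClosed k] (hρ : Irr' ρ) (hz : z ∈ Subgroup.normalizer (N : Set A))
    (hZ : ∃ X, Itw N ρ z X) (a b : ℕ) : om N ρ (z ^ a) (z ^ b) = 1 := by
  have h1 : ∀ b : ℕ, om N ρ z (z ^ b) = 1 := by
    intro b
    induction b with
    | zero =>
      rw [pow_zero]
      exact om_mem_right hρ hz hZ N.one_mem
    | succ b ih =>
      rw [pow_succ, om_mul_right hρ hz (Subgroup.pow_mem _ hz b) hz, ih, om_self hρ hz hZ,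
        mul_one]
      · rw [ih]; exact one_ne_zero
      · rw [om_self hρ hz hZ]; exact one_ne_zero
  induction a with
  | zero =>
    rw [pow_zero, om_symm hρ (Subgroup.pow_mem _ hz b) (Subgroup.one_mem _),
      om_mem_right hρ (Subgroup.pow_mem _ hz b) (itw_pow hz hZ b) N.one_mem, inv_one]
  | succ a ih =>
    rw [pow_succ, om_mul_left hρ (Subgroup.pow_mem _ hz a) hz (Subgroup.pow_mem _ hz b), ih, h1,
      mul_one]
    · rw [ih]; exact one_ne_zero
    · rw [h1]; exact one_ne_zero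

theorem om_one [IsAlgClosed k] (hρ : Irr' ρ) (hz : z ∈ Subgroup.normalizer (N : Set A))
    (hZ : ∃ X, Itw N ρ z X) {a b : ℕ} (hx : x * (z ^ a)⁻¹ ∈ N) (hy : y * (z ^ b)⁻¹ ∈ N) :
    om N ρ x y = 1 := by
  rw [om_congr hρ (Subgroup.pow_mem _ hz a) (Subgroup.pow_mem _ hz b) hx hy, om_pow hρ hz hZ]

/-- the block of an irreducible representation -/
theorem exists_blk [Fact p.Prime] [CharP k p] [IsAlgClosed k] [Fintype A]
    {f : MonoidAlgebra k A} (hf : f ∈ fixAlg k N N) (hff : f * f = f) (hρ : Irr' ρ)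
    (h1 : act ρ f = 1) : ∃ e, (IsBlock N e ∧ e * f = e) ∧ act ρ e = 1 := by
  classical
  let B : Finset (MonoidAlgebra k A) :=
    ((finite_isBlock (k := k) N).toFinset).filter (fun b => b * f ≠ 0)
  have hB : ∀ b, b ∈ B ↔ IsBlock N b ∧ b * f ≠ 0 := by
    intro b
    rw [Finset.mem_filter, Set.Finite.mem_toFinset]
    rfl
  have hsum := WSumAux.sum_blocks (p := p) hf hff B hB
  by_contra hcon
  push Not at hcon
  have hnt := hρ.nontriv
  have h0 : act ρ f = 0 := by
    rw [← hsum, WSumAux.act_sum]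
    refine Finset.sum_eq_zero fun b hb => ?_
    obtain ⟨hb1, hb2⟩ := (hB b).1 hb
    rcases act_zero_or_one hρ hb1.suppIn hb1.invBy hb1.idem with h | h
    · exact h
    · exfalso
      apply hcon b ?_ h
      refine ⟨hb1, ?_⟩
      have hc : b * f = f * b := commute_of hb1.suppIn (mem_fixAlg.1 hf).2
      rcases hb1.mul_eq hf hff with h2 | h2
      · exact absurd (by rw [hc, h2]) hb2
      · rw [hc, h2]
  rw [h1] at h0
  obtain ⟨v, hv⟩ := exists_ne (0 : Fin n → k)
  apply hv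
  have h2 := congrArg (fun F : (Fin n → k) →ₗ[k] (Fin n → k) => F v) h0
  exact h2

theorem blk_unique [Finite A] (hρ : Irr' ρ) {e e' : MonoidAlgebra k A}
    (he : IsBlock N e) (he' : IsBlock N e') (h1 : act ρ e = 1) (h2 : act ρ e' = 1) : e = e' := by
  rcases he.eq_or_mul_eq_zero he' with h | h
  · exact h
  · exfalso
    have hnt := hρ.nontriv
    have h3 := act_mul ρ (b := e') he.suppIn
    rw [h, h1, h2, one_mul, WSumAux.act_zero'] at h3
    obtain ⟨v, hv⟩ := exists_ne (0 : Fin n → k)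
    apply hv
    have h4 := congrArg (fun F : (Fin n → k) →ₗ[k] (Fin n → k) => F v) h3
    exact h4.symm

/-- stability of the representation and of its block -/
theorem fix_iff [Finite A] (hρ : Irr' ρ) {e : MonoidAlgebra k A} (he : IsBlock N e)
    (h1 : act ρ e = 1) (hl : Nat.card (IrX N e) = 1)
    (hx : x ∈ Subgroup.normalizer (N : Set A)) :
    (∃ X, Itw N ρ x X) ↔ cj x e = e := by
  rw [← itw_iff hx]
  have h2 : act (tw hx ρ) (cj x e) = 1 := by
    rw [SumOmAux.act_tw_cj' hx ρ e, h1]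
  constructor
  · intro h
    have h3 : act ρ (cj x e) = 1 := act_iso h h2
    have hb : IsBlock N (cj x e) := by
      have h4 := isBlock_cg he x
      rwa [cg_eq_self_iff.2 hx] at h4
    exact blk_unique hρ hb he h3 h1
  · intro h
    rw [h] at h2
    rw [Nat.card_eq_one_iff_unique] at hl
    have := hl.1
    have h3 : (⟦mkIrr (tw hx ρ) (hρ.tw hx) h2⟧ : IrX N e) = ⟦mkIrr ρ hρ h1⟧ :=
      Subsingleton.elim _ _
    exact mk_eq_mk.1 h3

end CaAux

open CaAux

/-- the triples of `card_l` -/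
def Tri (N Y : Subgroup A) (f : MonoidAlgebra k A) : Set (A × A × MonoidAlgebra k A) :=
  {t | (t.1 ∈ Y ∧ t.2.1 ∈ Y ∧ t.2.1 * t.1 * t.2.1⁻¹ * t.1⁻¹ ∈ N) ∧
    (IsBlock N t.2.2 ∧ t.2.2 * f = t.2.2) ∧ cj t.1 t.2.2 = t.2.2 ∧ cj t.2.1 t.2.2 = t.2.2}

theorem card_l [Fact p.Prime] [CharP k p] [IsAlgClosed k] [Fintype A] {N Y : Subgroup A}
    (hNY : N ≤ Y) (hn : Y ≤ Subgroup.normalizer (N : Set A)) {f : MonoidAlgebra k A}
    (hf : SuppIn N f) (hfi : InvBy Y f) (hff : f * f = f)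
    (h1 : ∀ e, IsBlock N e → e * f = e → Nat.card (IrX N e) = 1)
    (h2 : ∀ e, IsBlock N e → e * f = e → ∀ x ∈ Y, ∀ y ∈ Y, y * x * y⁻¹ * x⁻¹ ∈ N →
      cj x e = e → cj y e = e →
      Prm p N x ∧ ∃ z ∈ Y, cj z e = e ∧ ∃ a b : ℕ, x * (z ^ a)⁻¹ ∈ N ∧ y * (z ^ b)⁻¹ ∈ N) :
    Nat.card N * Nat.card Y * Nat.card (IrX Y f) = Nat.card (Tri N Y f) := by
  classical
  have hfN : f ∈ fixAlg k N N := mem_fixAlg.2 ⟨hf, hfi.mono hNY⟩
  have hirr : ∀ c : IrX N f, Irr' (Quotient.out c).ρ := fun c => irr_iff.1 (Quotient.out c).irr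
  have hblk : ∀ c : IrX N f, act (Quotient.out c).ρ f = 1 :=
    fun c => act_iff.2 (Quotient.out c).blk
  have hex := fun c : IrX N f => exists_blk (p := p) hfN hff (hirr c) (hblk c)
  choose e he hea using hex
  have : Fintype (IrX N f) := Fintype.ofFinite _
  have hfix : ∀ (c : IrX N f) (x : A), x ∈ Y →
      ((∃ X, Itw N (Quotient.out c).ρ x X) ↔ cj x (e c) = e c) := fun c x hx =>
    fix_iff (hirr c) (he c).1 (hea c) (h1 _ (he c).1 (he c).2) (hn hx)
  have hval : ∀ z ∈ prs N Y, ∀ c : IrX N f, WittVector.teichmuller p (omX N f c z.1 z.2)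
      = if cj z.1 (e c) = e c ∧ cj z.2 (e c) = e c then 1 else 0 := by
    intro z hz c
    obtain ⟨hx, hy, hxy⟩ := mem_prs.1 hz
    split_ifs with h
    · obtain ⟨_, w, hw, hwe, a, b, ha, hb⟩ := h2 (e c) (he c).1 (he c).2 _ hx _ hy hxy h.1 h.2
      have h3 : omX N f c z.1 z.2 = 1 :=
        om_one (hirr c) (hn hw) ((hfix c w hw).2 hwe) ha hb
      rw [h3]
      exact map_one (WittVector.teichmuller p)
    · have h3 : omX N f c z.1 z.2 = 0 := by
        by_contra h4
        obtain ⟨h5, h6, _⟩ := (om_ne_zero_iff (hirr c) (hn hx) (hn hy)).1 h4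
        exact h ⟨(hfix c _ hx).1 h5, (hfix c _ hy).1 h6⟩
      rw [h3]
      exact WittVector.teichmuller_zero p
  have hmain := lfM (p := p) hNY hn hf hfi hff
  have hcard : ∑ z ∈ (prs N Y).filter (fun z => Prm p N z.1),
      ∑ᶠ c : IrX N f, WittVector.teichmuller p (omX N f c z.1 z.2)
      = ((Nat.card (Tri N Y f) : ℕ) : WittVector p k) := by
    have h3 : ∀ z ∈ (prs N Y).filter (fun z => Prm p N z.1),
        ∑ᶠ c : IrX N f, WittVector.teichmuller p (omX N f c z.1 z.2)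
        = (((Finset.univ.filter (fun c : IrX N f =>
            cj z.1 (e c) = e c ∧ cj z.2 (e c) = e c)).card : ℕ) : WittVector p k) := by
      intro z hz
      rw [finsum_eq_sum_of_fintype,
        Finset.sum_congr rfl (fun c _ => hval z (Finset.mem_filter.1 hz).1 c),
        Finset.sum_boole]
    rw [Finset.sum_congr rfl h3, ← Nat.cast_sum]
    congr 1
    rw [← Finset.card_sigma]
    symm
    rw [Nat.card_coe_set_eq]
    -- the bijection
    have hTfin : (Tri N Y f).Finite := by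
      refine Set.Finite.subset (Set.Finite.prod (Set.toFinite (Set.univ : Set A))
        (Set.Finite.prod (Set.toFinite (Set.univ : Set A)) (finite_isBlock (k := k) N))) ?_
      rintro ⟨x, y, b⟩ ht
      exact ⟨Set.mem_univ _, Set.mem_univ _, ht.2.1.1⟩
    rw [Set.ncard_eq_toFinset_card _ hTfin]
    symm
    refine Finset.card_bij (fun w _ => (w.1.1, w.1.2, e w.2)) ?_ ?_ ?_
    · rintro ⟨z, c⟩ hw
      rw [Finset.mem_sigma, Finset.mem_filter, Finset.mem_filter] at hw
      rw [Set.Finite.mem_toFinset]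
      obtain ⟨⟨hz, -⟩, -, hc⟩ := hw
      exact ⟨mem_prs.1 hz, he c, hc⟩
    · rintro ⟨z, c⟩ hw ⟨z', c'⟩ hw' h
      simp only [Prod.mk.injEq] at h
      obtain ⟨e1, e2, e3⟩ := h
      have hz : z = z' := Prod.ext e1 e2
      subst hz
      have hl := h1 _ (he c).1 (he c).2
      rw [Nat.card_eq_one_iff_unique] at hl
      have := hl.1
      have h4 : act (Quotient.out c').ρ (e c) = 1 := by rw [e3]; exact hea c'
      have h5 : (⟦mkIrr (Quotient.out c).ρ (hirr c) (hea c)⟧ : IrX N (e c))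
          = ⟦mkIrr (Quotient.out c').ρ (hirr c') h4⟧ := Subsingleton.elim _ _
      have h7 : Iso (Quotient.out c).ρ (Quotient.out c').ρ := (mk_eq_mk (a := mkIrr (Quotient.out c).ρ (hirr c) (hea c)) (b := mkIrr (Quotient.out c').ρ (hirr c') h4)).1 h5
      have h6 := SumOmAux.eq_of_iso h7
      rw [h6]
    · rintro ⟨x, y, b⟩ ht
      rw [Set.Finite.mem_toFinset] at ht
      obtain ⟨ht1, ht2, ht3, ht4⟩ := ht
      have hl := h1 _ ht2.1 ht2.2
      rw [Nat.card_eq_one_iff_unique] at hl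
      obtain ⟨c0⟩ := hl.2
      have hi : Irr' (Quotient.out c0).ρ := irr_iff.1 (Quotient.out c0).irr
      have hb : act (Quotient.out c0).ρ b = 1 := act_iff.2 (Quotient.out c0).blk
      have hbf : act (Quotient.out c0).ρ f = 1 := by
        have h3 := act_mul (Quotient.out c0).ρ (b := f) ht2.1.suppIn
        rw [ht2.2, hb, one_mul] at h3
        exact h3.symm
      obtain ⟨c, hc⟩ := SumOmAux.exists_cls hi hbf
      have hec : e c = b := by
        refine blk_unique (hirr c) (he c).1 ht2.1 (hea c) ?_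
        exact act_iso hc hb
      refine ⟨⟨(x, y), c⟩, ?_, ?_⟩
      · rw [Finset.mem_sigma, Finset.mem_filter, Finset.mem_filter]
        refine ⟨⟨mem_prs.2 ht1, ?_⟩, Finset.mem_univ _, ?_⟩
        · exact (h2 b ht2.1 ht2.2 x ht1.1 y ht1.2.1 ht1.2.2 ht3 ht4).1
        · show cj x (e c) = e c ∧ cj y (e c) = e c
          rw [hec]
          exact ⟨ht3, ht4⟩
      · show (x, y, e c) = (x, y, b)
        rw [hec]
  rw [hcard] at hmain
  exact (wit_inj p hmain).symm

end Pool.Agent.Lib.P0c8ca5.Kq
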