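import Mathlib
import Pool.Agent.Lib.P0c8ca5Z.GrpC

/-!
# Cb: commuting automorphisms without fixed points generate a cyclic group

`D` is a finite abelian group, `S` normalizes `D`, and an element of `S` that centralizes a
nontrivial element of `D` centralizes `D`. If `x`, `y` in `S` commute modulo `C(D)`, then for some
`z` in `S` both are in `z ^ n C(D)`.

Proof: let `X` be generated by `x`, `y` and `V` minimal among the nontrivial subgroups of `D`
normalized by `X`. The image of `X` in `Aut V` is abelian and acts irreducibly, so it is cyclic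
(`Zz.cyclic_of_irred`), and an element of `X` acting trivially on `V` is in `C(D)`.
-/

set_option autoImplicit false

namespace Pool.Agent.Lib.P0c8ca5.Kq

variable {A : Type*} [Group A]

namespace CbAux

theorem conj_cent {D : Subgroup A} {g c : A} (hg : g ∈ Subgroup.normalizer (D : Set A))
    (hc : c ∈ Subgroup.centralizer (D : Set A)) :
    g * c * g⁻¹ ∈ Subgroup.centralizer (D : Set A) := by
  rw [Subgroup.mem_centralizer_iff] at hc ⊢
  intro u hu
  have h1 : g⁻¹ * u * g ∈ D := by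
    have := (Subgroup.mem_normalizer_iff.1 (Subgroup.inv_mem _ hg) u).1 hu
    rwa [inv_inv] at this
  have h2 := hc _ h1
  calc u * (g * c * g⁻¹) = g * (g⁻¹ * u * g * c) * g⁻¹ := by group
    _ = g * (c * (g⁻¹ * u * g)) * g⁻¹ := by rw [h2]
    _ = g * c * g⁻¹ * u := by group

/-- commuting modulo the centralizer passes to the generated group -/
theorem comm_closure {D : Subgroup A} {x y : A} (hx : x ∈ Subgroup.normalizer (D : Set A))
    (hy : y ∈ Subgroup.normalizer (D : Set A))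
    (hxy : y * x * y⁻¹ * x⁻¹ ∈ Subgroup.centralizer (D : Set A)) :
    ∀ a ∈ Subgroup.closure ({x, y} : Set A), ∀ b ∈ Subgroup.closure ({x, y} : Set A),
      b * a * b⁻¹ * a⁻¹ ∈ Subgroup.centralizer (D : Set A) := by
  have hle : Subgroup.closure ({x, y} : Set A) ≤ Subgroup.normalizer (D : Set A) := by
    rw [Subgroup.closure_le]
    rintro z (rfl | rfl)
    · exact hx
    · exact hy
  let F := D.normalizerMonoidHom
  have hker : ∀ g : ↥(Subgroup.normalizer (D : Set A)),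
      F g = 1 ↔ (g : A) ∈ Subgroup.centralizer (D : Set A) := by
    intro g
    have h1 : g ∈ F.ker ↔ (g : A) ∈ Subgroup.centralizer (D : Set A) := by
      rw [Subgroup.normalizerMonoidHom_ker]
      exact Subgroup.mem_subgroupOf
    exact h1
  have hF : Commute (F ⟨x, hx⟩) (F ⟨y, hy⟩) := by
    have h1 : F (⟨y, hy⟩ * ⟨x, hx⟩ * ⟨y, hy⟩⁻¹ * ⟨x, hx⟩⁻¹) = 1 := (hker _).2 hxy
    rw [map_mul, map_mul, map_mul, map_inv, map_inv] at h1
    have h2 : F ⟨y, hy⟩ * F ⟨x, hx⟩ = F ⟨x, hx⟩ * F ⟨y, hy⟩ := by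
      rw [mul_inv_eq_one, mul_inv_eq_iff_eq_mul] at h1
      exact h1
    exact h2.symm
  have key : ∀ (a b : A) (ha : a ∈ Subgroup.closure ({x, y} : Set A))
      (hb : b ∈ Subgroup.closure ({x, y} : Set A)),
      Commute (F ⟨a, hle ha⟩) (F ⟨b, hle hb⟩) := by
    intro a b ha hb
    refine Subgroup.closure_induction₂
      (p := fun a b ha hb => Commute (F ⟨a, hle ha⟩) (F ⟨b, hle hb⟩)) ?_ ?_ ?_ ?_ ?_ ?_ ?_ ha hb
    · rintro a b (rfl | rfl) (rfl | rfl)
      · exact Commute.refl _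
      · exact hF
      · exact hF.symm
      · exact Commute.refl _
    · intro a _
      have h1 : F (⟨1, hle (one_mem _)⟩ : ↥(Subgroup.normalizer (D : Set A))) = 1 := map_one F
      rw [h1]
      exact Commute.one_left _
    · intro a _
      have h1 : F (⟨1, hle (one_mem _)⟩ : ↥(Subgroup.normalizer (D : Set A))) = 1 := map_one F
      rw [h1]
      exact Commute.one_right _
    · intro a b c ha hb hc h1 h2
      have h3 : F ⟨a * b, hle (mul_mem ha hb)⟩ = F ⟨a, hle ha⟩ * F ⟨b, hle hb⟩ :=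
        map_mul F ⟨a, hle ha⟩ ⟨b, hle hb⟩
      rw [h3]
      exact h1.mul_left h2
    · intro a b c ha hb hc h1 h2
      have h3 : F ⟨a * b, hle (mul_mem ha hb)⟩ = F ⟨a, hle ha⟩ * F ⟨b, hle hb⟩ :=
        map_mul F ⟨a, hle ha⟩ ⟨b, hle hb⟩
      rw [h3]
      exact h1.mul_right h2
    · intro a b ha hb h1
      have h3 : F ⟨a⁻¹, hle (inv_mem ha)⟩ = (F ⟨a, hle ha⟩)⁻¹ := map_inv F ⟨a, hle ha⟩
      rw [h3]
      exact h1.inv_left
    · intro a b ha hb h1
      have h3 : F ⟨b⁻¹, hle (inv_mem hb)⟩ = (F ⟨b, hle hb⟩)⁻¹ := map_inv F ⟨b, hle hb⟩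
      rw [h3]
      exact h1.inv_right
  intro a ha b hb
  have h1 := key a b ha hb
  have h2 : F (⟨b, hle hb⟩ * ⟨a, hle ha⟩ * ⟨b, hle hb⟩⁻¹ * ⟨a, hle ha⟩⁻¹) = 1 := by
    rw [map_mul, map_mul, map_mul, map_inv, map_inv, mul_inv_eq_one, mul_inv_eq_iff_eq_mul]
    exact h1.eq.symm
  exact (hker _).1 h2

end CbAux

open CbAux

theorem exists_gen [Finite A] {D S : Subgroup A} (hcom : ∀ x ∈ D, ∀ y ∈ D, x * y = y * x)
    (hD : D ≠ ⊥) (hS : S ≤ Subgroup.normalizer (D : Set A))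
    (hfree : ∀ g ∈ S, ∀ u ∈ D, u ≠ 1 → g * u = u * g → g ∈ Subgroup.centralizer (D : Set A))
    {x y : A} (hx : x ∈ S) (hy : y ∈ S)
    (hxy : y * x * y⁻¹ * x⁻¹ ∈ Subgroup.centralizer (D : Set A)) :
    ∃ z ∈ S, ∃ a b : ℕ, x * (z ^ a)⁻¹ ∈ Subgroup.centralizer (D : Set A) ∧
      y * (z ^ b)⁻¹ ∈ Subgroup.centralizer (D : Set A) := by
  classical
  set X := Subgroup.closure ({x, y} : Set A) with hX
  have hXS : X ≤ S := by
    rw [hX, Subgroup.closure_le]
    rintro z (rfl | rfl)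
    · exact hx
    · exact hy
  have hcc := comm_closure (hS hx) (hS hy) hxy
  -- a minimal subgroup
  let P : Subgroup A → Prop := fun V => V ≤ D ∧ V ≠ ⊥ ∧ X ≤ Subgroup.normalizer (V : Set A)
  have hPD : P D := ⟨le_rfl, hD, hXS.trans hS⟩
  obtain ⟨V, hVD, hV⟩ := exists_minimal_le_of_wellFoundedLT P D hPD
  obtain ⟨hVle, hVne, hVX⟩ := hV.prop
  have : Nontrivial V := (Subgroup.nontrivial_iff_ne_bot V).2 hVne
  let inst : CommGroup V := { (inferInstance : Group V) with
    mul_comm := fun a b => Subtype.ext (hcom _ (hVle a.2) _ (hVle b.2)) }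
  let φ : ↥X →* MulAut V := V.normalizerMonoidHom.comp (Subgroup.inclusion hVX)
  have hφ : ∀ (g : ↥X) (v : V), ((φ g v : V) : A) = g * v * (g : A)⁻¹ := fun g v => rfl
  have hcomm : ∀ a b, φ a * φ b = φ b * φ a := by
    intro a b
    apply MulEquiv.ext
    intro v
    apply Subtype.ext
    rw [MulAut.mul_apply, MulAut.mul_apply, hφ, hφ, hφ, hφ]
    have h1 := Subgroup.mem_centralizer_iff.1 (hcc _ b.2 _ a.2)
      ((b : A) * (a : A) * v * (a : A)⁻¹ * (b : A)⁻¹) (by
        have h2 := (Subgroup.mem_normalizer_iff.1 (hS (hXS a.2)) v).1 (hVle v.2)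
        have h3 := (Subgroup.mem_normalizer_iff.1 (hS (hXS b.2)) _).1 h2
        have e : (b : A) * (a : A) * v * (a : A)⁻¹ * (b : A)⁻¹ =
          b * (a * v * (a : A)⁻¹) * (b : A)⁻¹ := by group
        rw [e]
        exact h3)
    have e1 : (a : A) * (b * v * (b : A)⁻¹) * (a : A)⁻¹ =
        (a * b * (a : A)⁻¹ * (b : A)⁻¹) * (b * a * v * (a : A)⁻¹ * (b : A)⁻¹) *
          (a * b * (a : A)⁻¹ * (b : A)⁻¹)⁻¹ := by group
    rw [e1, ← h1]
    group
  have hirr : ∀ W : Subgroup V, (∀ h, ∀ w ∈ W, φ h w ∈ W) → W = ⊥ ∨ W = ⊤ := by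
    intro W hW
    by_cases hb : W = ⊥
    · exact Or.inl hb
    · right
      have h1 : P (W.map V.subtype) := by
        refine ⟨?_, ?_, ?_⟩
        · rintro _ ⟨w, _, rfl⟩
          exact hVle w.2
        · intro h
          apply hb
          rw [Subgroup.map_eq_bot_iff_of_injective _ V.subtype_injective] at h
          exact h
        · have hc : ∀ g ∈ X, ∀ v ∈ W.map V.subtype, g * v * g⁻¹ ∈ W.map V.subtype := by
            rintro g hg _ ⟨w, hw, rfl⟩
            exact ⟨φ ⟨g, hg⟩ w, hW ⟨g, hg⟩ w hw, rfl⟩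
          intro g hg
          rw [Subgroup.mem_normalizer_iff]
          intro v
          refine ⟨hc g hg v, fun h => ?_⟩
          have h2 := hc g⁻¹ (X.inv_mem hg) _ h
          have e : g⁻¹ * (g * v * g⁻¹) * g⁻¹⁻¹ = v := by group
          rwa [e] at h2
      have hle : W.map V.subtype ≤ V := by
        rintro _ ⟨w, _, rfl⟩
        exact w.2
      have h2 : V ≤ W.map V.subtype := hV.le_of_le h1 hle
      rw [eq_top_iff]
      intro v _
      obtain ⟨w, hw, hwv⟩ := h2 v.2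
      have : w = v := Subtype.ext hwv
      rwa [← this]
  have hcyc := Zz.cyclic_of_irred φ hcomm hirr
  obtain ⟨⟨_, z, rfl⟩, hz⟩ := hcyc.exists_generator
  obtain ⟨u, hu⟩ := exists_ne (1 : V)
  have hu1 : (u : A) ≠ 1 := fun h => hu (Subtype.ext h)
  have key : ∀ g : ↥X, ∃ a : ℕ, (g : A) * ((z : A) ^ a)⁻¹ ∈ Subgroup.centralizer (D : Set A) := by
    intro g
    have h1 := hz ⟨φ g, g, rfl⟩
    rw [← mem_powers_iff_mem_zpowers] at h1
    obtain ⟨a, ha⟩ := h1
    refine ⟨a, ?_⟩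
    have h2 : φ (z ^ a) = φ g := by
      rw [map_pow]
      exact congrArg Subtype.val ha
    have h3 : φ (g * (z ^ a)⁻¹) = 1 := by
      rw [map_mul, map_inv, h2, mul_inv_cancel]
    have h4 : (g : A) * ((z : A) ^ a)⁻¹ * u * ((g : A) * ((z : A) ^ a)⁻¹)⁻¹ = u := by
      have h5 := hφ (g * (z ^ a)⁻¹) u
      rw [h3] at h5
      exact h5.symm
    refine hfree _ (S.mul_mem (hXS g.2) (S.inv_mem (S.pow_mem (hXS z.2) a))) u (hVle u.2) hu1 ?_
    rw [mul_inv_eq_iff_eq_mul] at h4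
    exact h4
  obtain ⟨a, ha⟩ := key ⟨x, Subgroup.subset_closure (by simp)⟩
  obtain ⟨b, hb⟩ := key ⟨y, Subgroup.subset_closure (by simp)⟩
  exact ⟨z, hXS z.2, a, b, ha, hb⟩

end Pool.Agent.Lib.P0c8ca5.Kq
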