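import Mathlib
import Pool.Agent.Lib.P0c8ca5Ex.LB
import Pool.Agent.Lib.P0c8ca5Ex.Wa
import Pool.Agent.Lib.P0c8ca5Ex.Tn
import Pool.Agent.Lib.P0c8ca5A.DimR

/-!
# Cc: the local blocks of a block with free inertial quotient have one simple module
-/

set_option autoImplicit false

namespace Pool.Agent.Lib.P0c8ca5.Kq

open MonoidAlgebra Bq Ex

variable {p : ℕ} {k : Type*} [Field k] {A : Type*} [Group A]

namespace CcAux

theorem rs_cj (g : A) {U : Subgroup A} {e a : MonoidAlgebra k A} (ha : a ∈ Rs p U e) :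
    cj g a ∈ Rs p (cg g U) (cj g e) := by
  obtain ⟨h1, h2, h3, h4⟩ := mem_Rs.1 ha
  refine mem_Rs.2 ⟨?_, ?_, ?_, ?_⟩
  · intro w hw
    rw [coeff_cj] at hw
    exact mem_cg.2 (h1 _ hw)
  · exact invBy_cg h2 g
  · intro z hz
    rw [coeff_cj, coeff_cj]
    have h5 := h3 _ (mem_cg.1 hz)
    have h6 : pr p (g⁻¹ * z * g) = g⁻¹ * pr p z * g := by
      have h7 := pr_conj (p := p) g⁻¹ z
      rwa [inv_inv] at h7
    rwa [h6] at h5
  · rw [← cj_mul, h4]

end CcAux

open CcAux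

theorem card_irX_cj [Fact p.Prime] [CharP k p] [IsAlgClosed k] [Fintype A] (g : A)
    {U : Subgroup A} {e : MonoidAlgebra k A} (he : e ∈ fixAlg k U U) (hee : e * e = e) :
    Nat.card (IrX (cg g U) (cj g e)) = Nat.card (IrX U e) := by
  obtain ⟨hs, hi⟩ := mem_fixAlg.1 he
  have he' : cj g e ∈ fixAlg k (cg g U) (cg g U) := by
    refine mem_fixAlg.2 ⟨fun w hw => ?_, invBy_cg hi g⟩
    rw [coeff_cj] at hw
    exact mem_cg.2 (hs _ hw)
  rw [← finrank_Rs (p := p) he' (by rw [← cj_mul, hee]), ← finrank_Rs (p := p) he hee]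
  refine LinearEquiv.finrank_eq (LinearEquiv.mk ⟨⟨fun a => ⟨cj g⁻¹ a.1, ?_⟩,
    fun a b => Subtype.ext (cj_add g⁻¹ a.1 b.1)⟩, fun c a => Subtype.ext (cj_smul g⁻¹ c a.1)⟩
    (fun a => ⟨cj g a.1, rs_cj g a.2⟩) ?_ ?_)
  · have h1 := rs_cj g⁻¹ a.2
    rwa [cg_cg, cj_cj, inv_mul_cancel, cg_one, cj_one_left] at h1
  · intro a
    refine Subtype.ext ?_
    show cj g (cj g⁻¹ a.1) = a.1
    rw [cj_cj, mul_inv_cancel, cj_one_left]
  · intro a
    refine Subtype.ext ?_
    show cj g⁻¹ (cj g a.1) = a.1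
    rw [cj_cj, inv_mul_cancel, cj_one_left]

theorem card_irX_pos [Fact p.Prime] [CharP k p] [IsAlgClosed k] [Fintype A]
    {U : Subgroup A} {e : MonoidAlgebra k A} (he : IsBlock U e) : 0 < Nat.card (IrX U e) := by
  obtain ⟨n, ρ, h1, h2⟩ := Rk.CardDZAux.exists_rep he
  have : Nonempty (IrX U e) := ⟨⟦mkIrr ρ h1 h2⟧⟩
  exact Nat.card_pos

section
variable [Fact p.Prime] [CharP k p] [IsAlgClosed k] [Fintype A]
variable {b f i : MonoidAlgebra k A} {D : Subgroup A}

/-- the number of simple modules of a block of the whole group does not depend on the setoid -/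
theorem card_top {e : MonoidAlgebra k A} (he : IsBlock (⊤ : Subgroup A) e) :
    Nat.card (Quotient (irrInvSetoid (⊤ : Subgroup A) ⊤ e))
      = Nat.card (IrX (⊤ : Subgroup A) e) :=
  Wr.lN_bot he.mem he.idem

theorem nil_one (hp : p ≠ 2) (h : Src p b D f i) (hF : Free D f) {M : Subgroup A}
    (hM : IsPGroup p M) (hM1 : M ≠ ⊥) {c : MonoidAlgebra k A} (hc : IsBlock (CD M) c)
    (hcb : resS (CD M : Set A) b * c = c) : Nat.card (IrX (CD M) c) = 1 := by
  have hE := ndvd_eN h.root hF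
  obtain ⟨g, R, hR, hQR, d, hd, hcd⟩ := lb_all h hE hM hc hcb
  have hR1 : R ≠ ⊥ := by
    rintro rfl
    apply hM1
    rw [hQR]
    unfold cg
    exact Subgroup.map_bot _
  have h1 := (Lb.src h hR hd).root
  have h2 := Lb.st h hF hR hR1
  have h3 : Free (D.subgroupOf (CD R)) (dn (CD R) f) := fun g hg _ _ _ _ => h2 hg
  have : Fintype ↥(CD R) := Fintype.ofFinite _
  have h4 := l_le hp h1 h3
  have h5 : eN (D.subgroupOf (CD R)) (dn (CD R) f) = 1 := by
    unfold eN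
    exact Subgroup.relIndex_eq_one.2 h2
  rw [h5, card_top h1.blk, dn_card_irr] at h4
  have h6 : Nat.card (IrX (CD R) d) = 1 := by
    have h7 := card_irX_pos (p := p) hd.blk
    exact le_antisymm h4 h7
  rw [hcd, hQR, WaAux.CD_cg, card_irX_cj (p := p) g hd.blk.mem hd.blk.idem]
  exact h6

end

end Pool.Agent.Lib.P0c8ca5.Kq
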