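import Mathlib
import Pool.Agent.Lib.P0c8ca5Ex.Fu
import Pool.Agent.Lib.P0c8ca5Ex.Wa
import Pool.Agent.Lib.P0c8ca5Ex.Tn

/-!
# Cd: the Brauer pairs below the conjugates of `(D, f)`

`Bel D f M c g`: the pair `(M, c)` is contained in the conjugate by `g` of `(D, f)`.
-/

set_option autoImplicit false
set_option linter.unusedSectionVars false

namespace Pool.Agent.Lib.P0c8ca5.Kq

open MonoidAlgebra Ex

variable {p : ℕ} {k : Type*} [Field k] {A : Type*} [Group A]

/-- `(M, c)` is contained in the conjugate by `g` of `(D, f)` -/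
def Bel (D : Subgroup A) (f : MonoidAlgebra k A) (M : Subgroup A) (c : MonoidAlgebra k A)
    (g : A) : Prop :=
  M ≤ cg g D ∧ resS (CD (cg g D) : Set A) c * cj g f = cj g f

section
variable [Fact p.Prime] [CharP k p] [IsAlgClosed k] [Fintype A]
variable {b f i : MonoidAlgebra k A} {D : Subgroup A}

theorem uniq (h : Src p b D f i) {R : Subgroup A} (hR : R ≤ D) {d d' : MonoidAlgebra k A}
    (hd : IsBlock (CD R) d) (hd' : IsBlock (CD R) d') (h1 : resS (CD D : Set A) d * f = f)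
    (h2 : resS (CD D : Set A) d' * f = f) : d = d' := by
  have hDR : D ≤ CD R := SrcAux.D_le_CQ hR h.root.com
  rcases hd.eq_or_mul_eq_zero hd' with h3 | h3
  · exact h3
  · exfalso
    apply h.root.fblk.ne_zero
    have h4 := resS_CD_mul (le_refl D) h.root.dfg.isPGroup (hd.invBy.mono hDR)
      (hd'.invBy.mono hDR)
    rw [h3, resS_zero] at h4
    calc f = resS (CD D : Set A) d * (resS (CD D : Set A) d' * f) := by rw [h2, h1]
      _ = 0 := by rw [← mul_assoc, ← h4, zero_mul]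

theorem inv_le {M : Subgroup A} {g : A} (hM : M ≤ cg g D) : cg g⁻¹ M ≤ D := by
  rw [cg_le_iff, inv_inv]
  exact hM

theorem blk_inv {M : Subgroup A} {c : MonoidAlgebra k A} (hc : IsBlock (CD M) c) (g : A) :
    IsBlock (CD (cg g M)) (cj g c) := by
  rw [← FuAux.cg_CD]
  exact isBlock_cg hc g

theorem Bel.inv_mul {M : Subgroup A} {c : MonoidAlgebra k A} {g : A} (hg : Bel D f M c g) :
    resS (CD D : Set A) (cj g⁻¹ c) * f = f := by
  have h1 := congrArg (cj g⁻¹) hg.2
  rw [cj_mul, cj_inv_cj, ← FuAux.resS_cg, FuAux.cg_CD, cg_cg, inv_mul_cancel, cg_one] at h1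
  exact h1

theorem Bel.lb (h : Src p b D f i) {M : Subgroup A} {c : MonoidAlgebra k A} {g : A}
    (hc : IsBlock (CD M) c) (hg : Bel D f M c g) : Lb (cg g⁻¹ M) i (cj g⁻¹ c) := by
  obtain ⟨d, hd⟩ := exists_lb h (inv_le hg.1)
  have h1 := uniq h (inv_le hg.1) (blk_inv hc g⁻¹) hd.blk hg.inv_mul
    (Lb.f_mul h (inv_le hg.1) hd)
  rw [h1]
  exact hd

theorem bel_of_lb (h : Src p b D f i) {M : Subgroup A} {c : MonoidAlgebra k A} {g : A}
    (hM : M ≤ cg g D) (hl : Lb (cg g⁻¹ M) i (cj g⁻¹ c)) : Bel D f M c g := by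
  refine ⟨hM, ?_⟩
  have h1 := congrArg (cj g) (Lb.f_mul h (inv_le hM) hl)
  rw [cj_mul, ← FuAux.resS_cg, FuAux.cg_CD, cj_cj, mul_inv_cancel, cj_one_left] at h1
  exact h1

/-- every block of a local subgroup below `b` belongs to a pair below a conjugate -/
theorem exists_bel (h : Src p b D f i) (hE : ¬ p ∣ eN D f) {M : Subgroup A}
    (hM : IsPGroup p M) {c : MonoidAlgebra k A} (hc : IsBlock (CD M) c)
    (hcb : resS (CD M : Set A) b * c = c) : ∃ g : A, Bel D f M c g := by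
  obtain ⟨g, R, hR, hQR, d, hd, hcd⟩ := lb_all h hE hM hc hcb
  refine ⟨g, bel_of_lb h ?_ ?_⟩
  · rw [hQR]
    exact cg_le_cg hR
  · rw [hQR, hcd, cg_cg, inv_mul_cancel, cg_one, cj_inv_cj]
    exact hd

/-- the local block below a conjugate -/
theorem exists_blk' (h : Src p b D f i) {M : Subgroup A} {g : A} (hM : M ≤ cg g D) :
    ∃ c, (IsBlock (CD M) c ∧ resS (CD M : Set A) b * c = c) ∧ Bel D f M c g := by
  obtain ⟨d, hd⟩ := exists_lb h (inv_le hM)
  have e1 : cg g (cg g⁻¹ M) = M := by rw [cg_cg, mul_inv_cancel, cg_one]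
  have hc : IsBlock (CD M) (cj g d) := by
    have h1 := blk_inv hd.blk g
    rwa [e1] at h1
  refine ⟨cj g d, ⟨hc, ?_⟩, bel_of_lb h hM (by rw [cj_inv_cj]; exact hd)⟩
  have h2 := congrArg (cj g) (Lb.b_mul h (inv_le hM) hd)
  rw [cj_mul, ← FuAux.resS_cg, FuAux.cg_CD, e1,
    invBy_iff_cj.1 h.root.blk.invBy g (Subgroup.mem_top _)] at h2
  exact h2

theorem Bel.unique (h : Src p b D f i) {M : Subgroup A} {c c' : MonoidAlgebra k A} {g : A}
    (hc : IsBlock (CD M) c) (hc' : IsBlock (CD M) c') (hg : Bel D f M c g)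
    (hg' : Bel D f M c' g) : c = c' := by
  have h1 := uniq h (inv_le hg.1) (blk_inv hc g⁻¹) (blk_inv hc' g⁻¹) hg.inv_mul hg'.inv_mul
  have h2 := congrArg (cj g) h1
  rwa [cj_cj_inv, cj_cj_inv] at h2

/-- a conjugate of a pair -/
theorem Bel.cj {M : Subgroup A} {c : MonoidAlgebra k A} {g : A} (hg : Bel D f M c g) (x : A) :
    Bel D f (cg x M) (cj x c) (x * g) := by
  refine ⟨?_, ?_⟩
  · rw [← cg_cg]
    exact cg_le_cg hg.1
  · have h1 := congrArg (P0c8ca5.cj x) hg.2
    rw [cj_mul, ← FuAux.resS_cg, FuAux.cg_CD, cg_cg, cj_cj] at h1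
    exact h1

theorem Bel.right {M : Subgroup A} {c : MonoidAlgebra k A} {g s : A} (hg : Bel D f M c g)
    (hs : s ∈ St D f) : Bel D f M c (g * s) := by
  have h1 : cg s D = D := cg_eq_self_iff.2 hs.1
  unfold Bel
  rw [← cg_cg, h1, ← cj_cj, hs.2]
  exact hg

theorem Bel.left {M : Subgroup A} {c : MonoidAlgebra k A} {g y : A} (hc : IsBlock (CD M) c)
    (hg : Bel D f M c g) (hy : y ∈ CD M) : Bel D f M c (y * g) := by
  have h1 := hg.cj y
  rw [cg_eq_self_iff.2 (Subgroup.centralizer_le_normalizer _ hy),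
    invBy_iff_cj.1 hc.invBy y hy] at h1
  exact h1

/-- the conjugates above a fixed pair -/
theorem bel_iff (h : Src p b D f i) {M : Subgroup A} {c : MonoidAlgebra k A} {g g' : A}
    (hc : IsBlock (CD M) c) (hg : Bel D f M c g) :
    Bel D f M c g' ↔ ∃ y ∈ CD M, ∃ s ∈ St D f, g' = y * g * s := by
  constructor
  · intro hg'
    obtain ⟨s, hs, y, hy, hx⟩ := fus h (inv_le hg'.1) (inv_le hg.1) (x := g'⁻¹ * g) (by
      rw [cg_cg, mul_assoc, mul_inv_cancel, mul_one]) (hg'.lb h hc) (hg.lb h hc) (by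
      rw [cj_cj, mul_assoc, mul_inv_cancel, mul_one])
    refine ⟨g' * y⁻¹ * g'⁻¹, ?_, s⁻¹, (St D f).inv_mem hs, ?_⟩
    · have h1 : g' * y⁻¹ * g'⁻¹ ∈ cg g' (CD (cg g'⁻¹ M)) := by
        rw [mem_cg]
        have e : g'⁻¹ * (g' * y⁻¹ * g'⁻¹) * g' = y⁻¹ := by group
        rw [e]
        exact (CD (cg g'⁻¹ M)).inv_mem hy
      rw [FuAux.cg_CD, cg_cg, mul_inv_cancel, cg_one] at h1
      exact h1
    · have h2 : g = g' * (y * s) := by rw [← hx]; group
      rw [h2]
      group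
  · rintro ⟨y, hy, s, hs, rfl⟩
    exact (hg.left hc hy).right hs

theorem bel_self_iff (h : Src p b D f i) {M : Subgroup A} {c : MonoidAlgebra k A} {g x : A}
    (hc : IsBlock (CD M) c) (hg : Bel D f M c g) :
    Bel D f M c (x * g) ↔ ∃ y ∈ CD M, ∃ s ∈ cg g (St D f), x = y * s := by
  rw [bel_iff h hc hg]
  constructor
  · rintro ⟨y, hy, s, hs, hx⟩
    refine ⟨y, hy, g * s * g⁻¹, mem_cg.2 ?_, ?_⟩
    · have e : g⁻¹ * (g * s * g⁻¹) * g = s := by group
      rw [e]
      exact hs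
    · have e : x = x * g * g⁻¹ := by group
      rw [e, hx]
      group
  · rintro ⟨y, hy, s, hs, rfl⟩
    exact ⟨y, hy, g⁻¹ * s * g, mem_cg.1 hs, by group⟩

/-- the stabilizer of the pair in the normalizer -/
theorem fix_iff' (h : Src p b D f i) {M : Subgroup A} {c : MonoidAlgebra k A} {g x : A}
    (hc : IsBlock (CD M) c) (hg : Bel D f M c g) (hx : x ∈ Subgroup.normalizer (M : Set A)) :
    cj x c = c ↔ ∃ y ∈ CD M, ∃ s ∈ cg g (St D f), x = y * s := by
  constructor
  · intro hxc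
    have h1 := hg.cj x
    rw [cg_eq_self_iff.2 hx, hxc] at h1
    exact (bel_self_iff h hc hg).1 h1
  · rintro ⟨y, hy, s, hs, rfl⟩
    have hyn : y ∈ Subgroup.normalizer (M : Set A) := Subgroup.centralizer_le_normalizer _ hy
    have hsn : s ∈ Subgroup.normalizer (M : Set A) := by
      have h1 := Subgroup.mul_mem _ (Subgroup.inv_mem _ hyn) hx
      rwa [inv_mul_cancel_left] at h1
    have h2 := hg.cj s
    rw [cg_eq_self_iff.2 hsn] at h2
    have h3 : Bel D f M c (s * g) := by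
      have h4 := hg.right (mem_cg.1 hs)
      have e : g * (g⁻¹ * s * g) = s * g := by group
      rwa [e] at h4
    have hb : IsBlock (CD M) (cj s c) := by
      have h4 := blk_inv hc s
      rwa [cg_eq_self_iff.2 hsn] at h4
    have h5 := Bel.unique h hb hc h2 h3
    rw [← cj_cj, h5, invBy_iff_cj.1 hc.invBy y hy]

omit [Fact p.Prime] [CharP k p] [IsAlgClosed k] [Fintype A] in
/-- the intersection of the centralizer and the inertial group -/
theorem inf_St (hF : Free D f) {M : Subgroup A} (hM1 : M ≠ ⊥) {g : A} (hM : M ≤ cg g D)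
    (hDS : CD D ≤ St D f) : CD M ⊓ cg g (St D f) = CD (cg g D) := by
  apply le_antisymm
  · rintro z ⟨hz1, hz2⟩
    have hs := mem_cg.1 hz2
    obtain ⟨u, hu, hu1⟩ : ∃ u ∈ M, u ≠ 1 := by
      by_contra hc
      push Not at hc
      exact hM1 ((Subgroup.eq_bot_iff_forall M).2 hc)
    have hv := mem_cg.1 (hM hu)
    have hv1 : g⁻¹ * u * g ≠ 1 := by
      intro h
      apply hu1
      have e : u = g * (g⁻¹ * u * g) * g⁻¹ := by group
      rw [e, h]
      group
    have hcm := Subgroup.mem_centralizer_iff.1 hz1 u hu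
    have h1 := hF _ hs _ hv hv1 (by
      calc g⁻¹ * z * g * (g⁻¹ * u * g) = g⁻¹ * (z * u) * g := by group
        _ = g⁻¹ * (u * z) * g := by rw [hcm]
        _ = g⁻¹ * u * g * (g⁻¹ * z * g) := by group)
    rw [← FuAux.cg_CD]
    exact mem_cg.2 h1
  · intro z hz
    refine ⟨Subgroup.centralizer_le hM hz, ?_⟩
    rw [← FuAux.cg_CD] at hz
    exact cg_le_cg hDS hz

end

end Pool.Agent.Lib.P0c8ca5.Kq
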