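import Mathlib
import Pool.Agent.Lib.P0c8ca5Z.Orb

/-!
# Ce: counting commuting pairs modulo a normal subgroup
-/

set_option autoImplicit false

namespace Pool.Agent.Lib.P0c8ca5.Kq

open Zz

variable {A : Type*} [Group A]

open Classical in
/-- a sum over a product of two subgroups -/
theorem sum_mul [Fintype A] {M : Type*} [AddCommMonoid M] (N H : Subgroup A) (P : A → Prop)
    (hP : ∀ x, P x ↔ ∃ n ∈ N, ∃ h ∈ H, x = n * h) (F : A → M) :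
    ∑ n : N, ∑ h : H, F ((n : A) * h) =
      Nat.card ↥(N ⊓ H) • ∑ x ∈ Finset.univ.filter P, F x := by
  rw [← Finset.sum_product' (f := fun (n : N) (h : H) => F ((n : A) * h)),
    Finset.univ_product_univ]
  have hmaps : ∀ z ∈ (Finset.univ : Finset (N × H)), (z.1 : A) * z.2 ∈ Finset.univ.filter P := by
    intro z _
    rw [Finset.mem_filter]
    exact ⟨Finset.mem_univ _, (hP _).2 ⟨z.1, z.1.2, z.2, z.2.2, rfl⟩⟩
  rw [← Finset.sum_fiberwise_of_maps_to hmaps, Finset.smul_sum]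
  refine Finset.sum_congr rfl fun x hx => ?_
  obtain ⟨n₀, hn₀, h₀, hh₀, hx0⟩ := (hP x).1 (Finset.mem_filter.1 hx).2
  have h1 : ∀ z ∈ (Finset.univ : Finset (N × H)).filter (fun z => (z.1 : A) * z.2 = x),
      F ((z.1 : A) * z.2) = F x := by
    intro z hz
    rw [(Finset.mem_filter.1 hz).2]
  rw [Finset.sum_congr rfl h1, Finset.sum_const]
  congr 1
  rw [Nat.card_eq_fintype_card, ← Finset.card_univ]
  symm
  refine Finset.card_bij (fun w _ => ((⟨n₀ * w, N.mul_mem hn₀ (Subgroup.mem_inf.1 w.2).1⟩,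
    ⟨(w : A)⁻¹ * h₀, H.mul_mem (H.inv_mem (Subgroup.mem_inf.1 w.2).2) hh₀⟩) : N × H)) ?_ ?_ ?_
  · intro w _
    rw [Finset.mem_filter]
    refine ⟨Finset.mem_univ _, ?_⟩
    show n₀ * w * ((w : A)⁻¹ * h₀) = x
    rw [hx0]
    group
  · intro w _ w' _ hw
    have h2 := congrArg (fun z : N × H => (z.1 : A)) hw
    simp only at h2
    exact Subtype.ext (mul_left_cancel h2)
  · rintro ⟨n, h⟩ hz
    have h2 : (n : A) * h = x := (Finset.mem_filter.1 hz).2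
    have h3 : n₀⁻¹ * n = h₀ * (h : A)⁻¹ := by
      rw [hx0] at h2
      calc n₀⁻¹ * n = n₀⁻¹ * (n * h) * (h : A)⁻¹ := by group
        _ = n₀⁻¹ * (n₀ * h₀) * (h : A)⁻¹ := by rw [h2]
        _ = h₀ * (h : A)⁻¹ := by group
    have h4 : n₀⁻¹ * (n : A) ∈ N ⊓ H := by
      refine ⟨N.mul_mem (N.inv_mem hn₀) n.2, ?_⟩
      rw [h3]
      exact H.mul_mem hh₀ (H.inv_mem h.2)
    refine ⟨⟨_, h4⟩, Finset.mem_univ _, ?_⟩
    apply Prod.ext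
    · apply Subtype.ext
      show n₀ * (n₀⁻¹ * n) = n
      group
    · apply Subtype.ext
      show (n₀⁻¹ * (n : A))⁻¹ * h₀ = h
      rw [h3]
      group

/-- the commutator modulo `N` -/
theorem comm_iff {N H : Subgroup A} (hn : H ≤ Subgroup.normalizer (N : Set A)) {n₁ n₂ h₁ h₂ : A}
    (hn₁ : n₁ ∈ N) (hn₂ : n₂ ∈ N) (hh₁ : h₁ ∈ H) (hh₂ : h₂ ∈ H) :
    n₂ * h₂ * (n₁ * h₁) * (n₂ * h₂)⁻¹ * (n₁ * h₁)⁻¹ ∈ N ↔ h₂ * h₁ * h₂⁻¹ * h₁⁻¹ ∈ N := by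
  have h3 : h₂ * h₁ * h₂⁻¹ ∈ H := H.mul_mem (H.mul_mem hh₂ hh₁) (H.inv_mem hh₂)
  have h4 : h₂ * n₁ * h₂⁻¹ ∈ N := (Subgroup.mem_normalizer_iff.1 (hn hh₂) _).1 hn₁
  have h5 : (h₂ * h₁ * h₂⁻¹) * n₂⁻¹ * (h₂ * h₁ * h₂⁻¹)⁻¹ ∈ N :=
    (Subgroup.mem_normalizer_iff.1 (hn h3) _).1 (N.inv_mem hn₂)
  have e : n₂ * h₂ * (n₁ * h₁) * (n₂ * h₂)⁻¹ * (n₁ * h₁)⁻¹ =
      (n₂ * (h₂ * n₁ * h₂⁻¹) * ((h₂ * h₁ * h₂⁻¹) * n₂⁻¹ * (h₂ * h₁ * h₂⁻¹)⁻¹)) *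
        (h₂ * h₁ * h₂⁻¹ * h₁⁻¹) * n₁⁻¹ := by group
  rw [e, N.mul_mem_cancel_right (N.inv_mem hn₁),
    N.mul_mem_cancel_left (N.mul_mem (N.mul_mem hn₂ h4) h5)]

open Classical in
/-- the number of the pairs commuting modulo `N` in `N H` and in `H` -/
theorem card_pairs [Fintype A] {N H : Subgroup A} (hn : H ≤ Subgroup.normalizer (N : Set A))
    (P : A → Prop) (hP : ∀ x, P x ↔ ∃ n ∈ N, ∃ h ∈ H, x = n * h) :
    Nat.card ↥(N ⊓ H) ^ 2 * ((Finset.univ : Finset (A × A)).filter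
      (fun z => P z.1 ∧ P z.2 ∧ z.2 * z.1 * z.2⁻¹ * z.1⁻¹ ∈ N)).card =
      Nat.card N ^ 2 * (prs (N ⊓ H) H).card := by
  have h1 : ((Finset.univ : Finset (A × A)).filter
      (fun z => P z.1 ∧ P z.2 ∧ z.2 * z.1 * z.2⁻¹ * z.1⁻¹ ∈ N)).card =
      ∑ x ∈ Finset.univ.filter P, ∑ y ∈ Finset.univ.filter P,
        if y * x * y⁻¹ * x⁻¹ ∈ N then 1 else 0 := by
    rw [← Finset.sum_product' (f := fun x y => if y * x * y⁻¹ * x⁻¹ ∈ N then 1 else 0),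
      ← Finset.card_filter]
    congr 1
    ext z
    simp only [Finset.mem_filter, Finset.mem_univ, true_and, Finset.mem_product]
    tauto
  have h2 : (prs (N ⊓ H) H).card = ∑ x : H, ∑ y : H,
      if (y : A) * x * (y : A)⁻¹ * (x : A)⁻¹ ∈ N then 1 else 0 := by
    rw [← Finset.sum_product' (f := fun (x y : H) =>
      if (y : A) * x * (y : A)⁻¹ * (x : A)⁻¹ ∈ N then 1 else 0), ← Finset.card_filter]
    symm
    refine Finset.card_bij (fun z _ => ((z.1 : A), (z.2 : A))) ?_ ?_ ?_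
    · intro z hz
      rw [mem_prs]
      exact ⟨z.1.2, z.2.2, (Finset.mem_filter.1 hz).2, H.mul_mem (H.mul_mem (H.mul_mem z.2.2
        z.1.2) (H.inv_mem z.2.2)) (H.inv_mem z.1.2)⟩
    · rintro ⟨x, y⟩ _ ⟨x', y'⟩ _ h
      simp only [Prod.mk.injEq] at h
      exact Prod.ext (Subtype.ext h.1) (Subtype.ext h.2)
    · rintro ⟨x, y⟩ hz
      obtain ⟨hx, hy, hxy⟩ := mem_prs.1 hz
      refine ⟨(⟨x, hx⟩, ⟨y, hy⟩), ?_, rfl⟩
      rw [Finset.mem_filter]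
      exact ⟨Finset.mem_product.2 ⟨Finset.mem_univ _, Finset.mem_univ _⟩, hxy.1⟩
  have h3 : ∀ x : A, ∑ n : N, ∑ h : H, (if ((n : A) * h) * x * ((n : A) * h)⁻¹ * x⁻¹ ∈ N
      then 1 else 0) = Nat.card ↥(N ⊓ H) • ∑ y ∈ Finset.univ.filter P,
        (if y * x * y⁻¹ * x⁻¹ ∈ N then 1 else 0) := fun x =>
    sum_mul N H P hP (fun y => if y * x * y⁻¹ * x⁻¹ ∈ N then 1 else 0)
  have h4 := sum_mul N H P hP (fun x => ∑ n : N, ∑ h : H,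
    (if ((n : A) * h) * x * ((n : A) * h)⁻¹ * x⁻¹ ∈ N then 1 else 0))
  have h5 : ∑ x ∈ Finset.univ.filter P, (∑ n : N, ∑ h : H,
      (if ((n : A) * h) * x * ((n : A) * h)⁻¹ * x⁻¹ ∈ N then 1 else 0)) =
      Nat.card ↥(N ⊓ H) * ∑ x ∈ Finset.univ.filter P, ∑ y ∈ Finset.univ.filter P,
        (if y * x * y⁻¹ * x⁻¹ ∈ N then 1 else 0) := by
    rw [Finset.mul_sum]
    refine Finset.sum_congr rfl fun x _ => ?_
    rw [h3 x, smul_eq_mul]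
  rw [h5, smul_eq_mul, ← mul_assoc, ← sq, ← h1] at h4
  rw [← h4, h2]
  have h6 : ∀ (n₁ : N) (h₁ : H), ∑ n₂ : N, ∑ h₂ : H,
      (if ((n₂ : A) * h₂) * ((n₁ : A) * h₁) * ((n₂ : A) * h₂)⁻¹ * ((n₁ : A) * h₁)⁻¹ ∈ N
        then 1 else 0) = Nat.card N * ∑ h₂ : H,
      (if (h₂ : A) * h₁ * (h₂ : A)⁻¹ * (h₁ : A)⁻¹ ∈ N then 1 else 0) := by
    intro n₁ h₁
    have h7 : ∀ n₂ : N, ∑ h₂ : H,
        (if ((n₂ : A) * h₂) * ((n₁ : A) * h₁) * ((n₂ : A) * h₂)⁻¹ * ((n₁ : A) * h₁)⁻¹ ∈ N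
          then 1 else 0) = ∑ h₂ : H,
        (if (h₂ : A) * h₁ * (h₂ : A)⁻¹ * (h₁ : A)⁻¹ ∈ N then 1 else 0) := by
      intro n₂
      refine Finset.sum_congr rfl fun h₂ _ => ?_
      simp only [comm_iff hn n₁.2 n₂.2 h₁.2 h₂.2]
    rw [Finset.sum_congr rfl fun n₂ _ => h7 n₂, Finset.sum_const, Finset.card_univ,
      Nat.card_eq_fintype_card, smul_eq_mul]
  rw [Finset.sum_congr rfl fun n₁ _ => Finset.sum_congr rfl fun h₁ _ => h6 n₁ h₁]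
  rw [Finset.sum_const, Finset.card_univ, smul_eq_mul, ← Finset.mul_sum,
    Nat.card_eq_fintype_card, sq, mul_assoc]

end Pool.Agent.Lib.P0c8ca5.Kq
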