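import Mathlib
import Pool.Agent.Lib.P0c8ca5Kq.Ca
import Pool.Agent.Lib.P0c8ca5Kq.Cb
import Pool.Agent.Lib.P0c8ca5Kq.Cc
import Pool.Agent.Lib.P0c8ca5Kq.Cd
import Pool.Agent.Lib.P0c8ca5Kq.Ce

/-!
# Cf: the number of simple modules of a local subgroup

`Y` is a subgroup between `C(M)` and `N(M)`, `M` a nontrivial p-subgroup. The number of the simple
modules of `Y` in the Brauer correspondent of `b` is a sum over the conjugates of `(D, f)`.
-/

set_option autoImplicit false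
set_option linter.unusedSectionVars false

namespace Pool.Agent.Lib.P0c8ca5.Kq

open MonoidAlgebra Bq Ex Zz

variable {p : ℕ} {k : Type*} [Field k] {A : Type*} [Group A]

section
variable [Fact p.Prime] [CharP k p] [IsAlgClosed k] [Fintype A]
variable {b f i : MonoidAlgebra k A} {D : Subgroup A}

namespace CfAux

theorem res_mem (hb : b ∈ fixAlg k (⊤ : Subgroup A) ⊤) {M Y : Subgroup A}
    (hMY : CD M ≤ Y) (hY : Y ≤ Subgroup.normalizer (M : Set A)) :
    resS (CD M : Set A) b ∈ fixAlg k Y Y := by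
  refine mem_fixAlg.2 ⟨fun x hx => hMY (resS_suppIn x hx), ?_⟩
  rw [invBy_iff_cj]
  intro g hg
  rw [← resS_cj (mem_normalizer_centralizer (hY hg)),
    invBy_iff_cj.1 (mem_fixAlg.1 hb).2 g (Subgroup.mem_top _)]

theorem res_idem (hb : b ∈ fixAlg k (⊤ : Subgroup A) ⊤) (hbb : b * b = b) {M : Subgroup A}
    (hM : IsPGroup p M) :
    resS (CD M : Set A) b * resS (CD M : Set A) b = resS (CD M : Set A) b := by
  rw [← resS_mul hM ((mem_fixAlg.1 hb).2.mono le_top) ((mem_fixAlg.1 hb).2.mono le_top), hbb]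

/-- the two forms of the condition `c` below `b` -/
theorem below_iff (hb : b ∈ fixAlg k (⊤ : Subgroup A) ⊤) {M : Subgroup A}
    {c : MonoidAlgebra k A} (hc : IsBlock (CD M) c) :
    c * resS (CD M : Set A) b = c ↔ resS (CD M : Set A) b * c = c := by
  rw [commute_of hc.suppIn ((mem_fixAlg.1 (res_mem hb (le_refl (CD M))
    (Subgroup.centralizer_le_normalizer _))).2)]

theorem pow_cong {N : Subgroup A} {n s : A} (hn : n ∈ N)
    (hs : s ∈ Subgroup.normalizer (N : Set A)) (m : ℕ) : (n * s) ^ m * (s ^ m)⁻¹ ∈ N := by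
  induction m with
  | zero => simp
  | succ m ih =>
    have h1 : s ^ m * n * (s ^ m)⁻¹ ∈ N :=
      (Subgroup.mem_normalizer_iff.1 (Subgroup.pow_mem _ hs m) n).1 hn
    have e : (n * s) ^ (m + 1) * (s ^ (m + 1))⁻¹ =
        ((n * s) ^ m * (s ^ m)⁻¹) * (s ^ m * n * (s ^ m)⁻¹) := by
      rw [pow_succ, pow_succ]
      group
    rw [e]
    exact N.mul_mem ih h1

/-- the order of the inertial quotient kills it -/
theorem pow_eN {s : A} (hs : s ∈ St D f) : s ^ eN D f ∈ CD D := by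
  have hn : ((CD D).subgroupOf (St D f)).Normal := by
    refine ⟨fun n hn g => ?_⟩
    rw [Subgroup.mem_subgroupOf] at hn ⊢
    exact CbAux.conj_cent g.2.1 hn
  have h1 := Subgroup.pow_index_mem ((CD D).subgroupOf (St D f)) (⟨s, hs⟩ : ↥(St D f))
  exact Subgroup.mem_subgroupOf.1 h1

end CfAux

open CfAux

/-- the hypotheses of `card_l` -/
theorem cyc_hyp (h : Src p b D f i) (hF : Free D f) {M Y : Subgroup A} (hM : IsPGroup p M)
    (hM1 : M ≠ ⊥) (hMY : CD M ≤ Y) (hY : Y ≤ Subgroup.normalizer (M : Set A))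
    {e : MonoidAlgebra k A} (he : IsBlock (CD M) e)
    (heb : e * resS (CD M : Set A) b = e) {x y : A} (hx : x ∈ Y) (hy : y ∈ Y)
    (hxy : y * x * y⁻¹ * x⁻¹ ∈ CD M) (hxe : cj x e = e) (hye : cj y e = e) :
    Prm p (CD M) x ∧ ∃ z ∈ Y, cj z e = e ∧
      ∃ a b : ℕ, x * (z ^ a)⁻¹ ∈ CD M ∧ y * (z ^ b)⁻¹ ∈ CD M := by
  have hb := h.root.blk.mem
  have hE := ndvd_eN h.root hF
  have hDS := CD_le_St h.root.fblk
  obtain ⟨g, hg⟩ := exists_bel h hE hM he ((below_iff hb he).1 heb)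
  obtain ⟨n₁, hn₁, s₁, hs₁, hx'⟩ := (fix_iff' h he hg (hY hx)).1 hxe
  obtain ⟨n₂, hn₂, s₂, hs₂, hy'⟩ := (fix_iff' h he hg (hY hy)).1 hye
  have hs₁Y : s₁ ∈ Y := by
    have h1 := Y.mul_mem (Y.inv_mem (hMY hn₁)) hx
    rwa [hx', inv_mul_cancel_left] at h1
  have hs₂Y : s₂ ∈ Y := by
    have h1 := Y.mul_mem (Y.inv_mem (hMY hn₂)) hy
    rwa [hy', inv_mul_cancel_left] at h1
  have hYn : Y ≤ Subgroup.normalizer (CD M : Set A) := fun w hw =>
    mem_normalizer_centralizer (hY hw)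
  set S : Subgroup A := cg g (St D f) ⊓ Y with hS
  have hSY : S ≤ Y := inf_le_right
  have hcs : s₂ * s₁ * s₂⁻¹ * s₁⁻¹ ∈ CD M := by
    rw [hx', hy'] at hxy
    exact (comm_iff (H := S) (hSY.trans hYn) hn₁ hn₂ ⟨hs₁, hs₁Y⟩ ⟨hs₂, hs₂Y⟩).1 hxy
  have hcs' : s₂ * s₁ * s₂⁻¹ * s₁⁻¹ ∈ CD (cg g D) := by
    rw [← inf_St hF hM1 hg.1 hDS]
    refine ⟨hcs, ?_⟩
    exact (cg g (St D f)).mul_mem ((cg g (St D f)).mul_mem ((cg g (St D f)).mul_mem hs₂ hs₁)
      ((cg g (St D f)).inv_mem hs₂)) ((cg g (St D f)).inv_mem hs₁)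
  have hStn : cg g (St D f) ≤ Subgroup.normalizer (cg g D : Set A) := by
    intro w hw
    rw [← cg_eq_self_iff]
    have h1 := cg_eq_self_iff.2 (mem_cg.1 hw).1
    have e : w = g * (g⁻¹ * w * g) * g⁻¹ := by group
    rw [e, ← cg_cg, ← cg_cg, cg_cg g⁻¹ g, inv_mul_cancel, cg_one, h1]
  have hgD1 : cg g D ≠ ⊥ := by
    intro h1
    apply hM1
    rw [eq_bot_iff, ← h1]
    exact hg.1
  have hcom : ∀ u ∈ cg g D, ∀ v ∈ cg g D, u * v = v * u := by
    intro u hu v hv
    have h1 := h.root.com _ (mem_cg.1 hu) _ (mem_cg.1 hv)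
    calc u * v = g * ((g⁻¹ * u * g) * (g⁻¹ * v * g)) * g⁻¹ := by group
      _ = g * ((g⁻¹ * v * g) * (g⁻¹ * u * g)) * g⁻¹ := by rw [h1]
      _ = v * u := by group
  have hfree : ∀ w ∈ S, ∀ u ∈ cg g D, u ≠ 1 → w * u = u * w → w ∈ CD (cg g D) := by
    intro w hw u hu hu1 hwu
    have h1 := hF _ (mem_cg.1 hw.1) _ (mem_cg.1 hu) (by
      intro h2
      apply hu1
      have e : u = g * (g⁻¹ * u * g) * g⁻¹ := by group
      rw [e, h2]
      group) (by
      calc g⁻¹ * w * g * (g⁻¹ * u * g) = g⁻¹ * (w * u) * g := by group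
        _ = g⁻¹ * (u * w) * g := by rw [hwu]
        _ = g⁻¹ * u * g * (g⁻¹ * w * g) := by group)
    rw [← FuAux.cg_CD]
    exact mem_cg.2 h1
  obtain ⟨z, hz, a, c, hza, hzc⟩ := exists_gen (D := cg g D) (S := S) hcom hgD1
    (inf_le_left.trans hStn) hfree ⟨hs₁, hs₁Y⟩ ⟨hs₂, hs₂Y⟩ hcs'
  have hle : CD (cg g D) ≤ CD M := Subgroup.centralizer_le hg.1
  refine ⟨?_, z, hz.2, ?_, a, c, ?_, ?_⟩
  · refine ⟨eN D f, hE, ?_⟩
    have h1 : s₁ ^ eN D f ∈ CD M := by
      apply hle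
      rw [← FuAux.cg_CD]
      apply mem_cg.2
      have h2 := pow_eN (mem_cg.1 hs₁)
      have e : (g⁻¹ * s₁ * g) ^ eN D f = g⁻¹ * s₁ ^ eN D f * g := by
        have := conj_pow (i := eN D f) (a := g⁻¹) (b := s₁)
        rwa [inv_inv] at this
      rwa [e] at h2
    have h3 := pow_cong hn₁ (hYn hs₁Y) (eN D f)
    have h4 := (CD M).mul_mem h3 h1
    rw [inv_mul_cancel_right] at h4
    rw [hx']
    exact h4
  · refine (fix_iff' h he hg (hY hz.2)).2 ⟨1, (CD M).one_mem, z, hz.1, by rw [one_mul]⟩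
  · rw [hx', mul_assoc]
    exact (CD M).mul_mem hn₁ (hle hza)
  · rw [hy', mul_assoc]
    exact (CD M).mul_mem hn₂ (hle hzc)

open Classical in
/-- the number of the conjugates above a fixed pair -/
theorem card_bel (h : Src p b D f i) (hF : Free D f) {M : Subgroup A} (hM1 : M ≠ ⊥)
    {c : MonoidAlgebra k A} (hc : IsBlock (CD M) c) {g₀ : A} (hg : Bel D f M c g₀) :
    Nat.card (CD D) * (Finset.univ.filter (fun g => Bel D f M c g)).card =
      Nat.card (CD M) * Nat.card (St D f) := by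
  have hDS := CD_le_St h.root.fblk
  have h1 := sum_mul (CD M) (cg g₀ (St D f)) (fun x => Bel D f M c (x * g₀))
    (fun x => bel_self_iff h hc hg) (fun _ => (1 : ℕ))
  rw [Finset.sum_const, Finset.sum_const, Finset.sum_const, Finset.card_univ, Finset.card_univ,
    smul_eq_mul, smul_eq_mul, smul_eq_mul, smul_eq_mul, mul_one, mul_one,
    inf_St hF hM1 hg.1 hDS, ← FuAux.cg_CD, card_cg, ← Nat.card_eq_fintype_card,
    ← Nat.card_eq_fintype_card, card_cg] at h1
  rw [h1]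
  congr 1
  refine Finset.card_bij (fun g _ => g * g₀⁻¹) ?_ ?_ ?_
  · intro g hg'
    rw [Finset.mem_filter]
    refine ⟨Finset.mem_univ _, ?_⟩
    rw [inv_mul_cancel_right]
    exact (Finset.mem_filter.1 hg').2
  · intro g _ g' _ he
    exact mul_right_cancel he
  · intro x hx
    refine ⟨x * g₀, ?_, by rw [mul_inv_cancel_right]⟩
    rw [Finset.mem_filter]
    exact ⟨Finset.mem_univ _, (Finset.mem_filter.1 hx).2⟩

open Classical in
theorem local_sum (hp : p ≠ 2) (h : Src p b D f i) (hF : Free D f) {M Y : Subgroup A}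
    (hM : IsPGroup p M) (hM1 : M ≠ ⊥) (hMY : CD M ≤ Y)
    (hY : Y ≤ Subgroup.normalizer (M : Set A)) :
    Nat.card (CD D) * Nat.card (St D f) *
      (Nat.card Y * Nat.card (IrX Y (resS (CD M : Set A) b))) =
      ∑ g ∈ Finset.univ.filter (fun g => M ≤ cg g D),
        (prs (CD (cg g D)) (cg g (St D f) ⊓ Y)).card := by
  have hb := h.root.blk.mem
  have hbb := h.root.blk.idem
  have hE := ndvd_eN h.root hF
  have hDS := CD_le_St h.root.fblk
  set ε := resS (CD M : Set A) b with hε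
  set N := CD M with hN
  have hYn : Y ≤ Subgroup.normalizer (N : Set A) := fun w hw =>
    mem_normalizer_centralizer (hY hw)
  have hεY := res_mem hb hMY hY
  have hεε := res_idem (p := p) hb hbb hM
  have hcl := card_l (p := p) hMY hYn (f := ε) resS_suppIn (mem_fixAlg.1 hεY).2 hεε
    (fun e he heb => nil_one hp h hF hM hM1 he ((below_iff hb he).1 heb))
    (fun e he heb x hx y hy hxy hxe hye => cyc_hyp h hF hM hM1 hMY hY he heb hx hy hxy hxe hye)
  -- the blocks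
  let Bl : Finset (MonoidAlgebra k A) :=
    ((finite_isBlock (k := k) N).toFinset).filter (fun e => e * ε = e)
  have hBl : ∀ e, e ∈ Bl ↔ IsBlock N e ∧ e * ε = e := by
    intro e
    rw [Finset.mem_filter, Set.Finite.mem_toFinset]
    rfl
  let t : MonoidAlgebra k A → ℕ := fun e => ((Finset.univ : Finset (A × A)).filter
    (fun z => (z.1 ∈ Y ∧ cj z.1 e = e) ∧ (z.2 ∈ Y ∧ cj z.2 e = e) ∧
      z.2 * z.1 * z.2⁻¹ * z.1⁻¹ ∈ N)).card
  have hTri : Nat.card (Tri N Y ε) = ∑ e ∈ Bl, t e := by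
    rw [← Finset.card_sigma, Nat.card_coe_set_eq]
    have hTfin : (Tri N Y ε).Finite := by
      refine Set.Finite.subset (Set.Finite.prod (Set.toFinite (Set.univ : Set A))
        (Set.Finite.prod (Set.toFinite (Set.univ : Set A)) (finite_isBlock (k := k) N))) ?_
      rintro ⟨x, y, e⟩ ht
      exact ⟨Set.mem_univ _, Set.mem_univ _, ht.2.1.1⟩
    rw [Set.ncard_eq_toFinset_card _ hTfin]
    refine Finset.card_bij (fun w _ => ⟨w.2.2, (w.1, w.2.1)⟩) ?_ ?_ ?_
    · rintro ⟨x, y, e⟩ hw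
      rw [Set.Finite.mem_toFinset] at hw
      obtain ⟨⟨h1, h2, h3⟩, h4, h5, h6⟩ := hw
      exact Finset.mem_sigma.2 ⟨(hBl e).2 h4, Finset.mem_filter.2 ⟨Finset.mem_univ _, ⟨h1, h5⟩,
        ⟨h2, h6⟩, h3⟩⟩
    · rintro ⟨x, y, e⟩ _ ⟨x', y', e'⟩ _ he
      simp only [Sigma.mk.injEq] at he
      obtain ⟨h1, h2⟩ := he
      have h3 := eq_of_heq h2
      simp only [Prod.mk.injEq] at h3
      rw [h1, h3.1, h3.2]
    · rintro ⟨e, x, y⟩ hw
      obtain ⟨h1, hw'⟩ := Finset.mem_sigma.1 hw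
      obtain ⟨-, h2, h3, h4⟩ := Finset.mem_filter.1 hw'
      refine ⟨(x, y, e), ?_, rfl⟩
      rw [Set.Finite.mem_toFinset]
      exact ⟨⟨h2.1, h3.1, h4⟩, (hBl e).1 h1, h2.2, h3.2⟩
  -- the local count
  have hCDY : ∀ g : A, M ≤ cg g D → CD (cg g D) ≤ Y := fun g hg =>
    (Subgroup.centralizer_le hg).trans hMY
  have hinf : ∀ g : A, M ≤ cg g D → N ⊓ (cg g (St D f) ⊓ Y) = CD (cg g D) := by
    intro g hg
    rw [← inf_assoc, hN, inf_St hF hM1 hg hDS, inf_eq_left.2 (hCDY g hg)]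
  have hloc : ∀ e, IsBlock N e → ∀ g, Bel D f M e g →
      Nat.card (CD D) ^ 2 * t e =
        Nat.card N ^ 2 * (prs (CD (cg g D)) (cg g (St D f) ⊓ Y)).card := by
    intro e he g hg
    have h1 := card_pairs (N := N) (H := cg g (St D f) ⊓ Y) (inf_le_right.trans hYn)
      (fun x => x ∈ Y ∧ cj x e = e) (fun x => by
        constructor
        · rintro ⟨hx, hxe⟩
          obtain ⟨n, hn, s, hs, rfl⟩ := (fix_iff' h he hg (hY hx)).1 hxe
          refine ⟨n, hn, s, ⟨hs, ?_⟩, rfl⟩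
          have h1 := Y.mul_mem (Y.inv_mem (hMY hn)) hx
          rwa [inv_mul_cancel_left] at h1
        · rintro ⟨n, hn, s, hs, rfl⟩
          have h1 : n * s ∈ Y := Y.mul_mem (hMY hn) hs.2
          exact ⟨h1, (fix_iff' h he hg (hY h1)).2 ⟨n, hn, s, hs.1, rfl⟩⟩)
    rw [hinf g hg.1, ← FuAux.cg_CD, card_cg, FuAux.cg_CD] at h1
    rw [← h1]
    congr 1
    show Finset.card _ = Finset.card _
    congr 1
    ext z
    simp only [Finset.mem_filter]
  -- the double sum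
  have hfib : ∑ g ∈ Finset.univ.filter (fun g => M ≤ cg g D),
      (prs (CD (cg g D)) (cg g (St D f) ⊓ Y)).card =
      ∑ e ∈ Bl, ∑ g ∈ Finset.univ.filter (fun g => Bel D f M e g),
        (prs (CD (cg g D)) (cg g (St D f) ⊓ Y)).card := by
    rw [Finset.sum_comm' (t' := Finset.univ.filter (fun g => M ≤ cg g D))
      (s' := fun g => Bl.filter (fun e => Bel D f M e g))]
    · refine Finset.sum_congr rfl fun g hg => ?_
      obtain ⟨e, he, heg⟩ := exists_blk' h (Finset.mem_filter.1 hg).2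
      have h1 : Bl.filter (fun e => Bel D f M e g) = {e} := by
        ext e'
        rw [Finset.mem_filter, Finset.mem_singleton, hBl]
        constructor
        · rintro ⟨⟨h1, _⟩, h2⟩
          exact Bel.unique h h1 he.1 h2 heg
        · rintro rfl
          exact ⟨⟨he.1, (below_iff hb he.1).2 he.2⟩, heg⟩
      rw [h1, Finset.sum_singleton]
    · intro e g
      simp only [Finset.mem_filter, Finset.mem_univ, true_and]
      constructor
      · rintro ⟨h1, h2⟩
        exact ⟨⟨h1, h2⟩, h2.1⟩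
      · rintro ⟨⟨h1, h2⟩, _⟩
        exact ⟨h1, h2⟩
  set X := ∑ g ∈ Finset.univ.filter (fun g => M ≤ cg g D),
    (prs (CD (cg g D)) (cg g (St D f) ⊓ Y)).card with hX
  have hmain : Nat.card N ^ 2 * X = Nat.card (CD D) * (Nat.card N * Nat.card (St D f)) *
      ∑ e ∈ Bl, t e := by
    rw [hfib, Finset.mul_sum, Finset.mul_sum]
    refine Finset.sum_congr rfl fun e he => ?_
    have he' := (hBl e).1 he
    obtain ⟨g₀, hg₀⟩ := exists_bel h hE hM he'.1 ((below_iff hb he'.1).1 he'.2)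
    have h1 : ∀ g ∈ Finset.univ.filter (fun g => Bel D f M e g),
        Nat.card N ^ 2 * (prs (CD (cg g D)) (cg g (St D f) ⊓ Y)).card =
          Nat.card (CD D) ^ 2 * t e := fun g hg =>
      (hloc e he'.1 g (Finset.mem_filter.1 hg).2).symm
    rw [Finset.mul_sum, Finset.sum_congr rfl h1, Finset.sum_const, smul_eq_mul,
      ← card_bel h hF hM1 he'.1 hg₀]
    ring
  rw [← hTri, ← hcl] at hmain
  have hNpos : 0 < Nat.card N := Nat.card_pos
  have h2 : Nat.card N ^ 2 * X = Nat.card N ^ 2 * (Nat.card (CD D) * Nat.card (St D f) *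
      (Nat.card Y * Nat.card (IrX Y ε))) := by
    rw [hmain]
    ring
  exact (Nat.eq_of_mul_eq_mul_left (pow_pos hNpos 2) h2).symm

end

end Pool.Agent.Lib.P0c8ca5.Kq
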