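import Mathlib
import Pool.Agent.Lib.P0c8ca5Kq.Cf
import Pool.Agent.Lib.P0c8ca5Id.Krs

/-!
# Cg: the alternating sum over the nonempty chains

`∑ (-1) ^ |σ| |N(σ)| l(N(σ), Br b) = - |A| l(N(D), Br_D b)`, the sum over the nonempty chains `σ` of
nontrivial p-subgroups.
-/

set_option autoImplicit false
set_option linter.unusedSectionVars false

namespace Pool.Agent.Lib.P0c8ca5.Kq

open MonoidAlgebra Bq Ex Zz

variable {p : ℕ} {k : Type*} [Field k] {A : Type*} [Group A]

namespace CgAux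

/-- the largest member of a nonempty chain -/
theorem exists_max {σ : Finset (Subgroup A)} (hc : IsCh p σ) (hne : σ.Nonempty) :
    ∃ M ∈ σ, (∀ Q ∈ σ, Q ≤ M) ∧ Id.sC σ = CD M ∧ CD M ≤ sN σ ∧
      sN σ ≤ Subgroup.normalizer (M : Set A) := by
  classical
  obtain ⟨M, hM, hmax⟩ := Finset.exists_maximal hne
  have hall : ∀ Q ∈ σ, Q ≤ M := by
    intro Q hQ
    rcases hc.1.total hQ hM with h1 | h1
    · exact h1
    · exact hmax hQ h1
  refine ⟨M, hM, hall, ?_, ?_, ?_⟩
  · ext x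
    rw [Id.mem_sC]
    exact ⟨fun hx => hx M hM, fun hx Q hQ => Subgroup.centralizer_le (hall Q hQ) hx⟩
  · intro x hx
    rw [TogAux.mem_sN]
    intro Q hQ
    exact Subgroup.centralizer_le_normalizer _ (Subgroup.centralizer_le (hall Q hQ) hx)
  · intro x hx
    exact TogAux.mem_sN.1 hx M hM

open Classical in
/-- the chains of subgroups of `R` normalized by `x` and `y` -/
theorem inner [Fintype (Finset (Subgroup A))] {R : Subgroup A} (hR : IsPGroup p R) (hR1 : R ≠ ⊥)
    {x y : A} (hx : x ∈ Subgroup.normalizer (R : Set A))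
    (hy : y ∈ Subgroup.normalizer (R : Set A)) :
    ∑ σ ∈ (Finset.univ : Finset (Finset (Subgroup A))).filter (fun σ => IsCh p σ ∧
      (∀ Q ∈ σ, Q ≤ R) ∧ x ∈ sN σ ∧ y ∈ sN σ), ((-1 : ℤ)) ^ σ.card = 0 := by
  let P : Finset (Subgroup A) → Prop := fun σ => IsCh p σ ∧
      (∀ Q ∈ σ, Q ≤ R) ∧ x ∈ sN σ ∧ y ∈ sN σ
  have hins : ∀ σ, P σ → P (insert R σ) := by
    rintro σ ⟨h1, h2, h3, h4⟩
    refine ⟨⟨?_, ?_⟩, ?_, ?_, ?_⟩
    · rw [Finset.coe_insert]
      refine h1.1.insert ?_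
      intro Q hQ _
      exact Or.inr (h2 Q hQ)
    · intro Q hQ
      rcases Finset.mem_insert.1 hQ with rfl | hQ
      · exact ⟨hR, hR1⟩
      · exact h1.2 Q hQ
    · intro Q hQ
      rcases Finset.mem_insert.1 hQ with rfl | hQ
      · exact le_rfl
      · exact h2 Q hQ
    · rw [TogAux.mem_sN]
      intro Q hQ
      rcases Finset.mem_insert.1 hQ with rfl | hQ
      · exact hx
      · exact TogAux.mem_sN.1 h3 Q hQ
    · rw [TogAux.mem_sN]
      intro Q hQ
      rcases Finset.mem_insert.1 hQ with rfl | hQ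
      · exact hy
      · exact TogAux.mem_sN.1 h4 Q hQ
  have hera : ∀ σ, P σ → P (σ.erase R) := by
    rintro σ ⟨h1, h2, h3, h4⟩
    have hsub : σ.erase R ⊆ σ := Finset.erase_subset _ _
    refine ⟨⟨h1.1.mono (by exact_mod_cast hsub), fun Q hQ => h1.2 Q (hsub hQ)⟩,
      fun Q hQ => h2 Q (hsub hQ), ?_, ?_⟩
    · rw [TogAux.mem_sN]
      exact fun Q hQ => TogAux.mem_sN.1 h3 Q (hsub hQ)
    · rw [TogAux.mem_sN]
      exact fun Q hQ => TogAux.mem_sN.1 h4 Q (hsub hQ)
  refine Finset.sum_involution (fun σ _ => if R ∈ σ then σ.erase R else insert R σ) ?_ ?_ ?_ ?_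
  · intro σ _
    by_cases h : R ∈ σ
    · simp only [if_pos h]
      have h1 := Finset.card_erase_add_one h
      rw [← h1, pow_succ]
      ring
    · simp only [if_neg h]
      rw [Finset.card_insert_of_notMem h, pow_succ]
      ring
  · intro σ _ _
    by_cases h : R ∈ σ
    · simp only [if_pos h]
      intro h1
      rw [Finset.erase_eq_self] at h1
      exact h1 h
    · simp only [if_neg h]
      intro h1
      rw [Finset.insert_eq_self] at h1
      exact h h1
  · intro σ hσ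
    have hσ' := (Finset.mem_filter.1 hσ).2
    rw [Finset.mem_filter]
    refine ⟨Finset.mem_univ _, ?_⟩
    by_cases h : R ∈ σ
    · simp only [if_pos h]
      exact hera σ hσ'
    · simp only [if_neg h]
      exact hins σ hσ'
  · intro σ _
    by_cases h : R ∈ σ
    · simp only [if_pos h, if_neg (Finset.notMem_erase R σ), Finset.insert_erase h]
    · simp only [if_neg h, if_pos (Finset.mem_insert_self R σ), Finset.erase_insert h]

open Classical in
theorem inner' [Fintype (Finset (Subgroup A))] {R : Subgroup A} (hR : IsPGroup p R) (hR1 : R ≠ ⊥)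
    {x y : A} (hx : x ∈ Subgroup.normalizer (R : Set A))
    (hy : y ∈ Subgroup.normalizer (R : Set A)) :
    ∑ σ ∈ (Finset.univ : Finset (Finset (Subgroup A))).filter (fun σ => (IsCh p σ ∧ σ.Nonempty) ∧
      (∀ Q ∈ σ, Q ≤ R) ∧ x ∈ sN σ ∧ y ∈ sN σ), ((-1 : ℤ)) ^ σ.card = -1 := by
  have h1 := inner hR hR1 hx hy
  have h2 : (Finset.univ : Finset (Finset (Subgroup A))).filter (fun σ => IsCh p σ ∧
      (∀ Q ∈ σ, Q ≤ R) ∧ x ∈ sN σ ∧ y ∈ sN σ) = insert ∅
      ((Finset.univ : Finset (Finset (Subgroup A))).filter (fun σ => (IsCh p σ ∧ σ.Nonempty) ∧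
      (∀ Q ∈ σ, Q ≤ R) ∧ x ∈ sN σ ∧ y ∈ sN σ)) := by
    ext σ
    simp only [Finset.mem_filter, Finset.mem_univ, true_and, Finset.mem_insert]
    constructor
    · rintro ⟨h1, h2, h3, h4⟩
      rcases σ.eq_empty_or_nonempty with h5 | h5
      · exact Or.inl h5
      · exact Or.inr ⟨⟨h1, h5⟩, h2, h3, h4⟩
    · rintro (rfl | ⟨⟨h1, _⟩, h2, h3, h4⟩)
      · refine ⟨⟨?_, ?_⟩, ?_, ?_, ?_⟩
        · simp
        · simp
        · simp
        · rw [TogAux.mem_sN]; simp
        · rw [TogAux.mem_sN]; simp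
      · exact ⟨h1, h2, h3, h4⟩
  rw [h2, Finset.sum_insert (by simp)] at h1
  rw [Finset.card_empty, pow_zero] at h1
  linarith

/-- conjugation of the pairs -/
theorem card_prs_cg [Fintype A] (g : A) (N Y : Subgroup A) :
    (prs (cg g N) (cg g Y)).card = (prs N Y).card := by
  refine Finset.card_bij (fun z _ => (g⁻¹ * z.1 * g, g⁻¹ * z.2 * g)) ?_ ?_ ?_
  · rintro ⟨x, y⟩ hz
    obtain ⟨hx, hy, hxy⟩ := mem_prs.1 hz
    refine mem_prs.2 ⟨mem_cg.1 hx, mem_cg.1 hy, ?_⟩
    have h1 := mem_cg.1 hxy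
    have e : g⁻¹ * (y * x * y⁻¹ * x⁻¹) * g =
      (g⁻¹ * y * g) * (g⁻¹ * x * g) * (g⁻¹ * y * g)⁻¹ * (g⁻¹ * x * g)⁻¹ := by group
    rw [← e]
    exact h1
  · rintro ⟨x, y⟩ _ ⟨x', y'⟩ _ h
    simp only [Prod.mk.injEq] at h
    have h1 := mul_left_cancel (mul_right_cancel h.1)
    have h2 := mul_left_cancel (mul_right_cancel h.2)
    rw [h1, h2]
  · rintro ⟨x, y⟩ hz
    obtain ⟨hx, hy, hxy⟩ := mem_prs.1 hz
    have e : ∀ w : A, g⁻¹ * (g * w * g⁻¹) * g = w := fun w => by group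
    refine ⟨(g * x * g⁻¹, g * y * g⁻¹), mem_prs.2 ⟨mem_cg.2 ?_, mem_cg.2 ?_, mem_cg.2 ?_⟩, ?_⟩
    · rw [e]; exact hx
    · rw [e]; exact hy
    · have e2 : g⁻¹ * (g * y * g⁻¹ * (g * x * g⁻¹) * (g * y * g⁻¹)⁻¹ * (g * x * g⁻¹)⁻¹) * g =
        y * x * y⁻¹ * x⁻¹ := by group
      show g⁻¹ * (g * y * g⁻¹ * (g * x * g⁻¹) * (g * y * g⁻¹)⁻¹ * (g * x * g⁻¹)⁻¹) * g ∈ N
      rw [e2]; exact hxy
    · show (g⁻¹ * (g * x * g⁻¹) * g, g⁻¹ * (g * y * g⁻¹) * g) = (x, y)
      rw [e, e]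

end CgAux

open CgAux

section
variable [Fact p.Prime] [CharP k p] [IsAlgClosed k] [Fintype A]
variable {b f i : MonoidAlgebra k A} {D : Subgroup A}

/-- the number of simple modules of the Brauer correspondent -/
noncomputable def kap (D : Subgroup A) (b : MonoidAlgebra k A) : ℕ :=
  Nat.card (IrX (Subgroup.normalizer (D : Set A)) (resS (CD D : Set A) b))

theorem kap_eq (hp : p ≠ 2) (h : Src p b D f i) (hF : Free D f) (hD1 : D ≠ ⊥) :
    Nat.card (CD D) * Nat.card (St D f) * kap D b = (prs (CD D) (St D f)).card := by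
  classical
  have h1 := local_sum hp h hF (M := D) (Y := Subgroup.normalizer (D : Set A))
    h.root.dfg.isPGroup hD1 (Subgroup.centralizer_le_normalizer _) le_rfl
  have h2 : Finset.univ.filter (fun g : A => D ≤ cg g D) =
      Finset.univ.filter (fun g : A => g ∈ Subgroup.normalizer (D : Set A)) := by
    ext g
    simp only [Finset.mem_filter, Finset.mem_univ, true_and]
    rw [← cg_eq_self_iff]
    constructor
    · intro h3
      exact (Subgroup.eq_of_le_of_card_ge h3 (by rw [card_cg])).symm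
    · intro h3
      rw [h3]
  have h3 : ∀ g ∈ Finset.univ.filter (fun g : A => g ∈ Subgroup.normalizer (D : Set A)),
      (prs (CD (cg g D)) (cg g (St D f) ⊓ Subgroup.normalizer (D : Set A))).card =
        (prs (CD D) (St D f)).card := by
    intro g hg
    have hg' := (Finset.mem_filter.1 hg).2
    have h4 : cg g (St D f) ≤ Subgroup.normalizer (D : Set A) := by
      intro w hw
      have h5 := (mem_cg.1 hw).1
      have e : w = g * (g⁻¹ * w * g) * g⁻¹ := by group
      rw [e]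
      exact Subgroup.mul_mem _ (Subgroup.mul_mem _ hg' h5) (Subgroup.inv_mem _ hg')
    rw [inf_eq_left.2 h4, ← FuAux.cg_CD, card_prs_cg]
  rw [h2, Finset.sum_congr rfl h3, Finset.sum_const, smul_eq_mul] at h1
  have h5 : (Finset.univ.filter (fun g : A => g ∈ Subgroup.normalizer (D : Set A))).card =
      Nat.card (Subgroup.normalizer (D : Set A)) := by
    rw [Nat.card_eq_fintype_card, Fintype.card_subtype]
  rw [h5] at h1
  have h6 : 0 < Nat.card (Subgroup.normalizer (D : Set A)) := Nat.card_pos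
  refine Nat.eq_of_mul_eq_mul_left h6 ?_
  rw [← h1]
  unfold kap
  ring

open Classical in
theorem chain_sum [Fintype (Finset (Subgroup A))] (hp : p ≠ 2) (h : Src p b D f i)
    (hF : Free D f) (hD1 : D ≠ ⊥) :
    ∑ σ ∈ (Finset.univ : Finset (Finset (Subgroup A))).filter (fun σ => IsCh p σ ∧ σ.Nonempty),
      (-1 : ℤ) ^ σ.card *
        ((Nat.card (sN σ) * Nat.card (IrX (sN σ) (resS (Id.sC σ : Set A) b)) : ℕ) : ℤ) =
      -((Nat.card A * kap D b : ℕ) : ℤ) := by
  set K₀ : ℕ := Nat.card (CD D) * Nat.card (St D f) with hK₀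
  have hK₀pos : 0 < K₀ := Nat.mul_pos Nat.card_pos Nat.card_pos
  have hDp := h.root.dfg.isPGroup
  -- each chain
  have h1 : ∀ σ ∈ (Finset.univ : Finset (Finset (Subgroup A))).filter
      (fun σ => IsCh p σ ∧ σ.Nonempty),
      (K₀ : ℤ) * ((-1 : ℤ) ^ σ.card *
        ((Nat.card (sN σ) * Nat.card (IrX (sN σ) (resS (Id.sC σ : Set A) b)) : ℕ) : ℤ)) =
      ∑ g : A, ∑ z ∈ prs (CD (cg g D)) (cg g (St D f)),
        if (∀ Q ∈ σ, Q ≤ cg g D) ∧ z.1 ∈ sN σ ∧ z.2 ∈ sN σ then (-1 : ℤ) ^ σ.card else 0 := by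
    intro σ hσ
    obtain ⟨hc, hne⟩ := (Finset.mem_filter.1 hσ).2
    obtain ⟨M, hM, hall, hsC, hCN, hNM⟩ := exists_max hc hne
    have h2 := local_sum hp h hF (hc.2 M hM).1 (hc.2 M hM).2 hCN hNM
    rw [hsC]
    calc (K₀ : ℤ) * ((-1 : ℤ) ^ σ.card *
        ((Nat.card (sN σ) * Nat.card (IrX (sN σ) (resS (CD M : Set A) b)) : ℕ) : ℤ))
        = (-1 : ℤ) ^ σ.card * ((Nat.card (CD D) * Nat.card (St D f) *
          (Nat.card (sN σ) * Nat.card (IrX (sN σ) (resS (CD M : Set A) b))) : ℕ) : ℤ) := by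
          rw [hK₀]
          push_cast
          ring
      _ = (-1 : ℤ) ^ σ.card * ((∑ g ∈ Finset.univ.filter (fun g => M ≤ cg g D),
          (prs (CD (cg g D)) (cg g (St D f) ⊓ sN σ)).card : ℕ) : ℤ) := by rw [h2]
      _ = _ := by
          rw [Finset.sum_filter]
          push_cast
          rw [Finset.mul_sum]
          refine Finset.sum_congr rfl fun g _ => ?_
          have hiff : (∀ Q ∈ σ, Q ≤ cg g D) ↔ M ≤ cg g D :=
            ⟨fun h3 => h3 M hM, fun h3 Q hQ => (hall Q hQ).trans h3⟩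
          by_cases hMg : M ≤ cg g D
          · rw [if_pos hMg]
            have h3 : prs (CD (cg g D)) (cg g (St D f) ⊓ sN σ) =
                (prs (CD (cg g D)) (cg g (St D f))).filter (fun z => (∀ Q ∈ σ, Q ≤ cg g D) ∧
                  z.1 ∈ sN σ ∧ z.2 ∈ sN σ) := by
              ext z
              rw [Finset.mem_filter, mem_prs, mem_prs, hiff]
              constructor
              · rintro ⟨⟨a1, a2⟩, ⟨a3, a4⟩, a5⟩
                exact ⟨⟨a1, a3, a5⟩, hMg, a2, a4⟩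
              · rintro ⟨⟨a1, a3, a5⟩, _, a2, a4⟩
                exact ⟨⟨a1, a2⟩, ⟨a3, a4⟩, a5⟩
            rw [h3, Finset.card_filter]
            push_cast
            rw [Finset.mul_sum]
            refine Finset.sum_congr rfl fun z _ => ?_
            split_ifs <;> ring
          · rw [if_neg hMg, mul_zero]
            symm
            refine Finset.sum_eq_zero fun z _ => ?_
            rw [if_neg]
            rintro ⟨h3, _⟩
            exact hMg (hiff.1 h3)
  have h2 : (K₀ : ℤ) * ∑ σ ∈ (Finset.univ : Finset (Finset (Subgroup A))).filter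
      (fun σ => IsCh p σ ∧ σ.Nonempty), (-1 : ℤ) ^ σ.card *
        ((Nat.card (sN σ) * Nat.card (IrX (sN σ) (resS (Id.sC σ : Set A) b)) : ℕ) : ℤ) =
      ∑ g : A, ∑ z ∈ prs (CD (cg g D)) (cg g (St D f)), (-1 : ℤ) := by
    rw [Finset.mul_sum, Finset.sum_congr rfl h1, Finset.sum_comm]
    refine Finset.sum_congr rfl fun g _ => ?_
    rw [Finset.sum_comm]
    refine Finset.sum_congr rfl fun z hz => ?_
    obtain ⟨hz1, hz2, _⟩ := mem_prs.1 hz
    have hn : ∀ w ∈ cg g (St D f), w ∈ Subgroup.normalizer (cg g D : Set A) := by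
      intro w hw
      rw [← cg_eq_self_iff]
      have h3 := cg_eq_self_iff.2 (mem_cg.1 hw).1
      have e : w = g * (g⁻¹ * w * g) * g⁻¹ := by group
      rw [e, ← cg_cg, ← cg_cg, cg_cg g⁻¹ g, inv_mul_cancel, cg_one, h3]
    have hgD1 : cg g D ≠ ⊥ := by
      intro h3
      apply hD1
      have h4 : cg g⁻¹ (cg g D) = ⊥ := by
        rw [h3]
        unfold cg
        exact Subgroup.map_bot _
      rwa [cg_cg, inv_mul_cancel, cg_one] at h4
    have h3 := inner' (p := p) (isPGroup_cg (g := g) hDp) hgD1 (hn _ hz1) (hn _ hz2)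
    rw [← Finset.sum_filter, Finset.filter_filter]
    exact Eq.trans (Finset.sum_congr (by
      ext σ
      simp only [Finset.mem_filter]) fun σ _ => rfl) h3
  have h3 : ∀ g : A, ∑ z ∈ prs (CD (cg g D)) (cg g (St D f)), (-1 : ℤ) =
      -((K₀ * kap D b : ℕ) : ℤ) := by
    intro g
    rw [Finset.sum_const, ← FuAux.cg_CD, card_prs_cg, hK₀, kap_eq hp h hF hD1]
    simp
  rw [Finset.sum_congr rfl fun g _ => h3 g, Finset.sum_const, Finset.card_univ,
    ← Nat.card_eq_fintype_card] at h2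
  have h4 : (K₀ : ℤ) ≠ 0 := by
    exact_mod_cast hK₀pos.ne'
  apply mul_left_cancel₀ h4
  rw [h2]
  push_cast
  rw [nsmul_eq_mul]
  ring

end

end Pool.Agent.Lib.P0c8ca5.Kq
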