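import Mathlib
import Pool.Agent.Lib.P0c8ca5Kq.Cc
import Pool.Agent.Lib.P0c8ca5Id.Rk
import Pool.Agent.Lib.P0c8ca5V.TOsi
import Pool.Agent.Lib.P0c8ca5Q.RvB

/-!
# Db: the dimension of a part of the center as a sum over the p-elements (Brauer)

`k(U, e) = ∑ l(C_U(u), Br_u(e))` over the classes of p-elements `u` of `U`, in the form
`|U| k(U, e) = ∑ |C_U(u)| l(C_U(u), Br_u(e))` over all p-elements `u` of `U`. Only characteristic p.

PROOF of `ctr_sum`. The p-part of `x` is `x * (pr p x)⁻¹`; `S u` = the `x ∈ U` whose p-part is conjugate to `u`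
in `U`. `q = uexp p A`, `x ^ q = pr p x`. All functions are functions of the coefficients.
(0) Let `C = C1 u ⊓ U`, `e' = resS (C1 u) e` (an idempotent of `fixAlg k C C`: `resS_mul` for `zpowers u`), `y` an
element of `kC` invariant under `C`, `s ∈ C` p-regular. Then the coefficient of `e' * y` at `s`, which is
`∑ h, e'.coeff h * y.coeff (h⁻¹ * s)`, depends only on the coefficients of `y` at p-regular elements, and is
`0` if they vanish: it is `Fl ψ a` for `ψ w = y.coeff w` ... (write it as a class function of `C` on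
`a = e'' * single s`, `e''` the idempotent with coefficients `e'.coeff h⁻¹`; `a ^ q = a` because the factors commute
and `s ^ q = s`), so by `Fl_pow` (P0c8ca5N.ChC, used in the same way in `osima`, P0c8ca5V.TOsi) it is
`∑ x, (a.coeff x) ^ q * y.coeff (x ^ q)`.
(1) If `z ∈ fixAlg k U U` is supported on `S u`, then `e * z` is supported on `S u`: let `x ∈ U`, `v` its p-part,
`s = pr p x`, `x = v * s`. The coefficient of `e * z` at `x` is `∑ h, e.coeff h * z.coeff (h⁻¹ * x)`; conjugation by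
`v` permutes the terms (`v` commutes with `x`), so only `h ∈ C1 v` contribute (orbits of p-power length, `CharP k p`; the lemma behind
`resS_mul`). With `y.coeff w = z.coeff (v * w)` on `C1 v ⊓ U` it is the coefficient of `resS (C1 v) e * y` at `s`, and for
p-regular `w ∈ C1 v ⊓ U` the p-part of `v * w` is `v`; if `x ∉ S u` all `y.coeff w` with `w` p-regular are `0`: (0).
(2) So `ctr k U e` is the direct sum of its subspaces `ctr_u` of the elements supported on `S u` (`u` in a set of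
representatives of the `U`-classes of p-elements of `U`): the `S u`-part of `z = z * e` is `e` times the `S u`-part of `z`.
(3) `ctr_u` is isomorphic with `Rs p C e'` (`C = C1 u ⊓ U`): `z ↦ y`, `y.coeff w = z.coeff (u * pr p w)` (`w ∈ C`).
As in (1) the coefficient of `e * z` at `u * s` (`s ∈ C` p-regular) is that of `e' * (w ↦ z.coeff (u * w))` at `s`, by (0) equal to that of
`e' * y` at `s`; `e' * y` is constant on p-sections (`conv_mem`, `mem_Rs_iff` in P0c8ca5Q.RvA/RvB). Inverse: `z.coeff x = y.coeff (pr p (g * x * g⁻¹))`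
if the p-part of `g * x * g⁻¹` is `u`, `g ∈ U`, and `0` if there is no such `g`.
(4) `finrank_Rs`: `finrank (Rs p C e') = card (IrX C e')`. The sum over the class of `u` of
`|C_U(u')| l(C_U(u'))` is `|U| l(C_U(u))` (`card_irX_cj`).
-/

set_option autoImplicit false
set_option linter.unusedSectionVars false

namespace Pool.Agent.Lib.P0c8ca5.Kq

open MonoidAlgebra Bq Ex

variable {p : ℕ} {k : Type*} [Field k] {A : Type*} [Group A]

namespace DbAux

theorem mem_c1 {u x : A} : x ∈ C1 u ↔ u * x = x * u := by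
  rw [Subgroup.mem_centralizer_iff]
  simp

theorem zp_cent (u : A) :
    Subgroup.centralizer ((Subgroup.zpowers u : Subgroup A) : Set A) = C1 u := by
  ext x
  rw [mem_c1, Subgroup.mem_centralizer_iff]
  constructor
  · intro h
    exact h u (Subgroup.mem_zpowers u)
  · intro h y hy
    obtain ⟨j, hj⟩ := Subgroup.mem_zpowers_iff.1 hy
    rw [← hj]
    have h1 : Commute u x := h
    exact (h1.zpow_left j).eq

theorem zp_pg {u : A} (hu : Pel p u) : IsPGroup p (Subgroup.zpowers u) := by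
  obtain ⟨m, hm⟩ := hu
  rintro ⟨g, hg⟩
  obtain ⟨j, hj⟩ := Subgroup.mem_zpowers_iff.1 hg
  refine ⟨m, Subtype.ext ?_⟩
  change g ^ p ^ m = 1
  rw [← hj, ← zpow_natCast, ← zpow_mul, mul_comm, zpow_mul, zpow_natCast, hm, one_zpow]

theorem pr_inv (x : A) : (pr p x)⁻¹ = pr p x⁻¹ := by
  unfold pr
  rw [inv_pow]

section
variable [Fact p.Prime] [Fintype A]

/-- a product with a central idempotent vanishes at the p-regular elements if the factor does -/
theorem reg_zero [CharP k p] {C : Subgroup A} {f y : MonoidAlgebra k A}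
    (hf : f ∈ fixAlg k C C) (hff : f * f = f) (hy : InvBy C y)
    {s : A} (hs : s ∈ C) (hreg : Preg p s) (h0 : ∀ w ∈ C, Preg p w → y.coeff w = 0) :
    (f * y).coeff s = 0 := by
  classical
  obtain ⟨hfs, hfi⟩ := mem_fixAlg.1 hf
  have hpp : p.Prime := Fact.out
  have hsup : ∀ x, x ∉ C → f.coeff x = 0 := by
    intro x hx
    by_contra h
    exact hx (hfs x h)
  obtain ⟨F, hF⟩ : ∃ F : MonoidAlgebra k ↥C, F = dn C f := ⟨_, rfl⟩
  have hFc : ∀ x : ↥C, F.coeff x = f.coeff (x : A) := by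
    intro x
    rw [hF, coeff_dn]
  have hFF : F * F = F := by
    rw [hF, ← TOsiAux.dn_mul_supp C f f hsup, hff]
  have hFinv : InvBy (⊤ : Subgroup ↥C) F := by
    intro g _ x
    rw [hFc, hFc]
    exact hfi (g : A) g.2 (x : A)
  have hFcom := invBy_iff_commute.1 hFinv
  obtain ⟨r, hr⟩ := uexp_eq p A
  have hq0 : p ^ r ≠ 0 := pow_ne_zero _ hpp.ne_zero
  have hprq : ∀ x : A, x ^ p ^ r = pr p x := by
    intro x
    unfold pr
    rw [hr]
  obtain ⟨s', hs'⟩ : ∃ s' : ↥C, s' = ⟨s, hs⟩ := ⟨_, rfl⟩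
  have hsv : (s' : A) = s := by rw [hs']
  have hsq : s'⁻¹ ^ p ^ r = s'⁻¹ := by
    apply Subtype.ext
    change ((s' : A)⁻¹) ^ p ^ r = (s' : A)⁻¹
    rw [inv_pow, hprq, hsv, pr_eq_self hreg]
  have hFq : F ^ p ^ r = F := by
    obtain ⟨n, hn⟩ := Nat.exists_eq_succ_of_ne_zero hq0
    rw [hn]
    exact IsIdempotentElem.pow_succ_eq n hFF
  obtain ⟨a, ha⟩ : ∃ a : MonoidAlgebra k ↥C, a = F * single s'⁻¹ 1 := ⟨_, rfl⟩
  have haq : a ^ p ^ r = a := by
    rw [ha, ((hFcom s'⁻¹ (Subgroup.mem_top _)).symm).mul_pow, hFq, single_pow, one_pow, hsq]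
  obtain ⟨φ, hφ⟩ : ∃ φ : ↥C → k, φ = fun g : ↥C => y.coeff ((g : A)⁻¹) := ⟨_, rfl⟩
  have hφc : ∀ x z : ↥C, φ (x * z) = φ (z * x) := by
    intro x z
    rw [hφ]
    change y.coeff (((x * z : ↥C) : A)⁻¹) = y.coeff (((z * x : ↥C) : A)⁻¹)
    have h1 := hy (z : A) z.2 (((x * z : ↥C) : A)⁻¹)
    rw [← h1]
    congr 1
    rw [Subgroup.coe_mul, Subgroup.coe_mul]
    group
  have h1 := ChC.Fl_pow (p := p) φ hφc a r
  rw [haq] at h1
  have h2 : ∑ g : ↥C, a.coeff g ^ p ^ r * φ (g ^ p ^ r) = 0 := by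
    refine Finset.sum_eq_zero fun g _ => ?_
    have h3 : φ (g ^ p ^ r) = 0 := by
      rw [hφ]
      change y.coeff (((g ^ p ^ r : ↥C) : A)⁻¹) = 0
      have h4 : ((g ^ p ^ r : ↥C) : A)⁻¹ = pr p (g : A)⁻¹ := by
        rw [SubmonoidClass.coe_pow, hprq, pr_inv]
      rw [h4]
      exact h0 _ (pr_mem (C.inv_mem g.2)) (preg_pr _)
    rw [h3, mul_zero]
  rw [h2, ChC.Fl_apply] at h1
  -- the coefficient
  have h5 : (f * y).coeff s = (F * dn C y).coeff s' := by
    rw [hF, ← TOsiAux.dn_mul_supp C f y hsup, coeff_dn, hsv]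
  rw [h5, coeff_mul_fin]
  rw [← Equiv.sum_comp (Equiv.mulRight s') (fun h : ↥C => F.coeff h * (dn C y).coeff (h⁻¹ * s')),
    ← h1]
  refine Finset.sum_congr rfl fun g _ => ?_
  rw [Equiv.coe_mulRight]
  have h6 : a.coeff g = F.coeff (g * s') := by
    rw [ha, coeff_mul_single_apply, inv_inv, mul_one]
  have h7 : (dn C y).coeff ((g * s')⁻¹ * s') = φ g := by
    rw [coeff_dn, hφ]
    change y.coeff ((((g * s')⁻¹ * s' : ↥C)) : A) = y.coeff ((g : A)⁻¹)
    have h8 := hy (s' : A) s'.2 ((((g * s')⁻¹ * s' : ↥C)) : A)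
    rw [← h8]
    congr 1
    rw [Subgroup.coe_mul, Subgroup.coe_inv, Subgroup.coe_mul]
    group
  rw [h6, h7]

theorem supp_c {U : Subgroup A} {e : MonoidAlgebra k A} (he : SuppIn U e) (u : A) :
    SuppIn (C1 u ⊓ U) (resS (C1 u : Set A) e) := by
  intro x hx
  by_cases h : x ∈ (C1 u : Set A)
  · rw [coeff_resS_of_mem _ h] at hx
    exact ⟨h, he x hx⟩
  · rw [coeff_resS_of_notMem _ h] at hx
    exact absurd rfl hx

theorem inv_c {U : Subgroup A} {e : MonoidAlgebra k A} (he : InvBy U e) (u : A) :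
    InvBy (C1 u ⊓ U) (resS (C1 u : Set A) e) := by
  intro g hg x
  have h1 := he g hg.2 x
  by_cases h : x ∈ (C1 u : Set A)
  · have h' : g * x * g⁻¹ ∈ (C1 u : Set A) :=
      (C1 u).mul_mem ((C1 u).mul_mem hg.1 h) ((C1 u).inv_mem hg.1)
    rw [coeff_resS_of_mem _ h, coeff_resS_of_mem _ h', h1]
  · have h' : g * x * g⁻¹ ∉ (C1 u : Set A) := by
      intro h2
      apply h
      have h3 := (C1 u).mul_mem ((C1 u).mul_mem ((C1 u).inv_mem hg.1) h2) hg.1
      have h4 : g⁻¹ * (g * x * g⁻¹) * g = x := by group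
      rwa [h4] at h3
    rw [coeff_resS_of_notMem _ h, coeff_resS_of_notMem _ h']

theorem fix_c {U : Subgroup A} {e : MonoidAlgebra k A} (he : e ∈ fixAlg k U U) (u : A) :
    resS (C1 u : Set A) e ∈ fixAlg k (C1 u ⊓ U) (C1 u ⊓ U) := by
  obtain ⟨h1, h2⟩ := mem_fixAlg.1 he
  exact mem_fixAlg.2 ⟨supp_c h1 u, inv_c h2 u⟩

theorem idem_c [CharP k p] {U : Subgroup A} {e : MonoidAlgebra k A} (he : e ∈ fixAlg k U U)
    (hee : e * e = e) {u : A} (hu : u ∈ U) (hup : Pel p u) :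
    resS (C1 u : Set A) e * resS (C1 u : Set A) e = resS (C1 u : Set A) e := by
  obtain ⟨h1, h2⟩ := mem_fixAlg.1 he
  have h3 : InvBy (Subgroup.zpowers u) e := h2.mono (by rwa [Subgroup.zpowers_le])
  have h4 := resS_mul (p := p) (zp_pg hup) h3 h3
  rw [hee, zp_cent] at h4
  exact h4.symm

/-- the function on the centralizer of `u` -/
noncomputable def Yf (p : ℕ) (U : Subgroup A) (u : A) (z : MonoidAlgebra k A) :
    MonoidAlgebra k A :=
  open Classical in MonoidAlgebra.ofCoeff (Finsupp.equivFunOnFinite.symm fun w =>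
    if w ∈ C1 u ⊓ U then z.coeff (u * pr p w) else 0)

open Classical in
theorem coeff_Yf (U : Subgroup A) (u : A) (z : MonoidAlgebra k A) (w : A) :
    (Yf p U u z).coeff w = if w ∈ C1 u ⊓ U then z.coeff (u * pr p w) else 0 := by
  unfold Yf
  rfl

theorem coeff_Yf_mem {U : Subgroup A} {u : A} (z : MonoidAlgebra k A) {w : A}
    (hw : w ∈ C1 u ⊓ U) : (Yf p U u z).coeff w = z.coeff (u * pr p w) := by
  classical
  rw [coeff_Yf, if_pos hw]

theorem coeff_Yf_notMem {U : Subgroup A} {u : A} (z : MonoidAlgebra k A) {w : A}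
    (hw : w ∉ C1 u ⊓ U) : (Yf p U u z).coeff w = 0 := by
  classical
  rw [coeff_Yf, if_neg hw]

theorem supp_Yf (U : Subgroup A) (u : A) (z : MonoidAlgebra k A) :
    SuppIn (C1 u ⊓ U) (Yf p U u z) := by
  intro w hw
  by_contra h
  exact hw (coeff_Yf_notMem z h)

theorem conj_mem {C : Subgroup A} {g w : A} (hg : g ∈ C) : g * w * g⁻¹ ∈ C ↔ w ∈ C := by
  constructor
  · intro h
    have h3 := C.mul_mem (C.mul_mem (C.inv_mem hg) h) hg
    have h4 : g⁻¹ * (g * w * g⁻¹) * g = w := by group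
    rwa [h4] at h3
  · intro h
    exact C.mul_mem (C.mul_mem hg h) (C.inv_mem hg)

theorem inv_Yf {U : Subgroup A} (u : A) {z : MonoidAlgebra k A} (hz : InvBy U z) :
    InvBy (C1 u ⊓ U) (Yf p U u z) := by
  intro g hg w
  by_cases h : w ∈ C1 u ⊓ U
  · rw [coeff_Yf_mem z h, coeff_Yf_mem z ((conj_mem hg).2 h), pr_conj]
    rw [← hz g hg.2 (u * pr p w)]
    congr 1
    have h1 : u * g = g * u := mem_c1.1 hg.1
    calc u * (g * pr p w * g⁻¹) = u * g * pr p w * g⁻¹ := by group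
      _ = g * u * pr p w * g⁻¹ := by rw [h1]
      _ = g * (u * pr p w) * g⁻¹ := by group
  · rw [coeff_Yf_notMem z h, coeff_Yf_notMem z (fun h' => h ((conj_mem hg).1 h'))]

theorem sec_Yf {U : Subgroup A} (u : A) (z : MonoidAlgebra k A) :
    ∀ w ∈ C1 u ⊓ U, (Yf p U u z).coeff (pr p w) = (Yf p U u z).coeff w := by
  intro w hw
  rw [coeff_Yf_mem z hw, coeff_Yf_mem z (pr_mem hw), pr_pr]

/-- the coefficient at `u * s` -/
theorem coeff_part [CharP k p] {U : Subgroup A} {e z : MonoidAlgebra k A}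
    (he : e ∈ fixAlg k U U) (hz : z ∈ fixAlg k U U) {u s : A} (hu : u ∈ U) (hup : Pel p u)
    (hs : s ∈ C1 u) : (e * z).coeff (u * s)
      = (resS (C1 u : Set A) e * resS (C1 u : Set A) (single u⁻¹ 1 * z)).coeff s := by
  obtain ⟨h1, h2⟩ := mem_fixAlg.1 he
  obtain ⟨h3, h4⟩ := mem_fixAlg.1 hz
  have hzu : Subgroup.zpowers u ≤ U := by rwa [Subgroup.zpowers_le]
  have h5 : InvBy (Subgroup.zpowers u) e := h2.mono hzu
  have h6 : InvBy (Subgroup.zpowers u) (single u⁻¹ (1 : k) * z) := by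
    rw [invBy_iff_commute]
    intro g hg
    have h7 : Commute (single g (1 : k)) (single u⁻¹ (1 : k)) := by
      have h8 : g * u⁻¹ = u⁻¹ * g := by
        obtain ⟨j, hj⟩ := Subgroup.mem_zpowers_iff.1 hg
        rw [← hj]
        group
      change single g (1 : k) * single u⁻¹ (1 : k) = single u⁻¹ (1 : k) * single g (1 : k)
      rw [single_mul_single, single_mul_single, h8]
    exact h7.mul_right (invBy_iff_commute.1 h4 g (hzu hg))
  have h9 := resS_mul (p := p) (zp_pg hup) h5 h6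
  rw [zp_cent] at h9
  rw [← h9, coeff_resS_of_mem _ (show s ∈ (C1 u : Set A) from hs)]
  have h10 : e * (single u⁻¹ (1 : k) * z) = single u⁻¹ (1 : k) * (e * z) := by
    rw [← mul_assoc, ← (invBy_iff_commute.1 h2 u⁻¹ (U.inv_mem hu)).eq, mul_assoc]
  rw [h10, coeff_single_mul_apply, one_mul, inv_inv]

theorem Yf_mul [CharP k p] [IsAlgClosed k] {U : Subgroup A} {e z : MonoidAlgebra k A}
    (he : e ∈ fixAlg k U U) (hee : e * e = e) (hz : z ∈ fixAlg k U U) {u : A} (hu : u ∈ U)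
    (hup : Pel p u) : Yf p U u (e * z) = resS (C1 u : Set A) e * Yf p U u z := by
  obtain ⟨h1, h2⟩ := mem_fixAlg.1 he
  obtain ⟨h3, h4⟩ := mem_fixAlg.1 hz
  have hfc := fix_c he u
  have hid := idem_c (p := p) he hee hu hup
  obtain ⟨hfs, hfi⟩ := mem_fixAlg.1 hfc
  have hsm : SuppIn (C1 u ⊓ U) (resS (C1 u : Set A) e * Yf p U u z) :=
    SuppIn.mul hfs (supp_Yf U u z)
  refine MonoidAlgebra.ext (Finsupp.ext fun w => ?_)
  by_cases hw : w ∈ C1 u ⊓ U
  · -- constancy on sections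
    have hXH : (fun x => (Yf p U u z).coeff x⁻¹) ∈ XH p k (C1 u ⊓ U) := by
      rw [mem_XH]
      refine ⟨fun x hx => ?_, fun h hh x => ?_, fun x hx => ?_⟩
      · exact coeff_Yf_notMem z (fun h => hx (by simpa using (C1 u ⊓ U).inv_mem h))
      · have e1 : (h * x * h⁻¹)⁻¹ = h * x⁻¹ * h⁻¹ := by group
        change (Yf p U u z).coeff (h * x * h⁻¹)⁻¹ = (Yf p U u z).coeff x⁻¹
        rw [e1]
        exact inv_Yf u h4 h hh _
      · rw [pr_inv]
        exact sec_Yf u z _ ((C1 u ⊓ U).inv_mem hx)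
    have hc := conv_mem hfc hid hXH
    have hcv : ∀ x, conv (resS (C1 u : Set A) e) (fun x => (Yf p U u z).coeff x⁻¹) x
        = (resS (C1 u : Set A) e * Yf p U u z).coeff x⁻¹ := fun x =>
      conv_inv hfs (inv_Yf u h4) x
    have hsec : (resS (C1 u : Set A) e * Yf p U u z).coeff (pr p w)
        = (resS (C1 u : Set A) e * Yf p U u z).coeff w := by
      have h5 := (mem_XH.1 hc).2.2 w⁻¹ ((C1 u ⊓ U).inv_mem hw)
      rw [hcv, hcv, pr_inv, inv_inv] at h5
      exact h5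
    rw [coeff_Yf_mem _ hw, ← hsec,
      coeff_part he hz hu hup (s := pr p w) (pr_mem hw).1]
    -- agreement on the p-regular elements
    have h6 : (resS (C1 u : Set A) e * (resS (C1 u : Set A) (single u⁻¹ 1 * z)
        - Yf p U u z)).coeff (pr p w) = 0 := by
      refine reg_zero hfc hid ?_ (pr_mem hw) (preg_pr w) ?_
      · intro g hg x
        have h7 := inv_Yf (p := p) u h4 g hg x
        have h8 : InvBy (C1 u ⊓ U) (resS (C1 u : Set A) (single u⁻¹ (1 : k) * z)) := by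
          intro g hg x
          have hgu : u * g = g * u := mem_c1.1 hg.1
          by_cases h : x ∈ (C1 u : Set A)
          · have h' : g * x * g⁻¹ ∈ (C1 u : Set A) := (conj_mem hg.1).2 h
            rw [coeff_resS_of_mem _ h, coeff_resS_of_mem _ h', coeff_single_mul_apply,
              coeff_single_mul_apply, one_mul, one_mul, inv_inv, ← h4 g hg.2 (u * x)]
            congr 1
            calc u * (g * x * g⁻¹) = u * g * x * g⁻¹ := by group
              _ = g * u * x * g⁻¹ := by rw [hgu]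
              _ = g * (u * x) * g⁻¹ := by group
          · have h' : g * x * g⁻¹ ∉ (C1 u : Set A) := fun h' => h ((conj_mem hg.1).1 h')
            rw [coeff_resS_of_notMem _ h, coeff_resS_of_notMem _ h']
        have h9 := h8 g hg x
        rw [coeff_sub, Finsupp.sub_apply, Finsupp.sub_apply, h7, h9]
      · intro v hv hvr
        rw [coeff_sub, Finsupp.sub_apply, coeff_Yf_mem z hv, pr_eq_self hvr,
          coeff_resS_of_mem _ (show v ∈ (C1 u : Set A) from hv.1), coeff_single_mul_apply,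
          one_mul, inv_inv, sub_self]
    rw [mul_sub, coeff_sub, Finsupp.sub_apply, sub_eq_zero] at h6
    exact h6
  · rw [coeff_Yf_notMem _ hw]
    symm
    by_contra h
    exact hw (hsm w h)

/-- the p-part -/
noncomputable def pe (p : ℕ) (x : A) : A := x * (pr p x)⁻¹

theorem pe_mul (x : A) : pe p x * pr p x = x := by
  unfold pe
  group

theorem pe_conj (g x : A) : pe p (g * x * g⁻¹) = g * pe p x * g⁻¹ := by
  unfold pe
  rw [pr_conj]
  group

theorem pe_pel (x : A) : Pel p (pe p x) := exists_pow_mul_inv_pr x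

theorem pe_mem {U : Subgroup A} {x : A} (hx : x ∈ U) : pe p x ∈ U :=
  U.mul_mem hx (U.inv_mem (pr_mem hx))

theorem pe_comm (x : A) : Commute (pe p x) (pr p x) := by
  have h : Commute x (pr p x) := (Commute.refl x).pow_right _
  exact h.mul_left (Commute.refl (pr p x)).inv_left

theorem pr_parts {u d : A} (hud : Commute u d) (hu : Pel p u) (hd : Preg p d) :
    pr p (u * d) = d := by
  obtain ⟨n, hn⟩ := hu
  rw [pr_mul hud, pr_of_pow hn, one_mul, pr_eq_self hd]

theorem pe_parts {u d : A} (hud : Commute u d) (hu : Pel p u) (hd : Preg p d) :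
    pe p (u * d) = u := by
  unfold pe
  rw [pr_parts hud hu hd]
  group

theorem pel_conj {u : A} (g : A) (hu : Pel p u) : Pel p (g * u * g⁻¹) := by
  obtain ⟨n, hn⟩ := hu
  refine ⟨n, ?_⟩
  rw [conj_pow, hn]
  group

/-- conjugacy under `U` -/
def cS (U : Subgroup A) : Setoid A where
  r x y := ∃ g ∈ U, y = g * x * g⁻¹
  iseqv := ⟨fun x => ⟨1, U.one_mem, by group⟩,
    fun {x y} ⟨g, hg, h⟩ => ⟨g⁻¹, U.inv_mem hg, by rw [h]; group⟩,
    fun {x y z} ⟨g, hg, h⟩ ⟨g', hg', h'⟩ => ⟨g' * g, U.mul_mem hg' hg, by rw [h', h]; group⟩⟩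

/-- the representative -/
noncomputable def rp (U : Subgroup A) (x : A) : A := (Quotient.mk (cS U) x).out

theorem rp_spec (U : Subgroup A) (x : A) : ∃ g ∈ U, rp U x = g * x * g⁻¹ := by
  have h : Quotient.mk (cS U) x = Quotient.mk (cS U) (rp U x) := (Quotient.out_eq _).symm
  exact Quotient.exact h

theorem rp_conj {U : Subgroup A} {g : A} (hg : g ∈ U) (x : A) : rp U (g * x * g⁻¹) = rp U x := by
  have h : Quotient.mk (cS U) x = Quotient.mk (cS U) (g * x * g⁻¹) :=
    Quotient.sound ⟨g, hg, rfl⟩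
  unfold rp
  rw [h]

theorem rp_rp (U : Subgroup A) (x : A) : rp U (rp U x) = rp U x := by
  obtain ⟨g, hg, h⟩ := rp_spec U x
  have h1 := rp_conj hg x
  rw [← h] at h1
  exact h1

theorem rp_mem {U : Subgroup A} {x : A} (hx : x ∈ U) : rp U x ∈ U := by
  obtain ⟨g, hg, h⟩ := rp_spec U x
  rw [h]
  exact U.mul_mem (U.mul_mem hg hx) (U.inv_mem hg)

theorem rp_pel {U : Subgroup A} {x : A} (hx : Pel p x) : Pel p (rp U x) := by
  obtain ⟨g, hg, h⟩ := rp_spec U x
  rw [h]
  exact pel_conj g hx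

/-- the coefficients in terms of the parts -/
theorem coeff_eq {U : Subgroup A} {z : MonoidAlgebra k A} (hz : InvBy U z) {x : A} (hx : x ∈ U)
    {g u : A} (hg : g ∈ U) (hu : g * pe p x * g⁻¹ = u) :
    z.coeff x = (Yf p U u z).coeff (pr p (g * x * g⁻¹)) := by
  have h1 : pe p (g * x * g⁻¹) = u := by rw [pe_conj, hu]
  have h2 : Commute u (pr p (g * x * g⁻¹)) := by
    have h3 := pe_comm (p := p) (g * x * g⁻¹)
    rwa [h1] at h3
  have h3 : g * x * g⁻¹ ∈ U := U.mul_mem (U.mul_mem hg hx) (U.inv_mem hg)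
  have h4 : pr p (g * x * g⁻¹) ∈ C1 u ⊓ U := ⟨mem_c1.2 h2.eq, pr_mem h3⟩
  rw [coeff_Yf_mem z h4, pr_pr, ← hz g hg x]
  congr 1
  have h5 := pe_mul (p := p) (g * x * g⁻¹)
  rw [h1] at h5
  exact h5.symm

theorem inj {U : Subgroup A} {z z' : MonoidAlgebra k A} (hz : z ∈ fixAlg k U U)
    (hz' : z' ∈ fixAlg k U U)
    (h : ∀ u, u ∈ U → Pel p u → rp U u = u → Yf p U u z = Yf p U u z') : z = z' := by
  obtain ⟨h1, h2⟩ := mem_fixAlg.1 hz
  obtain ⟨h3, h4⟩ := mem_fixAlg.1 hz'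
  refine MonoidAlgebra.ext (Finsupp.ext fun x => ?_)
  by_cases hx : x ∈ U
  · obtain ⟨g, hg, hgu⟩ := rp_spec U (pe p x)
    rw [coeff_eq (p := p) h2 hx hg hgu.symm, coeff_eq (p := p) h4 hx hg hgu.symm,
      h _ (rp_mem (pe_mem hx)) (rp_pel (pe_pel x)) (rp_rp U _)]
  · have e1 : z.coeff x = 0 := by
      by_contra h5
      exact hx (h1 x h5)
    have e2 : z'.coeff x = 0 := by
      by_contra h5
      exact hx (h3 x h5)
    rw [e1, e2]

/-- the element with the given parts -/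
noncomputable def Zf (p : ℕ) (U : Subgroup A) (yc : A → MonoidAlgebra k A) : MonoidAlgebra k A :=
  open Classical in MonoidAlgebra.ofCoeff (Finsupp.equivFunOnFinite.symm fun x =>
    if x ∈ U then (yc (rp U (pe p x))).coeff
      (pr p (Classical.choose (rp_spec U (pe p x)) * x *
        (Classical.choose (rp_spec U (pe p x)))⁻¹)) else 0)

open Classical in
theorem coeff_Zf (U : Subgroup A) (yc : A → MonoidAlgebra k A) (x : A) :
    (Zf p U yc).coeff x = if x ∈ U then (yc (rp U (pe p x))).coeff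
      (pr p (Classical.choose (rp_spec U (pe p x)) * x *
        (Classical.choose (rp_spec U (pe p x)))⁻¹)) else 0 := by
  unfold Zf
  rfl

theorem Zf_notMem {U : Subgroup A} (yc : A → MonoidAlgebra k A) {x : A} (hx : x ∉ U) :
    (Zf p U yc).coeff x = 0 := by
  classical
  rw [coeff_Zf, if_neg hx]

theorem Zf_eq {U : Subgroup A} {yc : A → MonoidAlgebra k A}
    (hyc : ∀ u, u ∈ U → Pel p u → rp U u = u → InvBy (C1 u ⊓ U) (yc u)) {x : A} (hx : x ∈ U)
    {g u : A} (hg : g ∈ U) (hu : g * pe p x * g⁻¹ = u) (hur : rp U u = u) :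
    (Zf p U yc).coeff x = (yc u).coeff (pr p (g * x * g⁻¹)) := by
  classical
  rw [coeff_Zf, if_pos hx]
  obtain ⟨hG, hGu⟩ := Classical.choose_spec (rp_spec U (pe p x))
  generalize Classical.choose (rp_spec U (pe p x)) = G at hG hGu ⊢
  have h1 : rp U (pe p x) = u := by
    rw [← hur, ← hu, rp_conj hg]
  rw [h1] at hGu ⊢
  have huU : u ∈ U := by
    rw [← hu]
    exact U.mul_mem (U.mul_mem hg (pe_mem hx)) (U.inv_mem hg)
  have huP : Pel p u := by
    rw [← hu]
    exact pel_conj g (pe_pel x)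
  have h2 : G * g⁻¹ ∈ C1 u ⊓ U := by
    refine ⟨mem_c1.2 ?_, U.mul_mem hG (U.inv_mem hg)⟩
    have h3 : pe p x = g⁻¹ * u * g := by
      rw [← hu]
      group
    rw [h3] at hGu
    calc u * (G * g⁻¹) = (G * (g⁻¹ * u * g) * G⁻¹) * (G * g⁻¹) := by rw [← hGu]
      _ = G * g⁻¹ * u := by group
  have h3 := hyc u huU huP hur _ h2 (pr p (g * x * g⁻¹))
  rw [← h3, ← pr_conj]
  congr 2
  group

theorem Zf_mem {U : Subgroup A} {yc : A → MonoidAlgebra k A}
    (hyc : ∀ u, u ∈ U → Pel p u → rp U u = u → InvBy (C1 u ⊓ U) (yc u)) :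
    Zf p U yc ∈ fixAlg k U U := by
  refine mem_fixAlg.2 ⟨fun x hx => ?_, fun h hh x => ?_⟩
  · by_contra h
    exact hx (Zf_notMem yc h)
  · by_cases hx : x ∈ U
    · obtain ⟨G, hG, hGu⟩ := rp_spec U (pe p x)
      have h1 : h * x * h⁻¹ ∈ U := (conj_mem hh).2 hx
      have h2 : G * h⁻¹ ∈ U := U.mul_mem hG (U.inv_mem hh)
      have h3 : (G * h⁻¹) * pe p (h * x * h⁻¹) * (G * h⁻¹)⁻¹ = rp U (pe p x) := by
        rw [pe_conj, hGu]
        group
      rw [Zf_eq hyc h1 h2 h3 (rp_rp U _), Zf_eq hyc hx hG hGu.symm (rp_rp U _)]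
      congr 2
      group
    · rw [Zf_notMem yc hx, Zf_notMem yc (fun h' => hx ((conj_mem hh).1 h'))]

theorem Yf_Zf {U : Subgroup A} {yc : A → MonoidAlgebra k A}
    (hyc : ∀ u, u ∈ U → Pel p u → rp U u = u → InvBy (C1 u ⊓ U) (yc u))
    {u : A} (huU : u ∈ U) (hup : Pel p u) (hur : rp U u = u)
    (hs : SuppIn (C1 u ⊓ U) (yc u))
    (hsec : ∀ w ∈ C1 u ⊓ U, (yc u).coeff (pr p w) = (yc u).coeff w) :
    Yf p U u (Zf p U yc) = yc u := by
  refine MonoidAlgebra.ext (Finsupp.ext fun w => ?_)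
  by_cases hw : w ∈ C1 u ⊓ U
  · have hc : Commute u (pr p w) := mem_c1.1 (pr_mem hw).1
    have h1 : pe p (u * pr p w) = u := pe_parts hc hup (preg_pr w)
    have h2 : (1 : A) * pe p (u * pr p w) * 1⁻¹ = u := by rw [h1]; group
    rw [coeff_Yf_mem _ hw, Zf_eq hyc (U.mul_mem huU (pr_mem hw).2) U.one_mem h2 hur]
    have h3 : (1 : A) * (u * pr p w) * 1⁻¹ = u * pr p w := by group
    rw [h3, pr_parts hc hup (preg_pr w), hsec w hw]
  · rw [coeff_Yf_notMem _ hw]
    symm
    by_contra h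
    exact hw (hs w h)

theorem Yf_add (U : Subgroup A) (u : A) (z z' : MonoidAlgebra k A) :
    Yf p U u (z + z') = Yf p U u z + Yf p U u z' := by
  refine MonoidAlgebra.ext (Finsupp.ext fun w => ?_)
  rw [coeff_add, Finsupp.add_apply]
  by_cases hw : w ∈ C1 u ⊓ U
  · rw [coeff_Yf_mem _ hw, coeff_Yf_mem _ hw, coeff_Yf_mem _ hw, coeff_add, Finsupp.add_apply]
  · rw [coeff_Yf_notMem _ hw, coeff_Yf_notMem _ hw, coeff_Yf_notMem _ hw, add_zero]

theorem Yf_smul (U : Subgroup A) (u : A) (c : k) (z : MonoidAlgebra k A) :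
    Yf p U u (c • z) = c • Yf p U u z := by
  refine MonoidAlgebra.ext (Finsupp.ext fun w => ?_)
  rw [coeff_smul_apply]
  by_cases hw : w ∈ C1 u ⊓ U
  · rw [coeff_Yf_mem _ hw, coeff_Yf_mem _ hw, coeff_smul_apply]
  · rw [coeff_Yf_notMem _ hw, coeff_Yf_notMem _ hw, smul_zero]

/-- the representatives of the classes of p-elements -/
def RR (p : ℕ) (U : Subgroup A) : Type _ := {u : A // u ∈ U ∧ Pel p u ∧ rp U u = u}

theorem Yf_mem [CharP k p] [IsAlgClosed k] {U : Subgroup A} {e z : MonoidAlgebra k A}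
    (he : e ∈ fixAlg k U U) (hee : e * e = e) (hz : z ∈ Id.ctr k U e) {u : A} (hu : u ∈ U)
    (hup : Pel p u) : Yf p U u z ∈ Rs p (C1 u ⊓ U) (resS (C1 u : Set A) e) := by
  obtain ⟨h1, h2⟩ := hz
  have h3 := mem_fixAlg.1 h1
  refine mem_Rs.2 ⟨supp_Yf U u z, inv_Yf u h3.2, sec_Yf u z, ?_⟩
  rw [← Yf_mul he hee h1 hu hup]
  have h4 : e * z = z * e := commute_of (mem_fixAlg.1 he).1 h3.2
  rw [h4, h2]

theorem finrank_ctr [CharP k p] [IsAlgClosed k] {U : Subgroup A} {e : MonoidAlgebra k A}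
    (he : e ∈ fixAlg k U U) (hee : e * e = e) [Fintype (RR p U)] :
    Module.finrank k ↥(Id.ctr k U e) =
      ∑ u : RR p U, Nat.card (IrX (C1 u.1 ⊓ U) (resS (C1 u.1 : Set A) e)) := by
  classical
  let F : ↥(Id.ctr k U e) →ₗ[k]
      (∀ u : RR p U, ↥(Rs p (C1 u.1 ⊓ U) (resS (C1 u.1 : Set A) e))) :=
    { toFun := fun z u => ⟨Yf p U u.1 z.1, Yf_mem he hee z.2 u.2.1 u.2.2.1⟩
      map_add' := fun z z' => funext fun u => Subtype.ext (Yf_add U u.1 z.1 z'.1)
      map_smul' := fun c z => funext fun u => Subtype.ext (Yf_smul U u.1 c z.1) }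
  have hFv : ∀ z u, ((F z u : ↥(Rs p (C1 u.1 ⊓ U) (resS (C1 u.1 : Set A) e))) :
      MonoidAlgebra k A) = Yf p U u.1 z.1 := fun _ _ => rfl
  have hF : Function.Bijective F := by
    constructor
    · intro z z' h
      apply Subtype.ext
      refine inj (p := p) z.2.1 z'.2.1 fun u hu hup hur => ?_
      have h1 := congrFun h ⟨u, hu, hup, hur⟩
      have h2 := congrArg Subtype.val h1
      exact h2
    · intro y
      let yc : A → MonoidAlgebra k A := fun u =>
        if h : u ∈ U ∧ Pel p u ∧ rp U u = u then (y ⟨u, h⟩).1 else 0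
      have hycv : ∀ u (h : u ∈ U ∧ Pel p u ∧ rp U u = u), yc u = (y ⟨u, h⟩).1 := by
        intro u h
        exact dif_pos h
      have hyR : ∀ u, u ∈ U → Pel p u → rp U u = u →
          yc u ∈ Rs p (C1 u ⊓ U) (resS (C1 u : Set A) e) := by
        intro u h1 h2 h3
        rw [hycv u ⟨h1, h2, h3⟩]
        exact (y ⟨u, h1, h2, h3⟩).2
      have hyc : ∀ u, u ∈ U → Pel p u → rp U u = u → InvBy (C1 u ⊓ U) (yc u) :=
        fun u h1 h2 h3 => (mem_Rs.1 (hyR u h1 h2 h3)).2.1
      have hY : ∀ u, u ∈ U → Pel p u → rp U u = u → Yf p U u (Zf p U yc) = yc u := by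
        intro u h1 h2 h3
        have h4 := mem_Rs.1 (hyR u h1 h2 h3)
        exact Yf_Zf hyc h1 h2 h3 h4.1 h4.2.2.1
      have hZ := Zf_mem hyc
      have hez : e * Zf p U yc = Zf p U yc := by
        refine inj (p := p) ((fixAlg k U U).mul_mem he hZ) hZ fun u h1 h2 h3 => ?_
        rw [Yf_mul he hee hZ h1 h2, hY u h1 h2 h3, (mem_Rs.1 (hyR u h1 h2 h3)).2.2.2]
      have hze : Zf p U yc * e = Zf p U yc := by
        rw [← commute_of (mem_fixAlg.1 he).1 (mem_fixAlg.1 hZ).2, hez]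
      refine ⟨⟨Zf p U yc, hZ, hze⟩, funext fun u => Subtype.ext ?_⟩
      rw [hFv]
      change Yf p U u.1 (Zf p U yc) = _
      rw [hY u.1 u.2.1 u.2.2.1 u.2.2.2, hycv u.1 u.2]
      rfl
  rw [LinearEquiv.finrank_eq (LinearEquiv.ofBijective F hF), Module.finrank_pi_fintype]
  exact Finset.sum_congr rfl fun u _ =>
    finrank_Rs (fix_c he u.1) (idem_c he hee u.2.1 u.2.2.1)

theorem card_c {U : Subgroup A} [DecidablePred (fun g : A => g ∈ U)] [DecidableEq A] (u : A) :
    Nat.card ↥(C1 u ⊓ U) =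
      ∑ g ∈ Finset.univ.filter (fun g => g ∈ U), if g * rp U u * g⁻¹ = u then 1 else 0 := by
  classical
  rw [← Finset.sum_filter, Finset.sum_const, smul_eq_mul, mul_one, Nat.card_eq_fintype_card,
    Fintype.card_subtype]
  obtain ⟨g₀, hg₀, h₀⟩ := rp_spec U u
  refine Finset.card_bij' (fun c _ => c * g₀⁻¹) (fun g _ => g * g₀) ?_ ?_ ?_ ?_
  · intro c hc
    obtain ⟨h1, h2⟩ := (Finset.mem_filter.1 hc).2
    rw [Finset.mem_filter, Finset.mem_filter]
    refine ⟨⟨Finset.mem_univ _, U.mul_mem h2 (U.inv_mem hg₀)⟩, ?_⟩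
    have h3 : u * c = c * u := mem_c1.1 h1
    rw [h₀]
    calc c * g₀⁻¹ * (g₀ * u * g₀⁻¹) * (c * g₀⁻¹)⁻¹ = c * u * c⁻¹ := by group
      _ = u * c * c⁻¹ := by rw [h3]
      _ = u := by group
  · intro g hg
    rw [Finset.mem_filter, Finset.mem_filter] at hg
    obtain ⟨⟨-, h1⟩, h2⟩ := hg
    rw [Finset.mem_filter]
    refine ⟨Finset.mem_univ _, mem_c1.2 ?_, U.mul_mem h1 hg₀⟩
    rw [h₀] at h2
    calc u * (g * g₀) = (g * (g₀ * u * g₀⁻¹) * g⁻¹) * (g * g₀) := by rw [h2]
      _ = g * g₀ * u := by group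
  · intro c _
    group
  · intro g _
    group

open Classical in
theorem count {U : Subgroup A} (d : A → ℕ)
    (hd : ∀ g ∈ U, ∀ u ∈ U, Pel p u → d (g * u * g⁻¹) = d u) :
    ∑ u ∈ Finset.univ.filter (fun u => u ∈ U ∧ Pel p u), Nat.card ↥(C1 u ⊓ U) * d u =
      Nat.card U * ∑ u ∈ Finset.univ.filter (fun u => u ∈ U ∧ Pel p u ∧ rp U u = u), d u := by
  have h1 : ∀ u, Nat.card ↥(C1 u ⊓ U) * d u =
      ∑ g ∈ Finset.univ.filter (fun g => g ∈ U), if g * rp U u * g⁻¹ = u then d u else 0 := by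
    intro u
    rw [card_c, Finset.sum_mul]
    refine Finset.sum_congr rfl fun g _ => ?_
    rw [ite_mul, one_mul, zero_mul]
  rw [Finset.sum_congr rfl fun u _ => h1 u, Finset.sum_comm]
  have h2 : Nat.card U = (Finset.univ.filter (fun g : A => g ∈ U)).card := by
    rw [Nat.card_eq_fintype_card, Fintype.card_subtype]
  rw [h2, ← smul_eq_mul, ← Finset.sum_const]
  refine Finset.sum_congr rfl fun g hg => ?_
  have hgU : g ∈ U := (Finset.mem_filter.1 hg).2
  rw [← Finset.sum_filter]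
  refine Finset.sum_bij' (fun u _ => rp U u) (fun w _ => g * w * g⁻¹) ?_ ?_ ?_ ?_ ?_
  · intro u hu
    rw [Finset.mem_filter, Finset.mem_filter] at hu
    rw [Finset.mem_filter]
    exact ⟨Finset.mem_univ _, rp_mem hu.1.2.1, rp_pel hu.1.2.2, rp_rp U u⟩
  · intro w hw
    rw [Finset.mem_filter] at hw
    obtain ⟨-, h3, h4, h5⟩ := hw
    rw [Finset.mem_filter, Finset.mem_filter]
    refine ⟨⟨Finset.mem_univ _, (conj_mem hgU).2 h3, pel_conj g h4⟩, ?_⟩
    rw [rp_conj hgU, h5]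
  · intro u hu
    rw [Finset.mem_filter] at hu
    exact hu.2
  · intro w hw
    rw [Finset.mem_filter] at hw
    rw [rp_conj hgU, hw.2.2.2]
  · intro u hu
    rw [Finset.mem_filter, Finset.mem_filter] at hu
    have h3 := hd g hgU (rp U u) (rp_mem hu.1.2.1) (rp_pel hu.1.2.2)
    rw [hu.2] at h3
    exact h3

end

end DbAux

open DbAux

open Classical in
theorem ctr_sum [Fact p.Prime] [CharP k p] [IsAlgClosed k] [Fintype A] {U : Subgroup A}
    {e : MonoidAlgebra k A} (he : e ∈ fixAlg k U U) (hee : e * e = e) :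
    Nat.card U * Module.finrank k ↥(Id.ctr k U e) =
      ∑ u ∈ Finset.univ.filter (fun u => u ∈ U ∧ Pel p u),
        Nat.card ↥(C1 u ⊓ U) * Nat.card (IrX (C1 u ⊓ U) (resS (C1 u : Set A) e)) := by
  classical
  obtain ⟨h1, h2⟩ := mem_fixAlg.1 he
  have : Finite (RR p U) := Subtype.finite
  have : Fintype (RR p U) := Fintype.ofFinite _
  rw [finrank_ctr he hee]
  have h3 := count (p := p) (U := U)
    (fun u => Nat.card (IrX (C1 u ⊓ U) (resS (C1 u : Set A) e))) ?_
  · rw [h3]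
    congr 1
    symm
    refine Finset.sum_subtype _ (fun u => ?_)
      (fun u => Nat.card (IrX (C1 u ⊓ U) (resS (C1 u : Set A) e)))
    rw [Finset.mem_filter]
    exact ⟨fun h => h.2, fun h => ⟨Finset.mem_univ _, h⟩⟩
  · intro g hg u hu hup
    have e1 : cg g (C1 u) = C1 (g * u * g⁻¹) := by
      ext x
      rw [mem_cg, mem_c1, mem_c1]
      constructor
      · intro h
        calc g * u * g⁻¹ * x = g * (u * (g⁻¹ * x * g)) * g⁻¹ := by group
          _ = g * (g⁻¹ * x * g * u) * g⁻¹ := by rw [h]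
          _ = x * (g * u * g⁻¹) := by group
      · intro h
        calc u * (g⁻¹ * x * g) = g⁻¹ * (g * u * g⁻¹ * x) * g := by group
          _ = g⁻¹ * (x * (g * u * g⁻¹)) * g := by rw [h]
          _ = g⁻¹ * x * g * u := by group
    have e2 : cg g (C1 u ⊓ U) = C1 (g * u * g⁻¹) ⊓ U := by
      rw [cg_inf, e1, cg_of_mem hg]
    have e3 : cj g (resS (C1 u : Set A) e) = resS (C1 (g * u * g⁻¹) : Set A) e := by
      rw [← e1, ← WaAux.resS_cj_cg, invBy_iff_cj.1 h2 g hg]
    have h4 := card_irX_cj (p := p) g (fix_c he u) (idem_c (p := p) he hee hu hup)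
    rw [e2, e3] at h4
    exact h4

end Pool.Agent.Lib.P0c8ca5.Kq
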