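import Mathlib
import Pool.Agent.Lib.P0c8ca5Kq.Cg
import Pool.Agent.Lib.P0c8ca5Kq.Db
import Pool.Agent.Lib.P0c8ca5Id.Krs
import Pool.Agent.Lib.P0c8ca5Id.Fun
import Pool.Agent.Lib.P0c8ca5V.Tog

/-!
# Dc: the alternating sum of the numbers of characters

`∑_(σ ∈ R) (-1) ^ |σ| kB σ b = l(b) - kap D b`: the characters are counted by the pairs `(u, simple module of
C(u))`; the contributions of `u ≠ 1` cancel (toggle), those of `u = 1` are `chain_sum`.
-/

set_option autoImplicit false
set_option linter.unusedSectionVars false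

namespace Pool.Agent.Lib.P0c8ca5.Kq

open MonoidAlgebra Bq Ex Bw

variable {p : ℕ} {k : Type*} [Field k] {A : Type*} [Group A]

namespace DcAux

theorem exists_min {σ : Finset (Subgroup A)} (hc : IsCh p σ) (hne : σ.Nonempty) :
    ∃ P ∈ σ, ∀ Q ∈ σ, P ≤ Q := by
  obtain ⟨P, hP, hmin⟩ := Finset.exists_minimal hne
  refine ⟨P, hP, fun Q hQ => ?_⟩
  rcases hc.1.total hP hQ with h1 | h1
  · exact h1
  · exact hmin hQ h1

theorem sN_empty : sN (∅ : Finset (Subgroup A)) = ⊤ := by
  unfold sN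
  simp

theorem sC_empty : Id.sC (∅ : Finset (Subgroup A)) = ⊤ := by
  unfold Id.sC
  simp

/-- the largest member, or the trivial group -/
theorem exists_top {σ : Finset (Subgroup A)} (hc : IsCh p σ) :
    ∃ M : Subgroup A, IsPGroup p M ∧ Id.sC σ = CD M ∧ CD M ≤ sN σ ∧
      sN σ ≤ Subgroup.normalizer (M : Set A) := by
  rcases σ.eq_empty_or_nonempty with rfl | hne
  · refine ⟨⊥, IsPGroup.of_bot, ?_, ?_, ?_⟩
    · rw [sC_empty]
      symm
      rw [eq_top_iff]
      intro x _
      rw [Subgroup.mem_centralizer_iff]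
      intro y hy
      rw [SetLike.mem_coe, Subgroup.mem_bot] at hy
      rw [hy, one_mul, mul_one]
    · rw [sN_empty]
      exact le_top
    · intro x _
      rw [Subgroup.mem_normalizer_iff]
      intro y
      rw [Subgroup.mem_bot, Subgroup.mem_bot, conj_eq_one_iff]
  · obtain ⟨M, hM, _, h1, h2, h3⟩ := CgAux.exists_max hc hne
    exact ⟨M, (hc.2 M hM).1, h1, h2, h3⟩

section
variable [Fintype A]

theorem rz_self {U : Subgroup A} {x : MonoidAlgebra k A} (h : SuppIn U x) : rz U x = x := by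
  classical
  ext y
  rw [rz_coeff]
  by_cases hy : y ∈ U
  · rw [if_pos hy]
  · rw [if_neg hy]
    by_contra h0
    exact hy (h y (Ne.symm h0))

theorem rz_rz {U V : Subgroup A} (h : V ≤ U) (x : MonoidAlgebra k A) :
    rz V (rz U x) = rz V x := by
  classical
  ext y
  rw [rz_coeff, rz_coeff, rz_coeff]
  by_cases hy : y ∈ V
  · rw [if_pos hy, if_pos hy, if_pos (h hy)]
  · rw [if_neg hy, if_neg hy]

theorem rz_sub' {U : Subgroup A} (x y : MonoidAlgebra k A) : rz U (x - y) = rz U x - rz U y := by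
  classical
  ext z
  have e1 : (rz U x - rz U y).coeff z = (rz U x).coeff z - (rz U y).coeff z := rfl
  have e2 : (x - y).coeff z = x.coeff z - y.coeff z := rfl
  rw [e1, rz_coeff, rz_coeff, rz_coeff, e2]
  by_cases hz : z ∈ U
  · rw [if_pos hz, if_pos hz, if_pos hz]
  · rw [if_neg hz, if_neg hz, if_neg hz, sub_zero]

theorem rz_mem' {U V : Subgroup A} (hVU : V ≤ U) {x : MonoidAlgebra k A}
    (hx : x ∈ fixAlg k U U) : rz V x ∈ fixAlg k V V := by
  classical
  rw [mem_fixAlg] at hx ⊢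
  refine ⟨fun y hy => ?_, fun g hg y => ?_⟩
  · rw [rz_coeff] at hy
    by_contra h
    rw [if_neg h] at hy
    exact hy rfl
  · rw [rz_coeff, rz_coeff, hx.2 g (hVU hg) y]
    have h1 : g * y * g⁻¹ ∈ V ↔ y ∈ V := by
      rw [V.mul_mem_cancel_right (V.inv_mem hg), V.mul_mem_cancel_left hg]
    simp only [h1]

/-- the restriction to a centralizer -/
theorem resS_mem' {P U V : Subgroup A} (hVU : V ≤ U) (hVP : V ≤ Subgroup.normalizer (P : Set A))
    (hCV : CD P ⊓ U ≤ V) {x : MonoidAlgebra k A} (hx : x ∈ fixAlg k U U) :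
    resS (CD P : Set A) x ∈ fixAlg k V V := by
  rw [mem_fixAlg] at hx ⊢
  refine ⟨fun y hy => ?_, fun g hg y => ?_⟩
  · by_cases hyC : y ∈ CD P
    · rw [coeff_resS_of_mem _ (show y ∈ (CD P : Set A) from hyC)] at hy
      exact hCV ⟨hyC, hx.1 y hy⟩
    · exact absurd (coeff_resS_of_notMem x (show y ∉ (CD P : Set A) from hyC)) hy
  · have hn : g ∈ Subgroup.normalizer ((CD P : Subgroup A) : Set A) :=
      mem_normalizer_centralizer (hVP hg)
    have h1 := Subgroup.mem_normalizer_iff.1 hn y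
    by_cases hyC : y ∈ CD P
    · rw [coeff_resS_of_mem _ (show y ∈ (CD P : Set A) from hyC),
        coeff_resS_of_mem _ (show g * y * g⁻¹ ∈ (CD P : Set A) from h1.1 hyC)]
      exact hx.2 g (hVU hg) y
    · rw [coeff_resS_of_notMem _ (show y ∉ (CD P : Set A) from hyC),
        coeff_resS_of_notMem _ (show g * y * g⁻¹ ∉ (CD P : Set A) from fun h => hyC (h1.2 h))]

variable [Fact p.Prime] [CharP k p]

theorem resS_pow {P : Subgroup A} (hP : IsPGroup p P) {x : MonoidAlgebra k A}
    (hx : x ∈ fixAlg k (⊤ : Subgroup A) P) (m : ℕ) :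
    resS (CD P : Set A) (x ^ (m + 1)) = (resS (CD P : Set A) x) ^ (m + 1) := by
  induction m with
  | zero => rw [zero_add, pow_one, pow_one]
  | succ m ih =>
    rw [pow_succ x, pow_succ (resS (CD P : Set A) x), ← ih]
    exact resS_mul hP (mem_fixAlg.1 ((fixAlg k (⊤ : Subgroup A) P).pow_mem hx _)).2
      (mem_fixAlg.1 hx).2

/-- the truncation of a nilpotent central element to the normalizer of a p-subgroup -/
theorem nil_rz [IsAlgClosed k] {P U : Subgroup A} (hPU : P ≤ U) (hP : IsPGroup p P)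
    {n : MonoidAlgebra k A} (hn : n ∈ fixAlg k U U) (hnil : IsNilpotent n) :
    IsNilpotent (rz (Subgroup.normalizer (P : Set A) ⊓ U) n) := by
  classical
  set V := Subgroup.normalizer (P : Set A) ⊓ U with hV
  have hVU : V ≤ U := inf_le_right
  have hVP : V ≤ Subgroup.normalizer (P : Set A) := inf_le_left
  have hCV : CD P ⊓ U ≤ V := inf_le_inf_right U (Subgroup.centralizer_le_normalizer _)
  have hPV : P ≤ V := le_inf Subgroup.le_normalizer hPU
  set m1 := resS (CD P : Set A) n with hm1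
  have h1 : m1 ∈ fixAlg k V V := resS_mem' hVU hVP hCV hn
  have h2 : rz V n ∈ fixAlg k V V := rz_mem' hVU hn
  have h3 : rz V n - m1 ∈ fixAlg k V V := (fixAlg k V V).sub_mem h2 h1
  have h4 : IsNilpotent (rz V n - m1) := by
    refine Id.nil_sub (p := p) hPV hVP hP h3 fun x hx => ?_
    have e1 : (rz V n - m1).coeff x = (rz V n).coeff x - m1.coeff x := rfl
    rw [e1, rz_coeff, hm1, coeff_resS_of_mem _ (show x ∈ (CD P : Set A) from hx)]
    by_cases hxV : x ∈ V
    · rw [if_pos hxV, sub_self]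
    · rw [if_neg hxV, zero_sub, neg_eq_zero]
      by_contra h0
      exact hxV (hCV ⟨hx, (mem_fixAlg.1 hn).1 x h0⟩)
  have h5 : IsNilpotent m1 := by
    obtain ⟨r, hr⟩ := hnil
    refine ⟨r + 1, ?_⟩
    have hnP : n ∈ fixAlg k (⊤ : Subgroup A) P := by
      rw [mem_fixAlg] at hn ⊢
      exact ⟨fun x _ => Subgroup.mem_top x, hn.2.mono hPU⟩
    rw [hm1, ← resS_pow hP hnP, pow_succ, hr, zero_mul]
    ext x
    by_cases hx : x ∈ (CD P : Set A)
    · rw [coeff_resS_of_mem _ hx]
    · rw [coeff_resS_of_notMem _ hx]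
      rfl
  have h6 : rz V n = (rz V n - m1) + m1 := by abel
  rw [h6]
  refine Commute.isNilpotent_add ?_ h4 h5
  exact commute_of (mem_fixAlg.1 h3).1 (mem_fixAlg.1 h1).2

/-- the truncation of `b` to the stabilizer of a chain is the restriction to the centralizer,
modulo nilpotent elements -/
theorem nil_ch [IsAlgClosed k] {b : MonoidAlgebra k A} (hb : b ∈ fixAlg k (⊤ : Subgroup A) ⊤) :
    ∀ σ : Finset (Subgroup A), IsCh p σ →
      IsNilpotent (rz (sN σ) b - resS (Id.sC σ : Set A) b) := by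
  classical
  intro σ
  induction h : σ.card using Nat.strong_induction_on generalizing σ with
  | _ n ih =>
    intro hc
    rcases σ.eq_empty_or_nonempty with rfl | hne
    · rw [sN_empty, sC_empty, resS_top, rz_self (fun x _ => Subgroup.mem_top x), sub_self]
      exact IsNilpotent.zero
    · obtain ⟨P, hP, hmin⟩ := exists_min hc hne
      set τ := σ.erase P with hτ
      have hins : insert P τ = σ := Finset.insert_erase hP
      have hNσ : sN σ = Subgroup.normalizer (P : Set A) ⊓ sN τ := by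
        rw [← hins, TogAux.sN_insert]
      have hPp := (hc.2 P hP).1
      have hPτ : P ≤ sN τ := by
        intro x hx
        rw [TogAux.mem_sN]
        intro Q hQ
        exact Subgroup.le_normalizer (hmin Q (Finset.mem_of_mem_erase hQ) hx)
      have hcτ : IsCh p τ :=
        ⟨hc.1.mono (by exact_mod_cast Finset.erase_subset _ _),
          fun Q hQ => hc.2 Q (Finset.mem_of_mem_erase hQ)⟩
      obtain ⟨M, hMp, hsC, hCN, hNM⟩ := exists_top hc
      by_cases hτe : τ = ∅
      · have hσ : σ = {P} := by rw [← hins, hτe]; rfl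
        have h1 : Id.sC σ = CD P := by
          rw [hσ]
          unfold Id.sC
          simp
        have h2 : sN σ = Subgroup.normalizer (P : Set A) := by
          rw [hNσ, hτe, sN_empty, inf_top_eq]
        rw [h1, h2]
        have h3 : resS (CD P : Set A) b ∈ fixAlg k (Subgroup.normalizer (P : Set A))
            (Subgroup.normalizer (P : Set A)) :=
          resS_mem' le_top le_rfl
            (inf_le_left.trans (Subgroup.centralizer_le_normalizer _)) hb
        have h4 := rz_mem' (V := Subgroup.normalizer (P : Set A)) le_top hb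
        refine Id.nil_sub (p := p) Subgroup.le_normalizer le_rfl hPp
          ((fixAlg k (Subgroup.normalizer (P : Set A))
            (Subgroup.normalizer (P : Set A))).sub_mem h4 h3) fun x hx => ?_
        have e1 : (rz (Subgroup.normalizer (P : Set A)) b - resS (CD P : Set A) b).coeff x =
          (rz (Subgroup.normalizer (P : Set A)) b).coeff x - (resS (CD P : Set A) b).coeff x := rfl
        rw [e1, rz_coeff, if_pos (Subgroup.centralizer_le_normalizer _ hx),
          coeff_resS_of_mem _ (show x ∈ (CD P : Set A) from hx), sub_self]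
      · obtain ⟨Q₀, hQ₀⟩ := Finset.nonempty_iff_ne_empty.2 hτe
        have hsCτ : Id.sC τ = Id.sC σ := by
          ext x
          rw [Id.mem_sC, Id.mem_sC]
          constructor
          · intro hx Q hQ
            by_cases hQP : Q = P
            · rw [hQP]
              exact Subgroup.centralizer_le (hmin Q₀ (Finset.mem_of_mem_erase hQ₀)) (hx Q₀ hQ₀)
            · exact hx Q (Finset.mem_erase.2 ⟨hQP, hQ⟩)
          · intro hx Q hQ
            exact hx Q (Finset.mem_of_mem_erase hQ)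
        have hcard : τ.card < n := by
          rw [← h]
          exact Finset.card_erase_lt_of_mem hP
        have hih := ih _ hcard τ rfl hcτ
        have hNle : sN σ ≤ sN τ := by
          rw [hNσ]
          exact inf_le_right
        have hsupp : SuppIn (sN σ) (resS (Id.sC τ : Set A) b) := by
          intro x hx
          by_cases hx' : x ∈ Id.sC τ
          · rw [hsCτ, hsC] at hx'
            exact hCN hx'
          · exact absurd (coeff_resS_of_notMem b (show x ∉ (Id.sC τ : Set A) from hx')) hx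
        have h1 : rz (sN σ) b - resS (Id.sC σ : Set A) b =
            rz (sN σ) (rz (sN τ) b - resS (Id.sC τ : Set A) b) := by
          rw [rz_sub', rz_rz hNle, rz_self hsupp, hsCτ]
        have h2 : rz (sN τ) b - resS (Id.sC τ : Set A) b ∈ fixAlg k (sN τ) (sN τ) := by
          obtain ⟨M', _, h3, h4, h5⟩ := exists_top hcτ
          refine (fixAlg k (sN τ) (sN τ)).sub_mem (rz_mem' le_top hb) ?_
          rw [h3]
          exact resS_mem' le_top h5 (inf_le_left.trans h4) hb
        rw [h1, hNσ]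
        exact nil_rz hPτ hPp h2 hih

/-- the idempotent of a chain -/
theorem e_mem {b : MonoidAlgebra k A} (hb : b ∈ fixAlg k (⊤ : Subgroup A) ⊤)
    {σ : Finset (Subgroup A)} (hc : IsCh p σ) :
    resS (Id.sC σ : Set A) b ∈ fixAlg k (sN σ) (sN σ) := by
  obtain ⟨M, _, h3, h4, h5⟩ := exists_top hc
  rw [h3]
  exact resS_mem' le_top h5 (inf_le_left.trans h4) hb

theorem e_idem {b : MonoidAlgebra k A} (hb : b ∈ fixAlg k (⊤ : Subgroup A) ⊤) (hbb : b * b = b)
    {σ : Finset (Subgroup A)} (hc : IsCh p σ) :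
    resS (Id.sC σ : Set A) b * resS (Id.sC σ : Set A) b = resS (Id.sC σ : Set A) b := by
  obtain ⟨M, h2, h3, h4, h5⟩ := exists_top hc
  have h6 : InvBy M b := (mem_fixAlg.1 hb).2.mono le_top
  rw [h3, ← resS_mul h2 h6 h6, hbb]

theorem exists_N [IsAlgClosed k] {b : MonoidAlgebra k A}
    (hb : b ∈ fixAlg k (⊤ : Subgroup A) ⊤) (hbb : b * b = b) :
    ∃ N : ℕ, ∀ σ : Finset (Subgroup A), IsCh p σ →
      (rz (sN σ) b) ^ (p ^ N) = resS (Id.sC σ : Set A) b := by
  classical
  have hpp : p.Prime := Fact.out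
  have hchar : CharP (MonoidAlgebra k A) p :=
    charP_of_injective_algebraMap (algebraMap k (MonoidAlgebra k A)).injective p
  have : Fintype (Finset (Subgroup A)) := Fintype.ofFinite _
  have h1 : ∀ σ : Finset (Subgroup A), ∃ n : ℕ, IsCh p σ →
      (rz (sN σ) b - resS (Id.sC σ : Set A) b) ^ n = 0 := by
    intro σ
    by_cases hc : IsCh p σ
    · obtain ⟨n, hn⟩ := nil_ch hb σ hc
      exact ⟨n, fun _ => hn⟩
    · exact ⟨0, fun h => absurd h hc⟩
  choose n hn using h1
  refine ⟨Finset.univ.sup n, fun σ hc => ?_⟩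
  set N := Finset.univ.sup n with hN
  have h2 : n σ ≤ p ^ N :=
    (Finset.le_sup (Finset.mem_univ σ)).trans (Nat.lt_pow_self hpp.one_lt).le
  set e := resS (Id.sC σ : Set A) b with he
  have heU := e_mem hb hc
  have hee := e_idem hb hbb hc
  have hd : rz (sN σ) b - e ∈ fixAlg k (sN σ) (sN σ) :=
    (fixAlg k (sN σ) (sN σ)).sub_mem (rz_mem' le_top hb) heU
  have h3 : rz (sN σ) b = e + (rz (sN σ) b - e) := by abel
  have h4 : Commute e (rz (sN σ) b - e) :=
    commute_of (mem_fixAlg.1 heU).1 (mem_fixAlg.1 hd).2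
  rw [h3, add_pow_char_pow_of_commute p N h4]
  have h5 : (rz (sN σ) b - e) ^ (p ^ N) = 0 := by
    obtain ⟨r, hr⟩ := Nat.exists_eq_add_of_le h2
    rw [hr, pow_add, hn σ hc, zero_mul]
  obtain ⟨r, hr⟩ := Nat.exists_eq_succ_of_ne_zero (pow_ne_zero N hpp.ne_zero)
  rw [h5, add_zero, hr, IsIdempotentElem.pow_succ_eq r hee]

theorem isPGroup_zpowers {u : A} (hu : Pel p u) : IsPGroup p (Subgroup.zpowers u) := by
  obtain ⟨n, hn⟩ := hu
  intro x
  obtain ⟨m, hm⟩ := Subgroup.mem_zpowers_iff.1 x.2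
  refine ⟨n, Subtype.ext ?_⟩
  change (x : A) ^ p ^ n = 1
  rw [← hm, ← zpow_natCast, ← zpow_mul, mul_comm, zpow_mul, zpow_natCast, hn, one_zpow]

theorem resS_rz {b : MonoidAlgebra k A} (S U : Subgroup A) :
    resS (S : Set A) (rz U b) = rz (S ⊓ U) b := by
  classical
  ext x
  rw [rz_coeff]
  by_cases hx : x ∈ S
  · rw [coeff_resS_of_mem _ (show x ∈ (S : Set A) from hx), rz_coeff]
    by_cases hxU : x ∈ U
    · rw [if_pos hxU, if_pos (Subgroup.mem_inf.2 ⟨hx, hxU⟩)]
    · rw [if_neg hxU, if_neg (fun h => hxU (Subgroup.mem_inf.1 h).2)]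
  · rw [coeff_resS_of_notMem _ (show x ∉ (S : Set A) from hx),
      if_neg (fun h => hx (Subgroup.mem_inf.1 h).1)]

theorem resS_ee {b : MonoidAlgebra k A} (hb : b ∈ fixAlg k (⊤ : Subgroup A) ⊤) {U : Subgroup A}
    {u : A} (hu : u ∈ U) (hpu : Pel p u) (N : ℕ) :
    resS (C1 u : Set A) ((rz U b) ^ (p ^ N)) = (rz (C1 u ⊓ U) b) ^ (p ^ N) := by
  have hpp : p.Prime := Fact.out
  obtain ⟨r, hr⟩ := Nat.exists_eq_succ_of_ne_zero (pow_ne_zero N hpp.ne_zero)
  have h1 : rz U b ∈ fixAlg k (⊤ : Subgroup A) (Subgroup.zpowers u) := by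
    have h2 := mem_fixAlg.1 (rz_mem' (V := U) le_top hb)
    rw [mem_fixAlg]
    exact ⟨fun x _ => Subgroup.mem_top x, h2.2.mono (by rw [Subgroup.zpowers_le]; exact hu)⟩
  have h3 := resS_pow (isPGroup_zpowers hpu) h1 r
  rw [CD_zpowers] at h3
  rw [hr, h3, resS_rz]

theorem rz_cg {b : MonoidAlgebra k A} (hb : InvBy (⊤ : Subgroup A) b) (g : A) (U : Subgroup A) :
    rz (cg g U) b = cj g (rz U b) := by
  classical
  ext x
  rw [coeff_cj, rz_coeff, rz_coeff]
  have h2 := hb g⁻¹ (Subgroup.mem_top _) x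
  rw [inv_inv] at h2
  by_cases hx : x ∈ cg g U
  · rw [if_pos hx, if_pos (mem_cg.1 hx), h2]
  · rw [if_neg hx, if_neg (fun h => hx (mem_cg.2 h))]

theorem cj_pow' (g : A) (x : MonoidAlgebra k A) (m : ℕ) : cj g (x ^ (m + 1)) = (cj g x) ^ (m + 1) := by
  induction m with
  | zero => rw [zero_add, pow_one, pow_one]
  | succ m ih => rw [pow_succ x, cj_mul, ih, pow_succ (cj g x) (m + 1)]

end

end DcAux

open DcAux

section
variable [Fact p.Prime] [CharP k p] [IsAlgClosed k] [Fintype A]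
variable {b f i : MonoidAlgebra k A} {D : Subgroup A}

open Classical in
theorem chS_kB (hb : b ∈ fixAlg k (⊤ : Subgroup A) ⊤) (hbb : b * b = b) {N : ℕ}
    (hN : ∀ σ : Finset (Subgroup A), IsCh p σ →
      (rz (sN σ) b) ^ (p ^ N) = resS (Id.sC σ : Set A) b)
    [Fintype (Finset (Subgroup A))] :
    chS p (fun U => (Nat.card U : ℤ) *
      (Module.finrank k ↥(Id.ctr k U ((rz U b) ^ (p ^ N))) : ℤ)) =
    ∑ σ ∈ (Finset.univ : Finset (Finset (Subgroup A))).filter (fun σ => IsCh p σ),
      (-1 : ℤ) ^ σ.card *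
        ((Nat.card (sN σ) * Nat.card (IrX (sN σ) (resS (Id.sC σ : Set A) b)) : ℕ) : ℤ) := by
  let F : Subgroup A → ℤ := fun V =>
    ((Nat.card V * Nat.card (IrX V ((rz V b) ^ (p ^ N))) : ℕ) : ℤ)
  unfold chS
  rw [finsum_eq_sum_of_fintype]
  have h1 : ∀ σ : Finset (Subgroup A),
      (if IsCh p σ then (-1 : ℤ) ^ σ.card * ((Nat.card (sN σ) : ℤ) *
        (Module.finrank k ↥(Id.ctr k (sN σ) ((rz (sN σ) b) ^ (p ^ N))) : ℤ)) else 0) =
      ∑ u : A, if Pel p u then (if IsCh p σ ∧ Subgroup.zpowers u ≤ sN σ then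
        (-1 : ℤ) ^ σ.card * F (C1 u ⊓ sN σ) else 0) else 0 := by
    intro σ
    by_cases hc : IsCh p σ
    · have hid := hN σ hc
      have h2 := ctr_sum (p := p) (e_mem hb hc) (e_idem hb hbb hc)
      rw [← hid] at h2
      have h3 : (Nat.card (sN σ) : ℤ) *
          (Module.finrank k ↥(Id.ctr k (sN σ) ((rz (sN σ) b) ^ (p ^ N))) : ℤ) =
          ((Nat.card (sN σ) *
            Module.finrank k ↥(Id.ctr k (sN σ) ((rz (sN σ) b) ^ (p ^ N))) : ℕ) : ℤ) := by
        push_cast
        ring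
      rw [if_pos hc, h3, h2, Nat.cast_sum, Finset.mul_sum, Finset.sum_filter]
      refine Finset.sum_congr rfl fun u _ => ?_
      by_cases hp' : Pel p u
      · rw [if_pos hp']
        by_cases hu : u ∈ sN σ
        · rw [if_pos ⟨hu, hp'⟩, if_pos ⟨hc, by rw [Subgroup.zpowers_le]; exact hu⟩,
            resS_ee hb hu hp' N]
        · rw [if_neg (fun h => hu h.1), if_neg (fun h => hu (Subgroup.zpowers_le.1 h.2))]
      · rw [if_neg hp', if_neg (fun h => hp' h.2)]
    · rw [if_neg hc]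
      symm
      refine Finset.sum_eq_zero fun u _ => ?_
      by_cases hp' : Pel p u
      · rw [if_pos hp', if_neg (fun h => hc h.1)]
      · rw [if_neg hp']
  rw [Finset.sum_congr rfl fun σ _ => h1 σ, Finset.sum_comm,
    Finset.sum_eq_single (1 : A)]
  · rw [Finset.sum_filter]
    refine Finset.sum_congr rfl fun σ _ => ?_
    have hp1 : Pel p (1 : A) := ⟨0, by simp⟩
    rw [if_pos hp1]
    by_cases hc : IsCh p σ
    · have h2 : Subgroup.zpowers (1 : A) ≤ sN σ := by
        rw [Subgroup.zpowers_le]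
        exact Subgroup.one_mem _
      have h3 : C1 (1 : A) ⊓ sN σ = sN σ := by
        rw [inf_eq_right]
        intro x _
        rw [Subgroup.mem_centralizer_iff]
        intro y hy
        rw [Set.mem_singleton_iff.1 hy, one_mul, mul_one]
      rw [if_pos ⟨hc, h2⟩, if_pos hc, h3]
      change (-1 : ℤ) ^ σ.card *
        ((Nat.card (sN σ) * Nat.card (IrX (sN σ) ((rz (sN σ) b) ^ (p ^ N))) : ℕ) : ℤ) = _
      rw [hN σ hc]
    · rw [if_neg (fun h => hc h.1), if_neg hc]
  · intro u _ hu1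
    by_cases hp' : Pel p u
    · have h2 := toggle (p := p) (Subgroup.zpowers u) (C1 u) (isPGroup_zpowers hp')
        (by rw [ne_eq, Subgroup.zpowers_eq_bot]; exact hu1) (by
          rw [← CD_zpowers]
          exact Subgroup.centralizer_le_normalizer _) F
      rw [finsum_eq_sum_of_fintype] at h2
      rw [Finset.sum_congr rfl fun σ _ => if_pos hp']
      exact h2
    · refine Finset.sum_eq_zero fun σ _ => ?_
      rw [if_neg hp']
  · intro h
    exact absurd (Finset.mem_univ _) h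

/-- **the alternating sum of the numbers of characters** -/
theorem sum_kB (hp : p ≠ 2) (h : Src p b D f i) (hF : Free D f) (hD1 : D ≠ ⊥)
    (R : Finset (Finset (Subgroup A))) (hR1 : ∀ σ ∈ R, Id.IsChE p σ)
    (hR2 : ∀ τ, Id.IsChE p τ → ∃! σ, σ ∈ R ∧ ∃ g : A, τ = ChOrbAux.cgS g σ) :
    ∑ σ ∈ R, (-1 : ℤ) ^ σ.card * (Id.kB σ b : ℤ) =
      (Nat.card (IrX (⊤ : Subgroup A) b) : ℤ) - (kap D b : ℤ) := by
  classical
  have : Fintype (Finset (Subgroup A)) := Fintype.ofFinite _
  have hpp : p.Prime := Fact.out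
  have hb := h.root.blk.mem
  have hbb := h.root.blk.idem
  have hbi : InvBy (⊤ : Subgroup A) b := h.root.blk.invBy
  obtain ⟨N, hN⟩ := exists_N (p := p) hb hbb
  obtain ⟨r, hr⟩ := Nat.exists_eq_succ_of_ne_zero (pow_ne_zero N hpp.ne_zero)
  rw [Id.sum_reps (p := p) (fun g σ => by
    rw [ChOrbAux.card_cgS, Id.kB_cgS g σ hbi]) R hR1 hR2]
  have h1 := chS_kB (p := p) hb hbb hN
  have h2 := Id.chS_sumE (p := p) (fun U => (Nat.card U : ℤ) *
      (Module.finrank k ↥(Id.ctr k U ((rz U b) ^ (p ^ N))) : ℤ))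
    (fun U => (Module.finrank k ↥(Id.ctr k U ((rz U b) ^ (p ^ N))) : ℤ)) (fun U => rfl) (by
      intro g U
      change (Module.finrank k ↥(Id.ctr k (cg g U) ((rz (cg g U) b) ^ (p ^ N))) : ℤ) =
        (Module.finrank k ↥(Id.ctr k U ((rz U b) ^ (p ^ N))) : ℤ)
      rw [rz_cg hbi, hr, ← cj_pow', Id.finrank_ctr_cj])
  rw [h2] at h1
  have h3 : ∑ σ ∈ Id.chRE p A, (-1 : ℤ) ^ σ.card *
      (Module.finrank k ↥(Id.ctr k (sN σ) ((rz (sN σ) b) ^ (p ^ N))) : ℤ) =
      ∑ σ ∈ Id.chRE p A, (-1 : ℤ) ^ σ.card * (Id.kB σ b : ℤ) := by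
    refine Finset.sum_congr rfl fun σ hσ => ?_
    unfold Id.kB
    rw [hN σ (Id.isChE_of_mem hσ).1]
  rw [h3] at h1
  -- the sum over the chains
  have h4 : (Finset.univ : Finset (Finset (Subgroup A))).filter (fun σ => IsCh p σ) =
      insert ∅ ((Finset.univ : Finset (Finset (Subgroup A))).filter
        (fun σ => IsCh p σ ∧ σ.Nonempty)) := by
    ext σ
    simp only [Finset.mem_filter, Finset.mem_univ, true_and, Finset.mem_insert]
    constructor
    · intro h5
      rcases σ.eq_empty_or_nonempty with h6 | h6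
      · exact Or.inl h6
      · exact Or.inr ⟨h5, h6⟩
    · rintro (rfl | h5)
      · refine ⟨?_, ?_⟩
        · simp
        · simp
      · exact h5.1
  have h5 := chain_sum hp h hF hD1
  have h6 : ∑ σ ∈ (Finset.univ : Finset (Finset (Subgroup A))).filter (fun σ => IsCh p σ),
      (-1 : ℤ) ^ σ.card *
        ((Nat.card (sN σ) * Nat.card (IrX (sN σ) (resS (Id.sC σ : Set A) b)) : ℕ) : ℤ) =
      (Nat.card A : ℤ) * ((Nat.card (IrX (⊤ : Subgroup A) b) : ℤ) - (kap D b : ℤ)) := by
    rw [h4, Finset.sum_insert (by simp), Finset.card_empty, pow_zero, one_mul, sN_empty, sC_empty,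
      resS_top]
    have h7 : ∑ σ ∈ (Finset.univ : Finset (Finset (Subgroup A))).filter
        (fun σ => IsCh p σ ∧ σ.Nonempty), (-1 : ℤ) ^ σ.card *
        ((Nat.card (sN σ) * Nat.card (IrX (sN σ) (resS (Id.sC σ : Set A) b)) : ℕ) : ℤ) =
        -((Nat.card A * kap D b : ℕ) : ℤ) := by
      refine Eq.trans (Finset.sum_congr ?_ fun σ _ => rfl) h5
      ext σ
      simp only [Finset.mem_filter]
    rw [h7, Subgroup.card_top]
    push_cast
    ring
  rw [h6] at h1
  exact mul_left_cancel₀ (by exact_mod_cast Nat.card_pos.ne') h1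

end

end Pool.Agent.Lib.P0c8ca5.Kq
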