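import Mathlib
import Pool.Agent.Lib.P0c8ca5Kq.Cg
import Pool.Agent.Lib.P0c8ca5Ex.Wc
import Pool.Agent.Lib.P0c8ca5C.InflW
import Pool.Agent.Lib.P0c8ca5N.WSum

/-!
# Ch: the weights of `b` and the simple modules of the Brauer correspondent

`∑_(Q ∈ T) |DZ p ⊤ b Q| = kap D b`.
-/

set_option autoImplicit false
set_option linter.unusedSectionVars false

namespace Pool.Agent.Lib.P0c8ca5.Kq

open MonoidAlgebra Bq Ex Zz

variable {p : ℕ} {k : Type*} [Field k] {A : Type*} [Group A]

namespace ChAux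

open Classical in
/-- a sum over a subgroup by cosets of a smaller one -/
theorem sum_cosets' {M : Type*} [AddCommMonoid M] {G : Type*} [Group G] [Fintype G]
    {U S : Subgroup G} (hUS : U ≤ S) {g : G → M} {c : M}
    (h : ∀ w ∈ S, ∑ x ∈ Finset.univ.filter (fun x => x ∈ U), g (w * x) = c) :
    ∑ w ∈ Finset.univ.filter (fun w => w ∈ S), g w = U.relIndex S • c := by
  have hfin : Fintype (S ⧸ U.subgroupOf S) := Fintype.ofFinite _
  have h1 : ∑ w ∈ Finset.univ.filter (fun w => w ∈ S), g w = ∑ w : S, g w :=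
    Finset.sum_subtype (Finset.univ.filter (fun w => w ∈ S)) (fun w => by simp) g
  rw [h1, ← Finset.sum_fiberwise (Finset.univ : Finset S)
    (fun w => (w : S ⧸ U.subgroupOf S)) (fun w => g w)]
  have h2 : ∀ t : S ⧸ U.subgroupOf S,
      ∑ w ∈ Finset.univ.filter (fun w : S => (w : S ⧸ U.subgroupOf S) = t), g w = c := by
    intro t
    obtain ⟨s, rfl⟩ := QuotientGroup.mk_surjective t
    rw [← h s s.2]
    refine Finset.sum_bij (fun w _ => (s : G)⁻¹ * (w : G)) ?_ ?_ ?_ ?_
    · intro w hw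
      rw [Finset.mem_filter] at hw ⊢
      refine ⟨Finset.mem_univ _, ?_⟩
      have h3 := QuotientGroup.eq.1 hw.2.symm
      rw [Subgroup.mem_subgroupOf] at h3
      exact h3
    · intro w _ w' _ hww
      exact Subtype.ext (mul_left_cancel hww)
    · intro x hx
      have hxU := (Finset.mem_filter.1 hx).2
      refine ⟨⟨s * x, S.mul_mem s.2 (hUS hxU)⟩, ?_, ?_⟩
      · rw [Finset.mem_filter]
        refine ⟨Finset.mem_univ _, ?_⟩
        symm
        rw [QuotientGroup.eq, Subgroup.mem_subgroupOf]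
        change (s : G)⁻¹ * ((s : G) * x) ∈ U
        rwa [inv_mul_cancel_left]
      · change (s : G)⁻¹ * ((s : G) * x) = x
        rw [inv_mul_cancel_left]
    · intro w _
      rw [mul_inv_cancel_left]
  rw [Finset.sum_congr rfl (fun t _ => h2 t), Finset.sum_const, Finset.card_univ,
    Subgroup.relIndex, Subgroup.index, Nat.card_eq_fintype_card]

end ChAux

open ChAux

section
variable [Fact p.Prime] [CharP k p] [IsAlgClosed k] [Fintype A]
variable {b f i : MonoidAlgebra k A} {D : Subgroup A}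

theorem tr_mul (h : Src p b D f i) [Fintype (NQ D)] :
    ∃ t : k, t ≠ 0 ∧ trK (⊤ : Subgroup (NQ D)) (proj D i) * proj D f =
      ((eN D f : k) * t) • proj D f := by
  classical
  have hr := h.root
  have hD := hr.dfg.isPGroup
  have hcom := hr.com
  have hi : InvBy D i := (mem_fixAlg.1 h.prim.mem).2
  have hf : InvBy D f := hr.fblk.invBy.mono (D_le_CD hcom)
  have hN : St D f ≤ Subgroup.normalizer (D : Set A) := fun x hx => hx.1
  set J := proj D i with hJ
  set F' := proj D f with hF'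
  have hFJ : F' * J = J := J_F h
  have hJF : J * F' = J := by
    rw [hJ, hF', ← proj_mul hD hi hf, h.mf]
  obtain ⟨t, ht0, ht⟩ := dz_tr (F_dz hr) (J_prim h) hFJ
  refine ⟨t, ht0, ?_⟩
  -- only the stabilizer counts
  have h2 : ∀ w : NQ D, w ∉ sec (St D f) D → cj w J * F' = 0 := by
    intro w hw
    obtain ⟨n, hn, rfl⟩ := qm_surj w
    have h3 : cj n f ≠ f := by
      intro h4
      exact hw (qm_mem_sec hn (mem_St.2 ⟨hn, h4⟩))
    have hCn : n ∈ Subgroup.normalizer ((CD D : Subgroup A) : Set A) :=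
      TnAux.mem_norm (fun u hu => by
        rw [Subgroup.mem_centralizer_iff] at hu ⊢
        intro q hq
        have h4 : n * q * n⁻¹ ∈ D := (Subgroup.mem_normalizer_iff.1 hn q).1 hq
        have h5 := hu _ h4
        calc q * (n⁻¹ * u * n) = n⁻¹ * ((n * q * n⁻¹) * u) * n := by group
          _ = n⁻¹ * (u * (n * q * n⁻¹)) * n := by rw [h5]
          _ = n⁻¹ * u * n * q := by group)
    have h4 : IsBlock (CD D) (cj n f) := by
      have h5 := isBlock_cg hr.fblk n
      rwa [cg_of_mem_normalizer hCn] at h5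
    have h5 : cj n f * f = 0 := by
      rcases h4.eq_or_mul_eq_zero hr.fblk with h6 | h6
      · exact absurd h6 h3
      · exact h6
    have h6 : cj (qm D n hn) F' * F' = 0 := by
      rw [hF', ← Fr.proj_cj f hn, ← proj_mul hD (TnAux.invBy_cj hf hn) hf, h5, TnAux.pr_zero]
    calc cj (qm D n hn) J * F' = cj (qm D n hn) (J * F') * F' := by rw [hJF]
      _ = cj (qm D n hn) J * (cj (qm D n hn) F' * F') := by
          rw [cj_mul]; simp only [mul_assoc]
      _ = 0 := by rw [h6, mul_zero]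
  have h7 : ∀ w ∈ sec (St D f) D,
      ∑ x ∈ Finset.univ.filter (fun x => x ∈ sec (CD D) D), cj (w * x) J * F' = t • F' := by
    intro w hw
    obtain ⟨n, hn, hn', rfl⟩ := mem_sec.1 hw
    have h5 : cj (qm D n hn') F' = F' := by
      rw [hF', ← Fr.proj_cj f hn', (mem_St.1 hn).2]
    have h6 : ∑ x ∈ Finset.univ.filter (fun x => x ∈ sec (CD D) D), cj (qm D n hn' * x) J * F'
        = cj (qm D n hn') (trK (sec (CD D) D) J) * F' := by
      rw [trK, cj_sum, Finset.sum_mul]
      refine Finset.sum_congr rfl (fun x _ => ?_)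
      rw [cj_cj]
    have hFF : F' * F' = F' := by rw [hF', ← proj_mul hD hf hf, hr.fblk.idem]
    rw [h6, ht, cj_smul, h5, smul_mul_assoc, hFF]
  have h8 := sum_cosets' (U := sec (CD D) D) (sec_mono (CD_le_St hr.fblk))
    (g := fun w => cj w J * F') h7
  rw [TnAux.sec_relIndex (D_le_CD hcom) (CD_le_St hr.fblk) hN] at h8
  have h9 : trK (⊤ : Subgroup (NQ D)) J * F' =
      ∑ w ∈ Finset.univ.filter (fun w => w ∈ sec (St D f) D), cj w J * F' := by
    rw [trK, Finset.sum_mul]
    have h10 : Finset.univ.filter (fun x : NQ D => x ∈ (⊤ : Subgroup (NQ D))) = Finset.univ := by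
      ext x
      simp
    rw [h10, Finset.sum_filter]
    refine Finset.sum_congr rfl (fun w _ => ?_)
    by_cases hw : w ∈ sec (St D f) D
    · rw [if_pos hw]
    · rw [if_neg hw, h2 w hw]
  rw [h9, h8, mul_smul, Nat.cast_smul_eq_nsmul]
  rfl

theorem isDZ_below (h : Src p b D f i) (hE : ¬ p ∣ eN D f) {φ : MonoidAlgebra k (NQ D)}
    (hφ : IsBlock (⊤ : Subgroup (NQ D)) φ) (hφb : φ * proj D b = φ) :
    IsDZ p (⊤ : Subgroup (NQ D)) φ := by
  classical
  have : Fintype (NQ D) := Fintype.ofFinite _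
  have hr := h.root
  have hD := hr.dfg.isPGroup
  have hcom := hr.com
  have hDC := D_le_CD hcom
  have hbm := mem_fixAlg.1 hr.blk.mem
  have hbD : InvBy D b := hbm.2.mono le_top
  have hf : InvBy D f := hr.fblk.invBy.mono hDC
  -- `φ * F' ≠ 0`
  have hφF : φ * proj D f ≠ 0 := by
    set e : MonoidAlgebra k A := resS (CD D : Set A) b with he
    have hee : e * e = e := by
      rw [he, ← resS_mul hD hbD hbD, hr.blk.idem]
    have hem : e ∈ fixAlg k (CD D) (CD D) := by
      rw [mem_fixAlg]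
      refine ⟨fun x hx => ?_, fun g hg x => ?_⟩
      · by_contra h1
        exact hx (coeff_resS_of_notMem b h1)
      · have h1 : g * x * g⁻¹ ∈ (CD D : Set A) ↔ x ∈ (CD D : Set A) :=
          ((Subgroup.mem_normalizer_iff.1 (Subgroup.le_normalizer hg) x)).symm
        rw [he, coeff_resS, coeff_resS, hbm.2 g (Subgroup.mem_top g) x]
        simp only [h1]
    have hpe : proj D b = proj D e := (Ps.WgtAux.proj_resS hD hbD le_rfl).symm
    let Bl : Finset (MonoidAlgebra k A) :=
      ((finite_isBlock (k := k) (CD D)).toFinset).filter (fun c => c * e ≠ 0)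
    have hBl : ∀ c, c ∈ Bl ↔ IsBlock (CD D) c ∧ c * e ≠ 0 := by
      intro c
      rw [Finset.mem_filter, Set.Finite.mem_toFinset]
      rfl
    have hsum := WSumAux.sum_blocks (p := p) hem hee Bl hBl
    have h1 : ∑ c ∈ Bl, φ * proj D c ≠ 0 := by
      rw [← Finset.mul_sum, ← WSumAux.proj_sum', hsum, ← hpe, hφb]
      exact hφ.ne_zero
    obtain ⟨c, hcB, hc0⟩ := Finset.exists_ne_zero_of_sum_ne_zero h1
    obtain ⟨hc, hce⟩ := (hBl c).1 hcB
    have hec : e * c = c := by
      rcases hc.mul_eq hem hee with h2 | h2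
      · exact absurd (by rw [commute_of hc.suppIn (mem_fixAlg.1 hem).2, h2]) hce
      · exact h2
    obtain ⟨g, hg⟩ := exists_bel h hE hD hc hec
    -- `g` normalizes `D`
    have hgD : cg g D = D := by
      refine (Subgroup.eq_of_le_of_card_ge hg.1 ?_).symm
      rw [card_cg]
    have hgn : g ∈ Subgroup.normalizer (D : Set A) := cg_eq_self_iff.1 hgD
    have hcf : c = cj g f := by
      have h2 := hg.2
      rw [hgD] at h2
      have h3 : resS (CD D : Set A) c = c := resS_eq_self hc.suppIn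
      rw [h3] at h2
      have h4 : IsBlock (CD D) (cj g f) := by
        have h5 := blk_inv hr.fblk g
        rwa [hgD] at h5
      rcases hc.eq_or_mul_eq_zero h4 with h5 | h5
      · exact h5
      · exfalso
        rw [h2] at h5
        exact h4.ne_zero h5
    intro h0
    apply hc0
    rw [hcf, Fr.proj_cj f hgn]
    have h5 : cj (qm D g hgn) φ = φ := invBy_iff_cj.1 hφ.invBy _ (Subgroup.mem_top _)
    rw [← h5, ← cj_mul, h0, cj_zero]
  obtain ⟨t, ht0, ht⟩ := tr_mul h
  set J := proj D i with hJ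
  set F' := proj D f with hF'
  have hs0 : ((eN D f : k) * t) ≠ 0 := by
    refine mul_ne_zero ?_ ht0
    intro h1
    exact hE ((CharP.cast_eq_zero_iff k p _).1 h1)
  set s : k := (eN D f : k) * t with hs
  set z := trK (⊤ : Subgroup (NQ D)) J with hz
  have hzm : z ∈ fixAlg k (⊤ : Subgroup (NQ D)) ⊤ :=
    mem_fixAlg.2 ⟨fun x _ => Subgroup.mem_top x, trK_invBy ⊤ J⟩
  have hA : IsArtinianRing (fixAlg k (⊤ : Subgroup (NQ D)) ⊤) := IsArtinianRing.of_finite k _
  have hcomm : ∀ a : MonoidAlgebra k (NQ D), a * φ = φ * a := fun a =>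
    commute_of (fun x _ => Subgroup.mem_top x) hφ.invBy
  refine ⟨hφ, fun P hP hpP hbr => ?_⟩
  by_contra hne
  rcases hφ.primIdem.nilp_or_unit ⟨z, hzm⟩ with ⟨m, hm⟩ | ⟨w, hw⟩
  · have h3 : (z * φ) ^ m = 0 := congrArg Subtype.val hm
    have h4 : ∀ r : ℕ, (z * φ) ^ r * (φ * F') = s ^ r • (φ * F') := by
      intro r
      induction r with
      | zero => rw [pow_zero, pow_zero, one_mul, one_smul]
      | succ r ih =>
        rw [pow_succ', mul_assoc, ih, mul_smul_comm]
        have h5 : z * φ * (φ * F') = s • (φ * F') := by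
          calc z * φ * (φ * F') = z * (φ * φ) * F' := by simp only [mul_assoc]
            _ = φ * (z * F') := by rw [hφ.idem, hcomm, mul_assoc]
            _ = s • (φ * F') := by rw [ht, mul_smul_comm]
        rw [h5, smul_smul, ← pow_succ]
    have h5 := h4 m
    rw [h3, zero_mul] at h5
    have h6 : s ^ m ≠ 0 := pow_ne_zero _ hs0
    rcases smul_eq_zero.1 h5.symm with h7 | h7
    · exact h6 h7
    · exact hφF h7
  · have h3 : z * w.1 * φ = φ := congrArg Subtype.val hw
    have h4 : InvBy (⊤ : Subgroup (NQ D)) ((w : MonoidAlgebra k (NQ D)) * φ) :=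
      (mem_fixAlg.1 (Subalgebra.mul_mem _ w.2 hφ.mem)).2
    have h5 : φ = trK (⊤ : Subgroup (NQ D)) (J * ((w : MonoidAlgebra k (NQ D)) * φ)) := by
      rw [trK_mul J h4, ← mul_assoc, h3]
    obtain ⟨y, hy, hy'⟩ := hbr
    apply hy'
    rw [h5]
    exact coeff_trK_eq_zero hpP hP hne _ hy

theorem card_dz_kap (h : Src p b D f i) (hE : ¬ p ∣ eN D f) :
    Nat.card {φ : MonoidAlgebra k (NQ D) | IsDZ p (⊤ : Subgroup (NQ D)) φ ∧ φ * proj D b = φ} =
      kap D b := by
  classical
  have : Fintype (NQ D) := Fintype.ofFinite _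
  have hr := h.root
  have hD := hr.dfg.isPGroup
  have hbm := mem_fixAlg.1 hr.blk.mem
  have hbD : InvBy D b := hbm.2.mono le_top
  have hDN : D ≤ Subgroup.normalizer (D : Set A) := Subgroup.le_normalizer
  set e : MonoidAlgebra k A := resS (CD D : Set A) b with he
  have hes : SuppIn (Subgroup.normalizer (D : Set A)) e := by
    intro x hx
    by_contra h1
    exact hx (coeff_resS_of_notMem b (fun h2 => h1 (Subgroup.centralizer_le_normalizer _ h2)))
  have hpe : proj D e = proj D b := Ps.WgtAux.proj_resS hD hbD le_rfl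
  have hbb : proj D b * proj D b = proj D b := by
    rw [← proj_mul hD hbD hbD, hr.blk.idem]
  have hbi : InvBy (⊤ : Subgroup (NQ D)) (proj D b) := by
    rw [invBy_iff_cj]
    intro w _
    obtain ⟨n, hn, rfl⟩ := qm_surj w
    rw [← Fr.proj_cj b hn, invBy_iff_cj.1 hbm.2 n (Subgroup.mem_top _)]
  have h1 : kap D b = Nat.card (IrX (⊤ : Subgroup (NQ D)) (proj D b)) := by
    unfold kap
    have h2 := Rk.card_irr_infl (p := p) hDN le_rfl hD hes
    rw [hpe] at h2
    have h3 : sec (Subgroup.normalizer (D : Set A)) D = ⊤ := by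
      rw [eq_top_iff]
      intro w _
      obtain ⟨n, hn, rfl⟩ := qm_surj w
      exact qm_mem_sec hn hn
    rw [h3] at h2
    exact h2
  let Bl : Finset (MonoidAlgebra k (NQ D)) :=
    ((finite_isBlock (k := k) (⊤ : Subgroup (NQ D))).toFinset).filter (fun c => c * proj D b ≠ 0)
  have hBl : ∀ c, c ∈ Bl ↔ IsBlock (⊤ : Subgroup (NQ D)) c ∧ c * proj D b ≠ 0 := by
    intro c
    rw [Finset.mem_filter, Set.Finite.mem_toFinset]
    rfl
  have hsp : SuppIn (⊤ : Subgroup (NQ D)) (proj D b) := fun x _ => Subgroup.mem_top x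
  have hmul : ∀ c ∈ Bl, c * proj D b = c := by
    intro c hc
    obtain ⟨h2, h3⟩ := (hBl c).1 hc
    have h5 : proj D b * c = c * proj D b :=
      (commute_of (fun x _ => Subgroup.mem_top x) hbi).symm
    rcases h2.mul_eq (mem_fixAlg.2 ⟨hsp, hbi⟩) hbb with h4 | h4
    · exact absurd (by rw [← h5, h4]) h3
    · rw [← h5, h4]
  have h2 := card_irX_blocks (p := p) hsp hbi hbb Bl hBl
  have h3 : ∀ c ∈ Bl, IsDZ p (⊤ : Subgroup (NQ D)) c := fun c hc =>
    isDZ_below h hE ((hBl c).1 hc).1 (hmul c hc)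
  have h4 : ∑ c ∈ Bl, Nat.card (Quotient (irrInvSetoid (⊤ : Subgroup (NQ D)) ⊥ c)) = Bl.card := by
    rw [Finset.sum_congr rfl fun c hc => Rk.card_irr_dz (h3 c hc)]
    simp
  have h5 : {φ : MonoidAlgebra k (NQ D) | IsDZ p (⊤ : Subgroup (NQ D)) φ ∧ φ * proj D b = φ} =
      (Bl : Set (MonoidAlgebra k (NQ D))) := by
    ext φ
    rw [Set.mem_setOf_eq, Finset.mem_coe]
    constructor
    · rintro ⟨h6, h7⟩
      refine (hBl φ).2 ⟨h6.blk, ?_⟩
      rw [h7]
      exact h6.blk.ne_zero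
    · intro h6
      exact ⟨h3 φ h6, hmul φ h6⟩
  rw [h1, h5]
  have h6 : Nat.card (Bl : Set (MonoidAlgebra k (NQ D))) = Bl.card := by
    rw [Nat.card_coe_set_eq, Set.ncard_coe_finset]
  rw [h6, ← h4]
  exact h2.symm

/-- the number of weights -/
theorem wt_kap (h : Src p b D f i) (hE : ¬ p ∣ eN D f)
    (T : Finset (Subgroup A)) (hT1 : ↑T ⊆ Theta p (⊤ : Subgroup A) ⊤ b)
    (hT2 : ∀ Q ∈ Theta p (⊤ : Subgroup A) ⊤ b, ∃! Q', Q' ∈ T ∧
      ∃ g ∈ (⊤ : Subgroup A), Q' = Q.map (MulAut.conj g).toMonoidHom) :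
    ∑ Q ∈ T, Nat.card (DZ p (⊤ : Subgroup A) b Q) = kap D b := by
  classical
  have hDZ : ∀ Q ∈ T, DZ p (⊤ : Subgroup A) b Q =
      {φ | IsDZ p (⊤ : Subgroup (NQ Q)) φ ∧ φ * proj Q b = φ} := by
    intro Q hQ
    have h1 := hT1 hQ
    rw [DZ_eq le_top h1.2.1 h.root.blk, WcAux.sec_top]
  have hD : D ∈ Theta p (⊤ : Subgroup A) ⊤ b :=
    ⟨le_top, h.root.dfg.isPGroup, by simp, D, h.root.dfg, inf_le_left⟩
  obtain ⟨Q₀, ⟨hQ₀, g₀, -, hg₀⟩, huni⟩ := hT2 D hD
  have hzero : ∀ Q ∈ T, Q ≠ Q₀ → Nat.card (DZ p (⊤ : Subgroup A) b Q) = 0 := by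
    intro Q hQ hne
    have h2 : DZ p (⊤ : Subgroup A) b Q = ∅ := by
      rw [Set.eq_empty_iff_forall_notMem]
      intro φ hφ
      rw [hDZ Q hQ] at hφ
      obtain ⟨g, hg⟩ := wt_conj h hE (hT1 hQ).2.1 hφ.1 hφ.2
      exact hne (huni Q ⟨hQ, g, Subgroup.mem_top _, hg⟩)
    rw [h2]
    simp
  rw [Finset.sum_eq_single Q₀ (fun Q hQ hne => hzero Q hQ hne) (fun hn => absurd hQ₀ hn),
    hDZ Q₀ hQ₀]
  have h3 := card_cg_eq (p := p) (k := k) (H := (⊤ : Subgroup A)) (Q := D) (e := b)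
    (fun x _ => Subgroup.mem_top x) h.root.blk.invBy (h := g₀) (Subgroup.mem_top _)
  rw [WcAux.sec_top, WcAux.sec_top] at h3
  have h4 : Q₀ = cg g₀ D := hg₀
  subst h4
  rw [h3]
  exact card_dz_kap h hE

end

end Pool.Agent.Lib.P0c8ca5.Kq
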