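import Mathlib
import Pool.Agent.Lib.P0c8ca5Kq.Ch
import Pool.Agent.Lib.P0c8ca5Kq.Dc
import Pool.Agent.Lib.P0c8ca5Kp.KrP
import Pool.Agent.Lib.P0c8ca5Ex.Fin

/-!
# Fin: the weight conjecture for blocks with abelian defect group `D` and free inertial quotient of
order less than the exponent of `D`
-/

set_option autoImplicit false
set_option linter.unusedSectionVars false

namespace Pool.Agent.Lib.P0c8ca5.Kq

open MonoidAlgebra Bq Ex

universe u v

namespace FnAux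

/-- the chosen representatives -/
theorem chRE_spec {p : ℕ} {A : Type*} [Group A] [Finite A] (τ : Finset (Subgroup A))
    (hτ : Id.IsChE p τ) :
    ∃! σ, σ ∈ Id.chRE p A ∧ ∃ g : A, τ = ChOrbAux.cgS g σ := by
  classical
  let _ := ChOrbAux.actS (A := A)
  have hmem : ∀ σ : Finset (Subgroup A), σ ∈ Id.chRE p A ↔ Id.IsChE p σ ∧
      (Quotient.mk (MulAction.orbitRel A (Finset (Subgroup A))) σ).out = σ := by
    intro σ
    rw [Id.mem_chRE]
    unfold Bw.chR
    rw [Set.Finite.mem_toFinset]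
    constructor
    · rintro ⟨⟨h1, h2⟩, h3⟩
      exact ⟨⟨h1, h3⟩, h2⟩
    · rintro ⟨⟨h1, h3⟩, h2⟩
      exact ⟨⟨h1, h2⟩, h3⟩
  have hout : ∀ σ : Finset (Subgroup A), ∃ g : A,
      (Quotient.mk (MulAction.orbitRel A (Finset (Subgroup A))) σ).out = ChOrbAux.cgS g σ := by
    intro σ
    have h1 : (MulAction.orbitRel A (Finset (Subgroup A)))
        (Quotient.mk (MulAction.orbitRel A (Finset (Subgroup A))) σ).out σ :=
      Quotient.exact (Quotient.out_eq _)
    rw [MulAction.orbitRel_apply] at h1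
    obtain ⟨g, hg⟩ := h1
    exact ⟨g, hg.symm⟩
  obtain ⟨g, hg⟩ := hout τ
  refine ⟨(Quotient.mk (MulAction.orbitRel A (Finset (Subgroup A))) τ).out, ⟨?_, g⁻¹, ?_⟩, ?_⟩
  · rw [hmem]
    refine ⟨?_, by rw [Quotient.out_eq]⟩
    rw [hg]
    exact (Id.ElAux.isChE_cgS g τ).2 hτ
  · rw [hg, ChOrbAux.cgS_cgS, inv_mul_cancel, ChOrbAux.cgS_one]
  · rintro σ ⟨hσ, g', hg'⟩
    obtain ⟨h1, h2⟩ := (hmem σ).1 hσ
    rw [← h2]
    congr 1
    refine Quotient.sound ?_
    change (MulAction.orbitRel A (Finset (Subgroup A))) σ τ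
    rw [MulAction.orbitRel_apply]
    refine ⟨g'⁻¹, ?_⟩
    change ChOrbAux.cgS g'⁻¹ τ = σ
    rw [hg', ChOrbAux.cgS_cgS, inv_mul_cancel, ChOrbAux.cgS_one]

end FnAux

open FnAux

/-- the difference of the number of simple modules and the number of weights is divisible by the
exponent of `D` -/
theorem dvd_sub {p : ℕ} [Fact p.Prime] (hp : p ≠ 2) {k : Type v} [Field k] [IsAlgClosed k]
    [CharP k p] {A : Type u} [Group A] [Fintype A] {b f i : MonoidAlgebra k A} {D : Subgroup A}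
    (h : Src p b D f i) (hF : Free D f) {x : A} (hx : x ∈ D) {s : ℕ} (hs : x ^ p ^ s ≠ 1) :
    ((p ^ (s + 1) : ℕ) : ℤ) ∣ (Nat.card (IrX (⊤ : Subgroup A) b) : ℤ) - (kap D b : ℤ) := by
  have hD1 : D ≠ ⊥ := by
    rintro rfl
    apply hs
    rw [Subgroup.mem_bot.1 hx, one_pow]
  have hcom := h.root.com
  have hDD : ⁅D, D⁆ = ⊥ := by
    rw [Subgroup.commutator_eq_bot_iff_le_centralizer]
    exact D_le_CD hcom
  have h1 := Kp.krsp (p := p) (s := s) h.root.blk h.root.dfg hx (fun y hy => hcom x hx y hy)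
    (by rw [hDD, Subgroup.mem_bot]; exact hs) (Id.chRE p A)
    (fun σ hσ => Id.isChE_of_mem hσ) chRE_spec
  rwa [sum_kB hp h hF hD1 (Id.chRE p A) (fun σ hσ => Id.isChE_of_mem hσ) chRE_spec] at h1

theorem gap_zero_exp {p : ℕ} [Fact p.Prime] (hp : p ≠ 2) {k : Type v} [Field k] [IsAlgClosed k]
    [CharP k p] {A : Type u} [Group A] [Fintype A] {b : MonoidAlgebra k A} {D : Subgroup A}
    {f : MonoidAlgebra k A} (h : Root p b D f) (hF : Free D f) {x : A} (hx : x ∈ D) {s : ℕ}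
    (hs : x ^ p ^ s ≠ 1) (hE : eN D f < p ^ (s + 1)) :
    gap p (⊤ : Subgroup A) ⊤ b = 0 := by
  obtain ⟨i, hi⟩ := exists_src h
  have hnd : ¬ p ∣ eN D f := ndvd_eN h hF
  obtain ⟨T, hT1, hT2⟩ := exists_transversal (⊤ : Subgroup A) (Theta p (⊤ : Subgroup A) ⊤ b)
  have hw := wt_le hi hnd T hT1 hT2
  have hk := wt_kap hi hnd T hT1 hT2
  have hinv : InvBy ⊤ b := h.blk.invBy
  have hg := gap_eq (p := p) (le_refl (⊤ : Subgroup A)) (by
    intro x _
    rw [Subgroup.mem_normalizer_iff]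
    intro y
    simp) (fun x _ => ⟨0, Subgroup.mem_top _⟩) h.blk hinv T hT1 hT2
  have hl := l_le hp h hF
  have h1 := dvd_sub hp hi hF hx hs
  rw [card_irr_eq] at hl
  rw [card_irr_eq] at hg
  rw [hk] at hw hg
  have h2 : (Nat.card (IrX (⊤ : Subgroup A) b) : ℤ) - (kap D b : ℤ) = 0 := by
    refine Int.eq_zero_of_abs_lt_dvd h1 ?_
    rw [abs_lt]
    have h3 : ((p ^ (s + 1) : ℕ) : ℤ) > (eN D f : ℤ) := by exact_mod_cast hE
    have h4 : (Nat.card (IrX (⊤ : Subgroup A) b) : ℤ) ≤ (eN D f : ℤ) := by exact_mod_cast hl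
    have h5 : (kap D b : ℤ) ≤ (eN D f : ℤ) := by exact_mod_cast hw
    constructor <;> omega
  have h3 : Nat.card (IrX (⊤ : Subgroup A) b) = kap D b := by omega
  rw [hg, h3, sub_self]

end Pool.Agent.Lib.P0c8ca5.Kq
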